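import Pool.Agent.KE.SeedM

/-! Cubic forms over the field with two elements are balanced on all subcubes, for suitable coefficients. -/

namespace Pool.Agent.KH

open Finset Pool.Agent.SemRO Pool.Agent.KD Pool.Agent.KE

instance : Fact (Nat.Prime 2) := ⟨Nat.prime_two⟩

/-- matrices with `X Xᵀ = 0` are few -/
theorem card_isotropic {ι : Type} [Fintype ι] [DecidableEq ι] (q : ℕ) :
    (univ.filter fun X : Matrix ι (Fin (2 * q)) (ZMod 2) => X * X.transpose = 0).card ≤
      2 ^ (Fintype.card ι * q) * 2 ^ (2 * q * q) := by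
  classical
  have hsub : (univ.filter fun X : Matrix ι (Fin (2 * q)) (ZMod 2) => X * X.transpose = 0) ⊆
      (univ : Finset ((ι → Fin q → ZMod 2) × Matrix (Fin (2 * q)) (Fin q) (ZMod 2))).image
        (fun p => fun i => p.2.mulVec (p.1 i)) := by
    intro X hX
    have hX0 := (Finset.mem_filter.1 hX).2
    have h1 : X.rank + X.transpose.rank ≤ Fintype.card (Fin (2 * q)) :=
      Matrix.rank_add_rank_le_card_of_mul_eq_zero hX0
    rw [Matrix.rank_transpose, Fintype.card_fin] at h1
    have h2 : X.rank ≤ q := by omega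
    rw [Matrix.rank_eq_finrank_span_row] at h2
    obtain ⟨U, hU⟩ : ∃ U : Submodule (ZMod 2) (Fin (2 * q) → ZMod 2),
      U = Submodule.span (ZMod 2) (Set.range X.row) := ⟨_, rfl⟩
    rw [← hU] at h2
    have hmem : ∀ i, X i ∈ U := fun i => by
      rw [hU]
      exact Submodule.subset_span ⟨i, rfl⟩
    obtain ⟨φ, hφ⟩ : ∃ φ : (Fin q → ZMod 2) →ₗ[ZMod 2] (Fin (2 * q) → ZMod 2),
        ∀ u ∈ U, ∃ v, φ v = u := by
      refine ⟨U.subtype ∘ₗ (Module.finBasis (ZMod 2) U).equivFun.symm.toLinearMap ∘ₗ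
        LinearMap.funLeft (ZMod 2) (ZMod 2) (Fin.castLE h2), fun u hu => ?_⟩
      obtain ⟨w, hw⟩ := (Module.finBasis (ZMod 2) U).equivFun.symm.surjective ⟨u, hu⟩
      obtain ⟨v, hv⟩ := LinearMap.funLeft_surjective_of_injective (ZMod 2) (ZMod 2) (Fin.castLE h2)
        (Fin.castLE_injective h2) w
      refine ⟨v, ?_⟩
      rw [LinearMap.comp_apply, LinearMap.comp_apply, hv]
      show U.subtype ((Module.finBasis (ZMod 2) U).equivFun.symm w) = u
      rw [hw]
      rfl
    choose Y hY using fun i => hφ (X i) (hmem i)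
    refine Finset.mem_image.2 ⟨(Y, LinearMap.toMatrix' φ), Finset.mem_univ _, ?_⟩
    funext i
    rw [LinearMap.toMatrix'_mulVec]
    exact hY i
  refine (Finset.card_le_card hsub).trans (Finset.card_image_le.trans (le_of_eq ?_))
  have hM : Fintype.card (Matrix (Fin (2 * q)) (Fin q) (ZMod 2)) = 2 ^ (2 * q * q) := by
    have : Fintype.card (Matrix (Fin (2 * q)) (Fin q) (ZMod 2)) =
        Fintype.card (Fin (2 * q) → Fin q → ZMod 2) := Fintype.card_congr Matrix.of.symm
    rw [this, Fintype.card_fun, Fintype.card_fun, Fintype.card_fin, Fintype.card_fin, ZMod.card, ← pow_mul]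
    congr 1
    ring
  rw [Finset.card_univ, Fintype.card_prod, Fintype.card_fun, Fintype.card_fun, hM, ZMod.card,
    Fintype.card_fin, ← pow_mul, mul_comm q]

/-- the triples of variables -/
abbrev Tri (n : ℕ) : Type := Fin n × Fin n × Fin n

/-- the monomial of a triple -/
def mon {n : ℕ} (x : Fin n → Bool) (t : Tri n) : Bool := x t.1 && (x t.2.1 && x t.2.2)

/-- the value of the cubic form with the coefficients `C` -/
def cub {n : ℕ} (C : Tri n → Bool) (x : Fin n → Bool) : Bool :=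
  decide (Odd (univ.filter fun t => (C t && mon x t) = true).card)

lemma sg_cub {n : ℕ} (C : Tri n → Bool) (x : Fin n → Bool) : sg (cub C x) = ∏ t, sg (C t && mon x t) := by
  have h : ∀ t, sg (C t && mon x t) = if (C t && mon x t) = true then (-1 : ℤ) else 1 := fun t => rfl
  rw [Finset.prod_congr rfl fun t _ => h t, Finset.prod_ite, Finset.prod_const, Finset.prod_const_one,
    mul_one]
  unfold cub sg
  by_cases ho : Odd (univ.filter fun t => (C t && mon x t) = true).card
  · rw [ho.neg_one_pow, decide_eq_true ho]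
    rfl
  · rw [(Nat.not_odd_iff_even.1 ho).neg_one_pow, decide_eq_false ho]
    rfl

variable {n : ℕ}

/-- the factor of one triple in the moment -/
def fac {m : ℕ} (T : Finset (Fin n)) (y' : Fin n → Bool) (p : Fin m → Fin n → Bool) (t : Tri n) (β : Bool) : ℤ :=
  ∏ s, (sg (β && mon (p s) t) * sg (β && mon (mix T (p s) y') t))

lemma abs_fac {m : ℕ} (T : Finset (Fin n)) (y' : Fin n → Bool) (p : Fin m → Fin n → Bool) (t : Tri n) (β : Bool) :
    |fac T y' p t β| = 1 := by
  unfold fac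
  rw [Finset.abs_prod]
  refine Finset.prod_eq_one fun s _ => ?_
  rw [abs_mul, abs_sg, abs_sg, one_mul]

lemma fac_false {m : ℕ} (T : Finset (Fin n)) (y' : Fin n → Bool) (p : Fin m → Fin n → Bool) (t : Tri n) :
    fac T y' p t false = 1 := by
  unfold fac
  refine Finset.prod_eq_one fun s _ => ?_
  simp [sg]

/-- the tuples that survive -/
def EvenOn {m : ℕ} (T : Finset (Fin n)) (p : Fin m → Fin n → Bool) : Prop :=
  ∀ i ∈ T, ∀ j ∈ T, Even (univ.filter fun s => (p s i && p s j) = true).card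

lemma fac_odd {m : ℕ} {T : Finset (Fin n)} {y y' : Fin n → Bool} {l : Fin n} (hl : l ∉ T)
    (hyl : y l ≠ y' l) {p : Fin m → Fin n → Bool} (hp : ∀ s, p s ∈ cube T y) {i j : Fin n} (hi : i ∈ T)
    (hj : j ∈ T) (ho : ¬ Even (univ.filter fun s => (p s i && p s j) = true).card) :
    fac T y' p (i, j, l) true = -1 := by
  have h1 : ∀ s, sg (true && mon (p s) (i, j, l)) * sg (true && mon (mix T (p s) y') (i, j, l)) =
      if (p s i && p s j) = true then (-1 : ℤ) else 1 := by
    intro s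
    have e1 : p s l = y l := mem_cube.1 (hp s) l hl
    have e2 : mix T (p s) y' l = y' l := by simp [mix, hl]
    have e3 : mix T (p s) y' i = p s i := by simp [mix, hi]
    have e4 : mix T (p s) y' j = p s j := by simp [mix, hj]
    unfold mon
    simp only [e1, e2, e3, e4]
    revert hyl
    cases y l <;> cases y' l <;> cases p s i <;> cases p s j <;> simp [sg]
  unfold fac
  rw [Finset.prod_congr rfl fun s _ => h1 s, Finset.prod_ite, Finset.prod_const, Finset.prod_const_one,
    mul_one, (Nat.not_even_iff_odd.1 ho).neg_one_pow]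

open Classical in
lemma prod_fac_le {m : ℕ} {T : Finset (Fin n)} {y y' : Fin n → Bool} (hy : ∃ i, i ∉ T ∧ y i ≠ y' i)
    {p : Fin m → Fin n → Bool} (hp : ∀ s, p s ∈ cube T y) :
    ∏ t : Tri n, ∑ β : Bool, fac T y' p t β ≤ if EvenOn T p then (2 : ℤ) ^ Fintype.card (Tri n) else 0 := by
  obtain ⟨l, hl, hyl⟩ := hy
  have h0 : ∀ t : Tri n, 0 ≤ ∑ β : Bool, fac T y' p t β ∧ ∑ β : Bool, fac T y' p t β ≤ 2 := by
    intro t
    rw [Fintype.sum_bool, fac_false]
    have := abs_le.1 (abs_fac T y' p t true).le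
    constructor <;> linarith [this.1, this.2]
  split_ifs with h
  · calc ∏ t : Tri n, ∑ β : Bool, fac T y' p t β ≤ ∏ _t : Tri n, (2 : ℤ) :=
          Finset.prod_le_prod (fun t _ => (h0 t).1) fun t _ => (h0 t).2
      _ = 2 ^ Fintype.card (Tri n) := by rw [Finset.prod_const, Finset.card_univ]
  · unfold EvenOn at h
    push Not at h
    obtain ⟨i, hi, j, hj, ho⟩ := h
    refine le_of_eq (Finset.prod_eq_zero (Finset.mem_univ (i, j, l)) ?_)
    rw [Fintype.sum_bool, fac_false, fac_odd hl hyl hp hi hj (by simpa using ho)]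
    norm_num

open Classical in
/-- few tuples survive -/
lemma card_evenOn (T : Finset (Fin n)) (y : Fin n → Bool) (q : ℕ) :
    ((Fintype.piFinset fun _ : Fin (2 * q) => cube T y).filter fun p => EvenOn T p).card ≤
      2 ^ (T.card * q) * 2 ^ (2 * q * q) := by
  obtain ⟨Φ, hΦ⟩ : ∃ Φ : (Fin (2 * q) → Fin n → Bool) → Matrix T (Fin (2 * q)) (ZMod 2),
    ∀ p i s, Φ p i s = if p s i = true then 1 else 0 := ⟨fun p => Matrix.of fun i s => _, fun _ _ _ => rfl⟩
  have h := card_isotropic (ι := T) q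
  rw [Fintype.card_coe] at h
  refine le_trans (Finset.card_le_card_of_injOn Φ ?_ ?_) h
  · intro p hp
    obtain ⟨_, hp2⟩ := Finset.mem_filter.1 (Finset.mem_coe.1 hp)
    refine Finset.mem_coe.2 (Finset.mem_filter.2 ⟨Finset.mem_univ _, ?_⟩)
    ext i j
    rw [Matrix.mul_apply, Matrix.zero_apply]
    have e1 : ∀ s, Φ p i s * (Φ p).transpose s j = if (p s i && p s j) = true then 1 else 0 := by
      intro s
      rw [Matrix.transpose_apply, hΦ, hΦ]
      cases p s i <;> cases p s j <;> simp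
    rw [Finset.sum_congr rfl fun s _ => e1 s, ← Finset.sum_filter, Finset.sum_const, nsmul_eq_mul, mul_one]
    have := hp2 i i.2 j j.2
    exact (ZMod.natCast_eq_zero_iff_even).2 this
  · intro p hp p' hp' hpp
    obtain ⟨hp1, _⟩ := Finset.mem_filter.1 (Finset.mem_coe.1 hp)
    obtain ⟨hp1', _⟩ := Finset.mem_filter.1 (Finset.mem_coe.1 hp')
    rw [Fintype.mem_piFinset] at hp1 hp1'
    funext s i
    by_cases hi : i ∈ T
    · have h1 := congrFun (congrFun hpp ⟨i, hi⟩) s
      rw [hΦ, hΦ] at h1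
      simp only at h1
      revert h1
      cases p s i <;> cases p' s i <;> simp
    · rw [mem_cube.1 (hp1 s) i hi, mem_cube.1 (hp1' s) i hi]

/-- the moment of the sum over the coefficients -/
theorem moment_cub {T : Finset (Fin n)} {y y' : Fin n → Bool} (hy : ∃ i, i ∉ T ∧ y i ≠ y' i) (q : ℕ) :
    ∑ C : Tri n → Bool, ssum (cub C) T y y' ^ (2 * q) ≤
      ((Fintype.card (Tri n → Bool) * (2 ^ (T.card * q) * 2 ^ (2 * q * q)) : ℕ) : ℤ) := by
  classical
  set P := Fintype.piFinset fun _ : Fin (2 * q) => cube T y with hP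
  have e1 : ∀ C : Tri n → Bool, ssum (cub C) T y y' ^ (2 * q) =
      ∑ p ∈ P, ∏ s, (sg (cub C (p s)) * sg (cub C (mix T (p s) y'))) := by
    intro C
    have h := Finset.prod_univ_sum (κ := fun _ => Fin n → Bool) (fun _ : Fin (2 * q) => cube T y)
      (fun _ x => sg (cub C x) * sg (cub C (mix T x y')))
    rw [Finset.prod_const, Finset.card_univ, Fintype.card_fin] at h
    exact h
  have e2 : ∀ (C : Tri n → Bool) (p : Fin (2 * q) → Fin n → Bool),
      ∏ s, (sg (cub C (p s)) * sg (cub C (mix T (p s) y'))) = ∏ t, fac T y' p t (C t) := by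
    intro C p
    unfold fac
    rw [Finset.prod_comm]
    refine Finset.prod_congr rfl fun s _ => ?_
    rw [sg_cub, sg_cub, ← Finset.prod_mul_distrib]
  have e3 : ∀ p : Fin (2 * q) → Fin n → Bool, ∑ C : Tri n → Bool, ∏ t, fac T y' p t (C t) =
      ∏ t : Tri n, ∑ β : Bool, fac T y' p t β := by
    intro p
    have h := Finset.prod_univ_sum (κ := fun _ : Tri n => Bool) (fun _ : Tri n => (univ : Finset Bool))
      (fun t β => fac T y' p t β)
    rw [Fintype.piFinset_univ] at h
    exact h.symm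
  rw [Finset.sum_congr rfl fun C _ => e1 C, Finset.sum_comm]
  have h1 : ∀ p ∈ P, ∑ C : Tri n → Bool, ∏ s, (sg (cub C (p s)) * sg (cub C (mix T (p s) y'))) ≤
      if EvenOn T p then (2 : ℤ) ^ Fintype.card (Tri n) else 0 := by
    intro p hp
    rw [hP, Fintype.mem_piFinset] at hp
    rw [Finset.sum_congr rfl fun C _ => e2 C p, e3]
    exact prod_fac_le hy hp
  refine (Finset.sum_le_sum h1).trans ?_
  rw [← Finset.sum_filter, Finset.sum_const, nsmul_eq_mul]
  have h2 := card_evenOn T y q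
  rw [← hP] at h2
  have h3 : Fintype.card (Tri n → Bool) = 2 ^ Fintype.card (Tri n) := by
    rw [Fintype.card_fun, Fintype.card_bool]
  rw [h3]
  push_cast
  rw [mul_comm]
  refine mul_le_mul_of_nonneg_left ?_ (by positivity)
  exact_mod_cast h2

/-- Markov -/
theorem bad_cub {T : Finset (Fin n)} {y y' : Fin n → Bool} (hy : ∃ i, i ∉ T ∧ y i ≠ y' i) {e : ℕ}
    (hT : T.card = 8 * e) :
    (univ.filter fun C : Tri n → Bool => ¬ |ssum (cub C) T y y'| ≤ 2 ^ (6 * e)).card * 2 ^ (2 * e ^ 2) ≤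
      Fintype.card (Tri n → Bool) := by
  have h := moment_cub hy e
  rw [hT] at h
  have h2 : (((univ.filter fun C : Tri n → Bool => ¬ |ssum (cub C) T y y'| ≤ 2 ^ (6 * e)).card *
      2 ^ (12 * e * e) : ℕ) : ℤ) ≤ ∑ C : Tri n → Bool, ssum (cub C) T y y' ^ (2 * e) := by
    calc (((univ.filter fun C : Tri n → Bool => ¬ |ssum (cub C) T y y'| ≤ 2 ^ (6 * e)).card *
        2 ^ (12 * e * e) : ℕ) : ℤ)
        = ∑ _C ∈ univ.filter (fun C : Tri n → Bool => ¬ |ssum (cub C) T y y'| ≤ 2 ^ (6 * e)),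
            (2 : ℤ) ^ (12 * e * e) := by
          rw [Finset.sum_const, nsmul_eq_mul]
          push_cast
          ring
      _ ≤ ∑ C ∈ univ.filter (fun C : Tri n → Bool => ¬ |ssum (cub C) T y y'| ≤ 2 ^ (6 * e)),
            ssum (cub C) T y y' ^ (2 * e) := by
          refine Finset.sum_le_sum fun C hC => ?_
          have hC2 := (Finset.mem_filter.1 hC).2
          rw [not_le] at hC2
          have h3 : ssum (cub C) T y y' ^ (2 * e) = |ssum (cub C) T y y'| ^ (2 * e) := by
            rw [pow_mul, pow_mul, sq_abs]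
          rw [h3]
          calc (2 : ℤ) ^ (12 * e * e) = ((2 : ℤ) ^ (6 * e)) ^ (2 * e) := by
                rw [← pow_mul]; congr 1; ring
            _ ≤ |ssum (cub C) T y y'| ^ (2 * e) := pow_le_pow_left₀ (by positivity) hC2.le _
      _ ≤ ∑ C : Tri n → Bool, ssum (cub C) T y y' ^ (2 * e) := by
          refine Finset.sum_le_sum_of_subset_of_nonneg (Finset.subset_univ _) fun C _ _ => ?_
          exact Even.pow_nonneg (even_two_mul e) _
  have h4 : (univ.filter fun C : Tri n → Bool => ¬ |ssum (cub C) T y y'| ≤ 2 ^ (6 * e)).card *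
      2 ^ (12 * e * e) ≤ Fintype.card (Tri n → Bool) * (2 ^ (8 * e * e) * 2 ^ (2 * e * e)) := by
    exact_mod_cast h2.trans h
  have h5 : (2 : ℕ) ^ (12 * e * e) = 2 ^ (2 * e ^ 2) * (2 ^ (8 * e * e) * 2 ^ (2 * e * e)) := by
    rw [← pow_add, ← pow_add]
    congr 1
    ring
  rw [h5, ← mul_assoc] at h4
  exact Nat.le_of_mul_le_mul_right h4 (by positivity)

/-- **Good coefficients exist.** -/
theorem exists_cubic {e : ℕ} (h : 3 * n + 1 ≤ 2 * e ^ 2) : ∃ C : Tri n → Bool, Bal (cub C) e := by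
  classical
  by_contra hcon
  push Not at hcon
  set Q : Finset (Finset (Fin n) × (Fin n → Bool) × (Fin n → Bool)) :=
    univ.filter fun t => t.1.card = 8 * e ∧ ∃ i, i ∉ t.1 ∧ t.2.1 i ≠ t.2.2 i with hQ
  have hcov : (univ : Finset (Tri n → Bool)) ⊆ Q.biUnion fun t =>
      univ.filter fun C => ¬ |ssum (cub C) t.1 t.2.1 t.2.2| ≤ 2 ^ (6 * e) := by
    intro C _
    have h := hcon C
    unfold Bal at h
    push Not at h
    obtain ⟨T, hT, y, y', hy, hb⟩ := h
    refine Finset.mem_biUnion.2 ⟨(T, y, y'), Finset.mem_filter.2 ⟨Finset.mem_univ _, hT, hy⟩,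
      Finset.mem_filter.2 ⟨Finset.mem_univ _, ?_⟩⟩
    rw [not_le]
    exact hb
  have h1 : Fintype.card (Tri n → Bool) ≤ ∑ t ∈ Q,
      (univ.filter fun C : Tri n → Bool => ¬ |ssum (cub C) t.1 t.2.1 t.2.2| ≤ 2 ^ (6 * e)).card := by
    rw [← Finset.card_univ]
    exact (Finset.card_le_card hcov).trans Finset.card_biUnion_le
  have h2 : Fintype.card (Tri n → Bool) * 2 ^ (2 * e ^ 2) ≤ Q.card * Fintype.card (Tri n → Bool) := by
    refine (Nat.mul_le_mul_right _ h1).trans ?_
    rw [Finset.sum_mul, ← smul_eq_mul]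
    refine Finset.sum_le_card_nsmul _ _ _ fun t ht => ?_
    obtain ⟨_, ht1, ht2⟩ := Finset.mem_filter.1 ht
    exact bad_cub ht2 ht1
  have h3 : Q.card ≤ 2 ^ (3 * n) := by
    refine (Finset.card_filter_le _ _).trans (le_of_eq ?_)
    rw [Finset.card_univ, Fintype.card_prod, Fintype.card_prod, Fintype.card_finset, Fintype.card_fun,
      Fintype.card_bool, Fintype.card_fin, ← pow_add, ← pow_add]
    congr 1
    ring
  have hpos : 0 < Fintype.card (Tri n → Bool) := Fintype.card_pos
  have h4 : 2 ^ (2 * e ^ 2) ≤ 2 ^ (3 * n) := by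
    have h5 : Fintype.card (Tri n → Bool) * 2 ^ (2 * e ^ 2) ≤
        Fintype.card (Tri n → Bool) * 2 ^ (3 * n) := by
      calc Fintype.card (Tri n → Bool) * 2 ^ (2 * e ^ 2) ≤ Q.card * Fintype.card (Tri n → Bool) := h2
        _ ≤ 2 ^ (3 * n) * Fintype.card (Tri n → Bool) := Nat.mul_le_mul_right _ h3
        _ = _ := mul_comm _ _
    exact Nat.le_of_mul_le_mul_left h5 hpos
  have h6 := (Nat.pow_le_pow_iff_right (by norm_num : 1 < 2)).1 h4
  omega

end Pool.Agent.KH
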