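import Pool.Agent.KH.PT
import Pool.Agent.KH.Cub

/-! The words of a cubic form and its points. -/

namespace Pool.Agent.KH

open Finset Pool.Agent.KE

theorem cubic_cub {n : ℕ} (C : Tri n → Bool) (x : Fin n → Bool) (Cn xn : ℕ → Bool)
    (hC : ∀ i j l : Fin n, Cn (((i : ℕ) * n + j) * n + l) = C (i, j, l))
    (hx : ∀ i : Fin n, xn i = x i) : cubic n Cn xn = 0 ↔ cub C x = false := by
  have h1 : cubic n Cn xn = ∑ t : Tri n, zb (C t && mon x t) := by
    unfold cubic
    rw [Fintype.sum_prod_type, Finset.sum_range]
    refine Finset.sum_congr rfl fun i _ => ?_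
    rw [Fintype.sum_prod_type, Finset.sum_range]
    refine Finset.sum_congr rfl fun j _ => ?_
    rw [Finset.sum_range]
    refine Finset.sum_congr rfl fun l _ => ?_
    rw [hC, hx, hx, hx, zb_and]
    unfold mon
    rw [zb_and, zb_and]
    ring
  have h2 : ∑ t : Tri n, zb (C t && mon x t) =
      ((univ.filter fun t => (C t && mon x t) = true).card : ZMod 2) := by
    unfold zb
    rw [Finset.sum_ite, Finset.sum_const_zero, add_zero, Finset.sum_const, nsmul_eq_mul, mul_one]
  rw [h1, h2]
  unfold cub
  rw [decide_eq_false_iff_not, Nat.not_odd_iff_even, ZMod.natCast_eq_zero_iff_even]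

theorem bpos_lt {n N b i : ℕ} (hb : b < pts n N) (hi : i < n) : n ^ 3 + b * n + i < N := by
  have h1 := pts_fits (n := n) (N := N) (by omega)
  have h3 : b * n + n ≤ pts n N * n := by
    calc b * n + n = (b + 1) * n := by ring
      _ ≤ pts n N * n := Nat.mul_le_mul_right _ hb
  omega

/-- the position of letter `i` of the point `b` -/
def bpos (n N : ℕ) (b : Fin (pts n N)) (i : Fin n) : Fin N := ⟨n ^ 3 + b * n + i, bpos_lt b.2 i.2⟩

theorem bpos_inj {n N : ℕ} {b b' : Fin (pts n N)} {i i' : Fin n}
    (h : bpos n N b i = bpos n N b' i') : b = b' ∧ i = i' := by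
  have h1 := congrArg Fin.val h
  simp only [bpos] at h1
  have hi := i.2
  have hi' := i'.2
  have h2 : (b : ℕ) * n + i = b' * n + i' := by omega
  have h0 : 0 < n := by omega
  have h3 : (b : ℕ) = b' := by
    have e1 : ((b : ℕ) * n + i) / n = b := by
      rw [mul_comm, Nat.mul_add_div h0, Nat.div_eq_of_lt hi, add_zero]
    have e2 : ((b' : ℕ) * n + i') / n = b' := by
      rw [mul_comm, Nat.mul_add_div h0, Nat.div_eq_of_lt hi', add_zero]
    rw [← e1, ← e2, h2]
  refine ⟨Fin.ext h3, Fin.ext ?_⟩
  rw [h3] at h2
  omega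

theorem bpos_ge {n N : ℕ} (b : Fin (pts n N)) (i : Fin n) : n ^ 3 ≤ (bpos n N b i : ℕ) := by
  simp only [bpos]
  omega

/-- the word with the coefficients of the form and no points -/
def zC {n : ℕ} (N : ℕ) (C : Tri n → Bool) (p : Fin N) : Bool :=
  if h : (p : ℕ) < n ^ 3 then
    C (⟨(p : ℕ) / n / n, by
        rw [Nat.div_div_eq_div_mul]
        exact Nat.div_lt_of_lt_mul (by rwa [show n * n * n = n ^ 3 by ring])⟩,
      ⟨(p : ℕ) / n % n, Nat.mod_lt _ (by rcases Nat.eq_zero_or_pos n with h0 | h0
                                         · rw [h0] at h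
                                           simp at h
                                         · exact h0)⟩,
      ⟨(p : ℕ) % n, Nat.mod_lt _ (by rcases Nat.eq_zero_or_pos n with h0 | h0
                                     · rw [h0] at h
                                       simp at h
                                     · exact h0)⟩)
  else false

theorem zC_eq {n N : ℕ} (C : Tri n → Bool) (i j l : Fin n) (p : Fin N)
    (hp : (p : ℕ) = ((i : ℕ) * n + j) * n + l) : zC N C p = C (i, j, l) := by
  have hi := i.2
  have hj := j.2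
  have hl := l.2
  have hn : 0 < n := by omega
  have e1 : (((i : ℕ) * n + j) * n + l) / n = i * n + j := by
    rw [mul_comm, Nat.mul_add_div hn, Nat.div_eq_of_lt hl, add_zero]
  have e2 : ((i : ℕ) * n + j) / n = i := by
    rw [mul_comm, Nat.mul_add_div hn, Nat.div_eq_of_lt hj, add_zero]
  have e3 : (((i : ℕ) * n + j) * n + l) % n = l := by
    rw [mul_comm, Nat.mul_add_mod, Nat.mod_eq_of_lt hl]
  have e4 : ((i : ℕ) * n + j) % n = j := by
    rw [mul_comm, Nat.mul_add_mod, Nat.mod_eq_of_lt hj]
  have h : (p : ℕ) < n ^ 3 := by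
    rw [hp]
    calc ((i : ℕ) * n + j) * n + l < ((i : ℕ) * n + j) * n + n := by omega
      _ = ((i : ℕ) * n + j + 1) * n := by ring
      _ ≤ (n * n) * n := by
        refine Nat.mul_le_mul_right _ ?_
        calc (i : ℕ) * n + j + 1 ≤ i * n + n := by omega
          _ = (i + 1) * n := by ring
          _ ≤ n * n := Nat.mul_le_mul_right _ (by omega)
      _ = n ^ 3 := by ring
  unfold zC
  rw [dif_pos h]
  congr 1
  simp only [hp, e1, e2, e3, e4]

/-- A word with the coefficients `C` and the points `X b` is in the language if and only if the form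
vanishes at all the points. -/
theorem L_iff {s : ℕ → ℕ} {N : ℕ} (h0 : 0 < pts (s N) N) (C : Tri (s N) → Bool)
    (X : Fin (pts (s N) N) → Fin (s N) → Bool) (y : Fin N → Bool)
    (h1 : ∀ b i, y (bpos (s N) N b i) = X b i) (h2 : ∀ p : Fin N, (p : ℕ) < s N ^ 3 → y p = zC N C p) :
    L s (List.ofFn y) ↔ ∀ b, cub C (X b) = false := by
  have h3 := pts_fits h0
  unfold L
  rw [List.length_ofFn]
  have key : ∀ b : Fin (pts (s N) N), cubic (s N) (fun t => (List.ofFn y).getD t false)
      (fun i => (List.ofFn y).getD (s N ^ 3 + b * s N + i) false) = 0 ↔ cub C (X b) = false := by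
    intro b
    refine cubic_cub C (X b) _ _ (fun i j l => ?_) (fun i => ?_)
    · have hn : 0 < s N := by have := i.2; omega
      have h4 : ((i : ℕ) * s N + j) * s N + l < s N ^ 3 := by
        calc ((i : ℕ) * s N + j) * s N + l
            < ((i : ℕ) * s N + j) * s N + s N := by have := l.2; omega
          _ = ((i : ℕ) * s N + j + 1) * s N := by ring
          _ ≤ (s N * s N) * s N := by
            refine Nat.mul_le_mul_right _ ?_
            calc (i : ℕ) * s N + j + 1 ≤ i * s N + s N := by have := j.2; omega
              _ = (i + 1) * s N := by ring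
              _ ≤ s N * s N := Nat.mul_le_mul_right _ (by have := i.2; omega)
          _ = s N ^ 3 := by ring
      have h6 : ((i : ℕ) * s N + j) * s N + l < N := by omega
      rw [List.getD_eq_getElem _ _ (by simpa using h6), List.getElem_ofFn, h2 _ h4]
      exact zC_eq C i j l _ rfl
    · have h4 := (bpos (s N) N b i).2
      have h5 : s N ^ 3 + (b : ℕ) * s N + i < N := h4
      rw [List.getD_eq_getElem _ _ (by simpa using h5), List.getElem_ofFn, ← h1 b i]
      rfl
  constructor
  · intro h b
    exact (key b).1 (h b b.2)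
  · intro h b hb
    exact (key ⟨b, hb⟩).2 (h ⟨b, hb⟩)

end Pool.Agent.KH
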