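import Pool.Agent.KH.Block
import Pool.Agent.KD.Res
import Pool.Agent.KD.Ev

/-! The bias of the set of inputs of one block accepted with few tests in this block. -/

namespace Pool.Agent.KH

open Pool.Agent.SemRO Pool.Agent.KD Pool.Agent.KNL

section res
variable {V Γ : Type} {N n : ℕ}

/-- the variable of the block at a position -/
noncomputable def opos (pos : Fin n → Fin N) (p : Fin N) : Option (Fin n) := by
  classical
  exact if h : ∃ i, pos i = p then some h.choose else none

lemma opos_pos {pos : Fin n → Fin N} (hpos : Function.Injective pos) (i : Fin n) :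
    opos pos (pos i) = some i := by
  classical
  unfold opos
  have h : ∃ j, pos j = pos i := ⟨i, rfl⟩
  rw [dif_pos h]
  exact congrArg some (hpos h.choose_spec)

lemma opos_none {pos : Fin n → Fin N} {p : Fin N} (hp : ¬ ∃ i, pos i = p) : opos pos p = none := by
  classical
  unfold opos
  rw [dif_neg hp]

lemma opos_isSome {pos : Fin n → Fin N} (hpos : Function.Injective pos) (p : Fin N) :
    (opos pos p).isSome = true ↔ p ∈ Set.range pos := by
  constructor
  · intro h
    by_contra hp
    rw [opos_none hp] at h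
    exact absurd h (by simp)
  · rintro ⟨i, rfl⟩
    rw [opos_pos hpos]
    rfl

lemma paste_extend {pos : Fin n → Fin N} (hpos : Function.Injective pos) (z : Fin N → Bool)
    (x : Fin n → Bool) : paste (opos pos) z x = Function.extend pos x z := by
  funext p
  by_cases hp : ∃ i, pos i = p
  · obtain ⟨i, rfl⟩ := hp
    rw [paste_some (opos_pos hpos i), hpos.extend_apply]
  · rw [paste_none (opos_none hp), Function.extend_apply' _ _ _ hp]

lemma cnt_opos {pos : Fin n → Fin N} (hpos : Function.Injective pos)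
    [DecidablePred fun v => v ∈ Set.range pos] (l : List (Fin N)) :
    cnt (opos pos) l = (l.filter fun v => v ∈ Set.range pos).length := by
  unfold cnt
  congr 1
  refine List.filter_congr fun v _ => ?_
  rw [Bool.eq_iff_iff, opos_isSome hpos, decide_eq_true_iff]

/-- The inputs of the block accepted with at most `m` tests in the block, in terms of the restricted
program. -/
theorem restr_iff {P : SBP V Γ (Fin N)} (hP : Det P) {pos : Fin n → Fin N}
    (hpos : Function.Injective pos) [DecidablePred fun v => v ∈ Set.range pos] (z : Fin N → Bool)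
    (x : Fin n → Bool) (m : ℕ) :
    (∃ l, P.AccWalk (Function.extend pos x z) l ∧ (l.filter fun v => v ∈ Set.range pos).length ≤ m) ↔
      ∃ l, (sres P (opos pos) z).AccWalk x l ∧ l.length ≤ m := by
  rw [← paste_extend hpos]
  constructor
  · rintro ⟨l, hl, hm⟩
    obtain ⟨l', h1, h2⟩ := sres_of_walk hl
    exact ⟨l', h1, by rw [h2, cnt_opos hpos]; exact hm⟩
  · rintro ⟨l', hl', hm⟩
    obtain ⟨l, hl⟩ := walk_of_sres hl'
    obtain ⟨l'', h1, h2⟩ := sres_of_walk hl
    have h3 : l' = l'' :=
      ((ev_of_accWalk (hP.sres _ _) hl').unique0 (hP.sres _ _) (ev_of_accWalk (hP.sres _ _) h1)).2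
    refine ⟨l, hl, ?_⟩
    rw [← cnt_opos hpos, ← h2, ← h3]
    exact hm

end res

/-- **The bias of the inputs accepted with few tests in the block.** -/
theorem block_bias' : ∃ B : ℕ → ℕ, KB B ∧ (∀ k, 1 ≤ B k) ∧ ∀ k, 2 ≤ k → ∀ n, B k ≤ n →
    ∃ e, 1 ≤ e ∧ 8 * e ≤ n ∧ 4 * n ≤ e ^ 2 ∧ ∀ f : (Fin n → Bool) → Bool, Pool.Agent.KE.Bal f e →
      ∀ (N : ℕ) (pos : Fin n → Fin N), Function.Injective pos →
      ∀ (_ : DecidablePred fun v => v ∈ Set.range pos) (z : Fin N → Bool)
        (V Γ : Type) (_ : Fintype V) (P : SBP V Γ (Fin N)), Det P →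
      (Fintype.card V : ℝ) ≤ 2 ^ ((n : ℝ) / B k) → ∀ A : Finset (Fin n → Bool),
      (∀ x, x ∈ A ↔ ∃ l, P.AccWalk (Function.extend pos x z) l ∧
        (l.filter fun v => v ∈ Set.range pos).length ≤ k * n) →
      |∑ x ∈ A, (Pool.Agent.KE.sg (f x) : ℝ)| ≤ 2 ^ n / 2 ^ ((n : ℝ) / B k) := by
  obtain ⟨B, hB, hB1, hb⟩ := block_bias
  refine ⟨B, hB, hB1, fun k hk n hn => ?_⟩
  obtain ⟨e, he1, he8, h4n, hf⟩ := hb k hk n hn
  refine ⟨e, he1, he8, h4n, fun f hbal N pos hpos _ z V Γ _ P hP hV A hA => ?_⟩
  exact hf f hbal V Γ (sres P (opos pos) z) (hP.sres _ _) hV A fun x =>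
    (hA x).trans (restr_iff hP hpos z x (k * n))

end Pool.Agent.KH
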