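import Pool.Agent.KH.Avg
import Pool.Agent.KH.Bridge
import Pool.Agent.KH.Restr
import Pool.Agent.KE.Params

/-! The time bound for the language of the vanishing cubic forms. -/

namespace Pool.Agent.KH

open Finset Pool.Agent.SemRO Pool.Agent.KD Pool.Agent.KNL Pool.Agent.KE

/-- the program without edges whose source is the accepting node -/
def triv (N : ℕ) : SBP Unit Empty (Fin N) where
  src := ()
  acc := ()
  free _ _ := False
  test _ _ _ _ := False
  push _ _ _ := False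
  pop _ _ _ := False

lemma triv_det (N : ℕ) : Det (triv N) := by
  constructor <;> simp [triv]

lemma pts_large {n N : ℕ} (h2 : 2 ≤ n) (hN : 2 * n ^ 3 ≤ N) : N ≤ 4 * (pts n N * n) := by
  have h1 := Nat.div_add_mod (N - n ^ 3) n
  have h3 := Nat.mod_lt (N - n ^ 3) (show 0 < n by omega)
  have h4 : 4 * n ≤ n ^ 3 := by
    calc 4 * n ≤ (n * n) * n := Nat.mul_le_mul_right _ (Nat.mul_le_mul h2 h2)
      _ = n ^ 3 := by ring
  have h5 : pts n N * n = n * ((N - n ^ 3) / n) := by unfold pts; rw [mul_comm]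
  rw [h5]
  omega

/-- **Choice of `k`.** -/
theorem choose_block (c : ℕ) : ∃ d x0 : ℝ, 0 < d ∧ 1 ≤ x0 ∧ ∀ (n S : ℕ), 1 ≤ S → x0 * S ≤ n →
    ∃ k : ℕ, 2 ≤ k ∧ (S : ℝ) ≤ (n : ℝ) / (k : ℝ) ^ (c * k) ∧
      d * Real.log (n / S) / Real.log (Real.log (n / S)) ≤ k := by
  obtain ⟨d, x0, hd, hx0, h⟩ := choose_k c
  refine ⟨d / 2, max x0 (Real.exp (Real.exp 1)), by linarith, le_max_of_le_left hx0, ?_⟩
  intro n S hS hn
  have hSr : (1 : ℝ) ≤ S := by exact_mod_cast hS
  have hn0 : x0 * S ≤ n := le_trans (mul_le_mul_of_nonneg_right (le_max_left _ _) (by linarith)) hn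
  have hn1 : Real.exp (Real.exp 1) * S ≤ n :=
    le_trans (mul_le_mul_of_nonneg_right (le_max_right _ _) (by linarith)) hn
  have hnr : (1 : ℝ) ≤ n := le_trans (one_le_mul_of_one_le_of_one_le hx0 hSr) hn0
  have hx : Real.exp (Real.exp 1) ≤ n / S := by
    rw [le_div_iff₀ (by linarith)]
    exact hn1
  have hl : Real.exp 1 ≤ Real.log (n / S) := by
    rw [Real.le_log_iff_exp_le (lt_of_lt_of_le (Real.exp_pos _) hx)]
    exact hx
  have hl0 : 0 < Real.log (n / S) := lt_of_lt_of_le (Real.exp_pos _) hl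
  have hll : 1 ≤ Real.log (Real.log (n / S)) := by
    rw [Real.le_log_iff_exp_le hl0]
    exact hl
  obtain ⟨R, hR⟩ : ∃ R : ℝ, R = d * n * Real.log (n / S) / Real.log (Real.log (n / S)) := ⟨_, rfl⟩
  have hR0 : 0 < R := by
    rw [hR]
    exact div_pos (mul_pos (mul_pos hd (by linarith)) hl0) (by linarith)
  have hceil : 0 < ⌈R⌉₊ := Nat.ceil_pos.2 hR0
  have hT : ((⌈R⌉₊ - 1 : ℕ) : ℝ) < R := by
    have := Nat.ceil_lt_add_one hR0.le
    rw [Nat.cast_sub hceil]
    push_cast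
    linarith
  obtain ⟨k, hk2, -, hkS, hk⟩ := h n S hS hn0 (⌈R⌉₊ - 1) (by rw [← hR]; exact hT)
  refine ⟨k, hk2, hkS, ?_⟩
  have hk1 : R ≤ k * n + 1 := by
    have h1 : ⌈R⌉₊ ≤ k * n + 1 := by omega
    exact (Nat.le_ceil R).trans (by exact_mod_cast h1)
  have hkr : (2 : ℝ) ≤ k := by exact_mod_cast hk2
  have hkn : 1 ≤ (k : ℝ) * n := one_le_mul_of_one_le_of_one_le (by linarith) hnr
  have h2 : R = n * (2 * (d / 2 * Real.log (n / S) / Real.log (Real.log (n / S)))) := by rw [hR]; ring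
  have h3 : (n : ℝ) * (2 * (d / 2 * Real.log (n / S) / Real.log (Real.log (n / S)))) ≤ n * (2 * k) := by
    rw [← h2]
    linarith
  have h4 := le_of_mul_le_mul_left h3 (by linarith)
  linarith

open Classical in
/-- **The lower bound for distributions on deterministic programs with a stack.** -/
theorem time_low : ∃ c x0 : ℝ, 0 < c ∧ 1 ≤ x0 ∧ ∀ (s : ℕ → ℕ) (N S : ℕ) (η : ℝ), 1 ≤ S →
    x0 * S ≤ s N → 2 * s N ^ 3 ≤ N → 1 / 2 ^ S ≤ η →
      ∀ (ι : Type) [Fintype ι] (w : ι → ℝ) (V Γ : ι → Type) [∀ i, Fintype (V i)]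
        (P : ∀ i, SBP (V i) (Γ i) (Fin N)), (∀ i, 0 ≤ w i) → ∑ i, w i = 1 →
        (∀ i, Det (P i) ∧ Fintype.card (V i) ≤ 2 ^ S) →
        ∀ T : ℕ, (∀ y, 1 / 2 + η ≤ ∑ i, if Correct (L s) (P i) T y then w i else 0) →
          c * η * N * Real.log (s N / S) / Real.log (Real.log (s N / S)) ≤ T := by
  obtain ⟨B, ⟨c0, hB⟩, hB1, hX⟩ := block_bias'
  obtain ⟨d, x0, hd, hx0, hch⟩ := choose_block (c0 + 2)
  refine ⟨d / 4, max x0 2, by linarith, le_max_of_le_left hx0, ?_⟩
  intro s N S η hS hx hN hη ι _ w V Γ _ P hw0 hw1 hP T hT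
  by_contra hcon
  push Not at hcon
  obtain ⟨n, hn⟩ : ∃ n, n = s N := ⟨_, rfl⟩
  rw [← hn] at hx hN hcon
  have hSr : (1 : ℝ) ≤ S := by exact_mod_cast hS
  obtain ⟨k, hk2, hkS, hk⟩ := hch n S hS
    (le_trans (mul_le_mul_of_nonneg_right (le_max_left _ _) (by linarith)) hx)
  have hn2r : (2 : ℝ) ≤ n := by
    have h1 : (2 : ℝ) * S ≤ n := le_trans (mul_le_mul_of_nonneg_right (le_max_right _ _) (by linarith)) hx
    linarith
  have hn2 : 2 ≤ n := by exact_mod_cast hn2r
  have hη0 : 0 < η := lt_of_lt_of_le (by positivity) hη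
  have hη2 : η ≤ 1 / 2 := by
    by_contra h
    push Not at h
    have h1 := hT fun _ => false
    have h2 : ∑ i, (if Correct (L s) (P i) T (fun _ => false) then w i else 0) ≤ ∑ i, w i := by
      refine Finset.sum_le_sum fun i _ => ?_
      split_ifs
      · exact le_rfl
      · exact hw0 i
    linarith
  have hBr : (1 : ℝ) ≤ B k := by exact_mod_cast hB1 k
  -- the size
  have h3S : 3 * (S : ℝ) ≤ n / B k := by
    have h1 : 3 * B k ≤ k ^ ((c0 + 2) * k) := by
      have h2 : 3 ≤ k ^ (2 * k) := by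
        calc 3 ≤ 2 ^ 2 := by norm_num
          _ ≤ k ^ 2 := Nat.pow_le_pow_left hk2 _
          _ ≤ k ^ (2 * k) := Nat.pow_le_pow_right (by omega) (by omega)
      calc 3 * B k ≤ k ^ (2 * k) * k ^ (c0 * k) := Nat.mul_le_mul h2 (hB k hk2)
        _ = k ^ ((c0 + 2) * k) := by rw [← pow_add]; congr 1; ring
    have h3 : (3 : ℝ) * B k ≤ (k : ℝ) ^ ((c0 + 2) * k) := by exact_mod_cast h1
    have h4 : (S : ℝ) ≤ n / (3 * B k) :=
      hkS.trans (div_le_div_of_nonneg_left (by linarith) (by linarith) h3)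
    rw [le_div_iff₀ (by linarith)] at h4 ⊢
    linarith
  have hBn : B k ≤ n := by
    have h1 : (B k : ℝ) ≤ n := by
      rw [le_div_iff₀ (by linarith)] at h3S
      nlinarith
    exact_mod_cast h1
  obtain ⟨e, he1, he8, h4n, hf⟩ := hX k hk2 n hBn
  obtain ⟨Cf, hbal⟩ := exists_cubic (n := n) (e := e) (by omega)
  have hf := hf (cub Cf) hbal
  -- the bias
  obtain ⟨δ, hδ⟩ : ∃ δ : ℝ, δ = 1 / 2 ^ ((n : ℝ) / B k) := ⟨_, rfl⟩
  have hδ0 : 0 ≤ δ := by rw [hδ]; positivity
  have hδ4 : 4 * δ ≤ η := by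
    refine le_trans ?_ hη
    have h1 : (2 : ℝ) ^ ((S : ℝ) + 2) ≤ 2 ^ ((n : ℝ) / B k) :=
      Real.rpow_le_rpow_of_exponent_le (by norm_num) (by linarith)
    have h2 : (2 : ℝ) ^ ((S : ℝ) + 2) = 2 ^ S * 4 := by
      rw [Real.rpow_add (by norm_num), Real.rpow_natCast]
      norm_num
    rw [hδ, mul_one_div, div_le_div_iff₀ (by positivity) (by positivity)]
    linarith
  have hdiv : (2 : ℝ) ^ n / 2 ^ ((n : ℝ) / B k) = δ * 2 ^ n := by rw [hδ]; ring
  rw [hdiv] at hf
  have hVle : ∀ a : ℕ, a ≤ 2 ^ S → (a : ℝ) ≤ 2 ^ ((n : ℝ) / B k) := by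
    intro a ha
    have h1 : (a : ℝ) ≤ 2 ^ (S : ℝ) := by
      rw [Real.rpow_natCast]
      exact_mod_cast ha
    exact h1.trans (Real.rpow_le_rpow_of_exponent_le (by norm_num) (by linarith))
  have hlarge := pts_large hn2 hN
  have hBpos : 1 ≤ pts n N := by
    by_contra h0
    rw [show pts n N = 0 by omega] at hlarge
    have : 0 < n ^ 3 := by positivity
    omega
  have hinj : ∀ b, Function.Injective (bpos n N b) := fun b i i' h => (bpos_inj h).2
  -- the sum of all signs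
  have hg : |∑ x, (sg (cub Cf x) : ℝ)| ≤ δ * 2 ^ n := by
    have b0 : Fin (pts n N) := ⟨0, hBpos⟩
    refine hf N (bpos n N b0) (hinj b0) (Classical.decPred _) (fun _ => false) Unit Empty inferInstance
      (triv N) (triv_det N) ?_ univ ?_
    · rw [Fintype.card_unit, Nat.cast_one]
      exact Real.one_le_rpow (by norm_num) (by positivity)
    · intro x
      refine ⟨fun _ => ⟨[], .nil _ _, by simp⟩, fun _ => Finset.mem_univ _⟩
  subst hn
  refine avg (B := pts (s N) N) (n := s N) (N := N) (T := T) (k' := k) (δ := δ) (η := η)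
    hBpos hδ0 (cub Cf) hg (pos := bpos (s N) N) (fun b b' i i' h => bpos_inj h) (z0 := zC N Cf) (L s) ?_
    ι w V Γ P hw0 hw1 ?_ ?_ hη0 hη2 hδ4 hT
  · intro X
    refine L_iff hBpos Cf X _ ?_ ?_
    · intro b i
      exact wd_pos (fun b b' i i' h => bpos_inj h) _ _ _ _
    · intro p hp
      refine wd_off _ _ ?_
      intro b i hbi
      have := bpos_ge (N := N) b i
      rw [hbi] at this
      omega
  · intro i b z A hA
    exact hf N (bpos (s N) N b) (hinj b) _ z (V i) (Γ i) _ (P i) (hP i).1 (hVle _ (hP i).2) A hA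
  · have h1 : (N : ℝ) ≤ 4 * (pts (s N) N * s N) := by exact_mod_cast hlarge
    have h2 : 0 ≤ d / 4 * η * N := by positivity
    have h3 : d / 4 * η * N * Real.log (s N / S) / Real.log (Real.log (s N / S)) ≤
        η / 4 * N * k := by
      have h4 : d / 4 * η * N * Real.log (s N / S) / Real.log (Real.log (s N / S)) =
          η / 4 * N * (d * Real.log (s N / S) / Real.log (Real.log (s N / S))) := by ring
      rw [h4]
      exact mul_le_mul_of_nonneg_left hk (by positivity)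
    have h5 : η / 4 * N * k ≤ η / 4 * (4 * (pts (s N) N * s N)) * k := by
      refine mul_le_mul_of_nonneg_right (mul_le_mul_of_nonneg_left h1 (by linarith)) (by positivity)
    calc (T : ℝ) ≤ η / 4 * (4 * (pts (s N) N * s N)) * k := (hcon.le.trans h3).trans h5
      _ = η * (pts (s N) N * (k * s N)) := by ring

end Pool.Agent.KH
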