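import Pool.Agent.KH.LowE

/-! Nondeterministic programs with a stack for a language all of whose slices (all blocks but one are
fixed) contain no large rectangles. -/

namespace Pool.Agent.KH

open Finset Pool.Agent.SemRO Pool.Agent.KNL
open Pool.Agent.KQ (SbpB sbp_quant)

section
variable {B n N : ℕ} {pos : Fin B → Fin n → Fin N}

/-- a block that is light for half of the words -/
lemma popular {T k' : ℕ} (hB : 1 ≤ B) (hpos : ∀ b b' i i', pos b i = pos b' i' → b = b' ∧ i = i')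
    (S : Finset (Fin B → Fin n → Bool)) (R : (Fin B → Fin n → Bool) → List (Fin N) → Prop)
    (hT : 2 * T ≤ B * (k' * n)) (hS : ∀ X ∈ S, ∃ l, R X l ∧ l.length ≤ T)
    [∀ b, DecidablePred fun X : Fin B → Fin n → Bool => ∃ l, R X l ∧ cnt (oob pos b) l ≤ k' * n] :
    ∃ b, S.card ≤ 2 * (S.filter fun X => ∃ l, R X l ∧ cnt (oob pos b) l ≤ k' * n).card := by
  classical
  obtain ⟨G, hG⟩ : ∃ G : Fin B → Finset (Fin B → Fin n → Bool), G = fun b => S.filter fun X =>
      ∃ l, R X l ∧ cnt (oob pos b) l ≤ k' * n := ⟨_, rfl⟩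
  have hmany : ∀ X ∈ S, B ≤ 2 * (univ.filter fun b => X ∈ G b).card := by
    intro X hX
    obtain ⟨l, hl, hlT⟩ := hS X hX
    obtain ⟨Hv, hHv⟩ : ∃ Hv : Finset (Fin B), Hv = univ.filter fun b => ¬ cnt (oob pos b) l ≤ k' * n := ⟨_, rfl⟩
    have h4 : Hv.card * (k' * n + 1) ≤ T := by
      calc Hv.card * (k' * n + 1) = ∑ b ∈ Hv, (k' * n + 1) := by rw [Finset.sum_const, smul_eq_mul]
        _ ≤ ∑ b ∈ Hv, (l.filter fun v => decide (v ∈ Set.range (pos b))).length := by
            refine Finset.sum_le_sum fun b hb => ?_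
            rw [hHv] at hb
            have := (Finset.mem_filter.1 hb).2
            rw [cnt_oob hpos] at this
            omega
        _ ≤ ∑ b, (l.filter fun v => decide (v ∈ Set.range (pos b))).length :=
            Finset.sum_le_sum_of_subset (Finset.subset_univ _)
        _ ≤ l.length := sum_filter_length hpos l
        _ ≤ T := hlT
    have h5 : 2 * Hv.card ≤ B := by
      by_contra hcon
      push Not at hcon
      have h6 : (B + 1) * (k' * n + 1) ≤ 2 * Hv.card * (k' * n + 1) := Nat.mul_le_mul_right _ hcon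
      have h7 : 2 * Hv.card * (k' * n + 1) ≤ 2 * T := by
        calc 2 * Hv.card * (k' * n + 1) = 2 * (Hv.card * (k' * n + 1)) := by ring
          _ ≤ _ := Nat.mul_le_mul_left _ h4
      have h8 : (B + 1) * (k' * n + 1) = B * (k' * n) + k' * n + B + 1 := by ring
      omega
    have h6 : Hvᶜ ⊆ univ.filter fun b => X ∈ G b := by
      intro b hb
      rw [Finset.mem_compl, hHv, Finset.mem_filter, not_and, not_not] at hb
      refine Finset.mem_filter.2 ⟨Finset.mem_univ _, ?_⟩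
      rw [hG]
      exact Finset.mem_filter.2 ⟨hX, l, hl, hb (Finset.mem_univ _)⟩
    have h7 := Finset.card_le_card h6
    rw [Finset.card_compl, Fintype.card_fin] at h7
    omega
  obtain ⟨b0, hb0⟩ : ∃ b0, S.card ≤ 2 * (G b0).card := by
    by_contra hcon
    push Not at hcon
    have h1 : ∑ X ∈ S, (univ.filter fun b => X ∈ G b).card = ∑ b, (G b).card := by
      have e1 : ∀ b, (G b).card = ∑ X ∈ S, if X ∈ G b then 1 else 0 := by
        intro b
        rw [← Finset.card_filter]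
        congr 1
        ext X
        rw [Finset.mem_filter]
        constructor
        · intro h
          refine ⟨?_, h⟩
          rw [hG] at h
          exact (Finset.mem_filter.1 h).1
        · exact fun h => h.2
      rw [Finset.sum_congr rfl fun b _ => e1 b, Finset.sum_comm]
      refine Finset.sum_congr rfl fun X _ => ?_
      rw [Finset.card_filter]
    have h2 : S.card * B ≤ 2 * ∑ b, (G b).card := by
      rw [← h1, Finset.mul_sum]
      calc S.card * B = ∑ _X ∈ S, B := by rw [Finset.sum_const, smul_eq_mul]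
        _ ≤ _ := Finset.sum_le_sum fun X hX => hmany X hX
    have h3 : 2 * ∑ b, (G b).card < S.card * B := by
      have hne : (univ : Finset (Fin B)).Nonempty := ⟨⟨0, hB⟩, Finset.mem_univ _⟩
      rw [Finset.mul_sum]
      calc ∑ b, 2 * (G b).card < ∑ _b : Fin B, S.card :=
            Finset.sum_lt_sum_of_nonempty hne fun b _ => hcon b
        _ = S.card * B := by rw [Finset.sum_const, Finset.card_univ, Fintype.card_fin, smul_eq_mul, mul_comm]
    omega
  refine ⟨b0, hb0.trans (Nat.mul_le_mul_left _ (Finset.card_le_card ?_))⟩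
  intro X hX
  rw [hG] at hX
  exact Finset.mem_filter.2 (Finset.mem_filter.1 hX)

/-- **Few words are accepted with few tests.** -/
theorem lowx {T D k' L : ℕ} (hB : 1 ≤ B) (hpos : ∀ b b' i i', pos b i = pos b' i' → b = b' ∧ i = i')
    (z0 : Fin N → Bool) {V Γ : Type} [Fintype V] (P : SBP V Γ (Fin N)) (G : (Fin B → Fin n → Bool) → Prop)
    (hG : ∀ b X, RectFree {x | G (Function.update X b x)} L) (hL : (L : ℝ) ≤ Real.exp ((n : ℝ) / D))
    (hcore : SbpB k' D n) (hacc : ∀ X l, P.AccWalk (wd pos z0 X) l → G X) (hT : 2 * T ≤ B * (k' * n))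
    (S : Finset (Fin B → Fin n → Bool)) (hS : ∀ X ∈ S, ∃ l, P.AccWalk (wd pos z0 X) l ∧ l.length ≤ T) :
    (S.card : ℝ) * 2 ^ n ≤ 2 * (((Fintype.card V : ℝ) + n) ^ (2 * D) * (2 ^ n * Real.exp (-((n : ℝ) / D)))) *
      2 ^ (n * B) := by
  classical
  obtain ⟨M, hM⟩ : ∃ M : ℝ, M = ((Fintype.card V : ℝ) + n) ^ (2 * D) * (2 ^ n * Real.exp (-((n : ℝ) / D))) :=
    ⟨_, rfl⟩
  have hM0 : 0 ≤ M := by rw [hM]; positivity
  rw [← hM]
  obtain ⟨b0, hb0⟩ := popular (k' := k') hB hpos S (fun X l => P.AccWalk (wd pos z0 X) l) hT hS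
  obtain ⟨G0, hG0⟩ : ∃ G0, G0 = S.filter fun X => ∃ l, P.AccWalk (wd pos z0 X) l ∧ cnt (oob pos b0) l ≤ k' * n :=
    ⟨_, rfl⟩
  rw [← hG0] at hb0
  have hcardr : Fintype.card {b : Fin B // b ≠ b0} = B - 1 := by
    rw [Fintype.card_subtype_compl, Fintype.card_fin, Fintype.card_subtype_eq]
  have hRc : (Fintype.card ({b : Fin B // b ≠ b0} → Fin n → Bool) : ℝ) * 2 ^ n = 2 ^ (n * B) := by
    rw [Fintype.card_fun, Fintype.card_fun, Fintype.card_bool, Fintype.card_fin, hcardr]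
    push_cast
    obtain ⟨B', rfl⟩ : ∃ B', B = B' + 1 := ⟨B - 1, by omega⟩
    rw [Nat.add_sub_cancel, ← pow_mul, ← pow_add]
    congr 1
  have hfib : ∀ r : {b : Fin B // b ≠ b0} → Fin n → Bool,
      ((G0.filter fun X => (fun b : {b : Fin B // b ≠ b0} => X b) = r).card : ℝ) ≤ M := by
    intro r
    obtain ⟨Fb, hFb⟩ : ∃ Fb, Fb = G0.filter fun X => (fun b : {b : Fin B // b ≠ b0} => X b) = r := ⟨_, rfl⟩
    rw [← hFb]
    rcases Fb.eq_empty_or_nonempty with he | ⟨X0, hX0⟩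
    · rw [he, Finset.card_empty, Nat.cast_zero]
      exact hM0
    have hmem : ∀ X ∈ Fb, X ∈ G0 ∧ ∀ b, b ≠ b0 → X b = X0 b := by
      intro X hX
      rw [hFb, Finset.mem_filter] at hX hX0
      exact ⟨hX.1, fun b hb => congrFun (hX.2.trans hX0.2.symm) ⟨b, hb⟩⟩
    have hupd : ∀ X ∈ Fb, Function.update X0 b0 (X b0) = X := by
      intro X hX
      funext b
      by_cases hb : b = b0
      · subst hb; simp
      · rw [Function.update_of_ne hb, (hmem X hX).2 b hb]
    have hW : (Fb.image fun X => X b0).card = Fb.card := by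
      rw [Finset.card_image_of_injOn]
      intro X hX X' hX' he
      rw [← hupd X hX, ← hupd X' hX']
      simp only at he
      rw [he]
    rw [← hW, hM]
    refine hcore V Γ (sres P (oob pos b0) (wd pos z0 X0)) {x | G (Function.update X0 b0 x)} L ?_ (hG _ _) hL _ ?_
    · intro x l hl
      obtain ⟨l', hl'⟩ := walk_of_sres hl
      rw [paste_wd hpos] at hl'
      exact hacc _ l' hl'
    · intro x hx
      obtain ⟨X, hX, rfl⟩ := Finset.mem_image.1 hx
      have h1 := (hmem X hX).1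
      rw [hG0] at h1
      obtain ⟨l, hl, hlc⟩ := (Finset.mem_filter.1 h1).2
      rw [← hupd X hX, ← paste_wd hpos] at hl
      obtain ⟨l', hl', hlen⟩ := sres_of_walk hl
      exact ⟨l', hl', hlen.le.trans hlc⟩
  have hsum : (G0.card : ℝ) ≤ Fintype.card ({b : Fin B // b ≠ b0} → Fin n → Bool) * M := by
    rw [Finset.card_eq_sum_card_fiberwise (s := G0) (t := univ)
      (f := fun X => fun b : {b : Fin B // b ≠ b0} => X b) (fun X _ => Finset.mem_coe.2 (Finset.mem_univ _))]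
    push_cast
    calc _ ≤ ∑ _r : {b : Fin B // b ≠ b0} → Fin n → Bool, M := Finset.sum_le_sum fun r _ => hfib r
      _ = _ := by rw [Finset.sum_const, nsmul_eq_mul, Finset.card_univ]
  have h1 : (S.card : ℝ) ≤ 2 * G0.card := by exact_mod_cast hb0
  rw [← hRc]
  have h2n : (0 : ℝ) < 2 ^ n := by positivity
  calc (S.card : ℝ) * 2 ^ n ≤ 2 * (Fintype.card ({b : Fin B // b ≠ b0} → Fin n → Bool) * M) * 2 ^ n :=
        mul_le_mul_of_nonneg_right (by linarith) h2n.le
    _ = _ := by ring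

end

/-- words with `B` blocks of `n` letters such that all slices of the language contain no large rectangles -/
def EmbX (Lg : List Bool → Prop) {N n B : ℕ} (pos : Fin B → Fin n → Fin N) (D : ℕ) : Prop :=
  ∃ (z0 : Fin N → Bool) (L : ℕ) (S : Finset (Fin B → Fin n → Bool)), (L : ℝ) ≤ Real.exp ((n : ℝ) / D) ∧
    (2 : ℝ) ^ (n * B) ≤ Real.exp ((n : ℝ) / (4 * D)) * S.card ∧ (∀ X ∈ S, Lg (List.ofFn (wd pos z0 X))) ∧
    ∀ b X, RectFree {x | Lg (List.ofFn (wd pos z0 (Function.update X b x)))} L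

/-- **One time bound.** -/
theorem nd_onex {Lg : List Bool → Prop} {N n B D k' T : ℕ} {pos : Fin B → Fin n → Fin N} (hB : 1 ≤ B) (hD : 1 ≤ D)
    (hpos : ∀ b b' i i', pos b i = pos b' i' → b = b' ∧ i = i') (hE : EmbX Lg pos D) (hcore : SbpB k' D n)
    (hn : 128 * D ^ 4 ≤ n) {V Γ : Type} [Fintype V] (P : SBP V Γ (Fin N))
    (hV : (Fintype.card V : ℝ) ≤ (2 : ℝ) ^ ((n : ℝ) / (8 * D ^ 2 : ℕ))) (hP : ∀ y l, P.AccWalk y l → Lg (List.ofFn y))
    (hT : 2 * T ≤ B * (k' * n)) (hPT : ∀ y, Lg (List.ofFn y) → ∃ l, P.AccWalk y l ∧ l.length ≤ T) : False := by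
  classical
  obtain ⟨z0, L, S, hL, hSc, hSL, hR⟩ := hE
  have h1 := lowx hB hpos z0 P (fun X => Lg (List.ofFn (wd pos z0 X))) hR hL hcore (fun X l hl => hP _ l hl) hT S
    (fun X hX => hPT _ (hSL X hX))
  have hSpos : (0 : ℝ) < S.card := by
    have h2 : (0 : ℝ) < 2 ^ (n * B) := by positivity
    have h3 := Real.exp_pos ((n : ℝ) / (4 * D))
    by_contra hcon
    push Not at hcon
    nlinarith
  -- numbers
  have hDr : (1 : ℝ) ≤ D := by exact_mod_cast hD
  have hD0 : (0 : ℝ) < D := by linarith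
  have hnr : 128 * (D : ℝ) ^ 4 ≤ n := by exact_mod_cast hn
  obtain ⟨ε, hε⟩ : ∃ ε : ℝ, ε = 1 / (8 * (D : ℝ) ^ 2) := ⟨_, rfl⟩
  have hε0 : 0 < ε := by rw [hε]; positivity
  have hV' : (Fintype.card V : ℝ) ≤ (2 : ℝ) ^ (ε * n) := by
    refine hV.trans (le_of_eq ?_)
    congr 1
    rw [hε]
    push_cast
    ring
  have h3 := size_bound (N := n) (n := n) hε0 le_rfl (by
    have e1 : 2 / ε ^ 2 = 128 * (D : ℝ) ^ 4 := by
      rw [hε]
      field_simp
      ring
    rw [e1]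
    exact hnr) hV'
  have h4 : ((Fintype.card V : ℝ) + n) ^ (2 * D) ≤ Real.exp ((n : ℝ) / (2 * D)) := by
    calc ((Fintype.card V : ℝ) + n) ^ (2 * D) ≤ Real.exp (2 * (ε * n)) ^ (2 * D) :=
          pow_le_pow_left₀ (by positivity) h3 _
      _ = Real.exp ((n : ℝ) / (2 * D)) := by
          rw [← Real.exp_nat_mul]
          congr 1
          rw [hε]
          push_cast
          field_simp
          ring
  have h6 : Real.exp ((n : ℝ) / (4 * D)) * (Real.exp ((n : ℝ) / (2 * D)) * Real.exp (-((n : ℝ) / D))) =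
      Real.exp (-((n : ℝ) / (4 * D))) := by
    rw [← Real.exp_add, ← Real.exp_add]
    congr 1
    field_simp
    ring
  have h7 : Real.exp (-((n : ℝ) / (4 * D))) ≤ 1 / 16 := by
    have h8 : (8 : ℝ) ≤ (n : ℝ) / (4 * D) := by
      rw [le_div_iff₀ (by positivity)]
      have h9 : (D : ℝ) ≤ D ^ 4 := le_self_pow₀ hDr (by norm_num)
      linarith
    rw [Real.exp_neg, one_div]
    apply inv_anti₀ (by norm_num)
    have h9 := Real.quadratic_le_exp_of_nonneg (show (0 : ℝ) ≤ (n : ℝ) / (4 * D) by positivity)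
    nlinarith
  have h2n : (0 : ℝ) < 2 ^ n := by positivity
  have h8 : (S.card : ℝ) * 2 ^ n ≤ 2 * (Real.exp ((n : ℝ) / (2 * D)) * (2 ^ n * Real.exp (-((n : ℝ) / D)))) *
      (Real.exp ((n : ℝ) / (4 * D)) * S.card) := by
    refine h1.trans ?_
    have e0 : (0 : ℝ) ≤ 2 ^ n * Real.exp (-((n : ℝ) / D)) := by positivity
    have e1 : ((Fintype.card V : ℝ) + n) ^ (2 * D) * (2 ^ n * Real.exp (-((n : ℝ) / D))) ≤
        Real.exp ((n : ℝ) / (2 * D)) * (2 ^ n * Real.exp (-((n : ℝ) / D))) := mul_le_mul_of_nonneg_right h4 e0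
    exact mul_le_mul (by linarith) hSc (by positivity) (by positivity)
  have h9 : 2 * (Real.exp ((n : ℝ) / (2 * D)) * (2 ^ n * Real.exp (-((n : ℝ) / D)))) *
      (Real.exp ((n : ℝ) / (4 * D)) * S.card) = (S.card * 2 ^ n) * (2 * Real.exp (-((n : ℝ) / (4 * D)))) := by
    rw [← h6]
    ring
  rw [h9] at h8
  have h10 : (0 : ℝ) < S.card * 2 ^ n := mul_pos hSpos h2n
  nlinarith

/-- **The time bound for nondeterministic programs with a stack.** -/
theorem time_ndx {K : ℕ} (hK : 1 ≤ K) : ∃ δ x0 : ℝ, 0 < δ ∧ 1 ≤ x0 ∧ ∀ (N n B S : ℕ), 1 ≤ S → x0 * S ≤ n →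
    N ≤ K * (B * n) → ∀ (pos : Fin B → Fin n → Fin N), (∀ b b' i i', pos b i = pos b' i' → b = b' ∧ i = i') →
    ∀ (Lg : List Bool → Prop), (∀ D, 16 ≤ D → D ^ 16 ≤ n → EmbX Lg pos D) →
    ∀ (V Γ : Type) [Fintype V] (P : SBP V Γ (Fin N)), Fintype.card V ≤ 2 ^ S →
      (∀ y l, P.AccWalk y l → Lg (List.ofFn y)) →
      ∀ T : ℕ, (∀ y, Lg (List.ofFn y) → ∃ l, P.AccWalk y l ∧ l.length ≤ T) →
        N * Real.log (n / S) ^ δ ≤ T := by
  obtain ⟨c0, hc0⟩ := sbp_quant
  obtain ⟨δ, x0, hδ, hx0, hch⟩ := choose_kd ((2 * K + 1) * (c0 + 1) + 5)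
  refine ⟨δ, x0, hδ, hx0, ?_⟩
  intro N n B S hS hxn hN pos hpos Lg hE V Γ _ P hV hP T hT
  by_contra hcon
  push Not at hcon
  obtain ⟨k, hk2, hkn, hkS, hTk⟩ := hch n S hS hxn N T hcon
  have hNpos : 0 < N := by
    rcases Nat.eq_zero_or_pos N with h0 | h0
    · rw [h0] at hcon
      have : (0 : ℝ) ≤ T := Nat.cast_nonneg _
      simp at hcon
      linarith
    · exact h0
  have hB : 1 ≤ B := by
    rcases Nat.eq_zero_or_pos B with h0 | h0
    · rw [h0] at hN
      simp at hN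
      omega
    · exact h0
  obtain ⟨D, hD⟩ : ∃ D, D = 2 ^ ((2 * K * k) ^ (c0 + 1)) := ⟨_, rfl⟩
  have hk4 : 4 ≤ 2 * K * k := by
    calc 4 = 2 * 1 * 2 := by norm_num
      _ ≤ _ := Nat.mul_le_mul (Nat.mul_le_mul_left _ hK) hk2
  have hD16 : 16 ≤ D := by
    rw [hD]
    calc 16 = 2 ^ (4 ^ 1) := by norm_num
      _ ≤ 2 ^ ((2 * K * k) ^ (c0 + 1)) := by
        apply Nat.pow_le_pow_right (by norm_num)
        calc 4 ^ 1 ≤ (2 * K * k) ^ 1 := Nat.pow_le_pow_left hk4 _
          _ ≤ _ := Nat.pow_le_pow_right (by omega) (by omega)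
  have hDX : D ^ 16 ≤ 2 ^ (k ^ ((2 * K + 1) * (c0 + 1) + 5)) := by rw [hD]; exact grow hk2
  have hDn : D ^ 16 ≤ n := hDX.trans hkn
  have hD1 : 2 ^ ((2 * K * k) ^ c0) ≤ D := by
    rw [hD]
    exact Nat.pow_le_pow_right (by norm_num) (Nat.pow_le_pow_right (by omega) (by omega))
  have hDle : D ≤ n := le_trans (Nat.le_self_pow (by norm_num) D) hDn
  have h128 : 128 * D ^ 4 ≤ D ^ 16 := by
    calc 128 * D ^ 4 ≤ 16 ^ 2 * D ^ 4 := Nat.mul_le_mul_right _ (by norm_num)
      _ ≤ D ^ 2 * D ^ 4 := Nat.mul_le_mul_right _ (Nat.pow_le_pow_left hD16 _)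
      _ = D ^ 6 := by rw [← pow_add]
      _ ≤ _ := Nat.pow_le_pow_right (by omega) (by norm_num)
  refine nd_onex (k' := 2 * K * k) (T := T) hB (by omega) hpos (hE D hD16 hDn)
    (hc0 _ (by omega) D n hD1 (hD1.trans hDle)) (h128.trans hDn) P ?_ hP ?_ hT
  · -- the size
    have h1 : (Fintype.card V : ℝ) ≤ (2 : ℝ) ^ (S : ℝ) := by
      rw [Real.rpow_natCast]; exact_mod_cast hV
    refine h1.trans (Real.rpow_le_rpow_of_exponent_le (by norm_num) ?_)
    have h8 : 8 * D ^ 2 ≤ D ^ 16 := by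
      calc 8 * D ^ 2 ≤ D * D ^ 2 := Nat.mul_le_mul_right _ (by omega)
        _ = D ^ 3 := by ring
        _ ≤ _ := Nat.pow_le_pow_right (by omega) (by norm_num)
    have h9 : ((8 * D ^ 2 : ℕ) : ℝ) ≤ 2 ^ (k ^ ((2 * K + 1) * (c0 + 1) + 5)) := by
      exact_mod_cast h8.trans hDX
    have hSr : (0 : ℝ) ≤ S := Nat.cast_nonneg _
    have h10 : (0 : ℝ) < ((8 * D ^ 2 : ℕ) : ℝ) := by
      have : 0 < 8 * D ^ 2 := by positivity
      exact_mod_cast this
    rw [le_div_iff₀ h10, mul_comm]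
    exact (mul_le_mul_of_nonneg_right h9 hSr).trans hkS
  · -- the tests
    calc 2 * T ≤ 2 * (k * N) := Nat.mul_le_mul_left _ hTk
      _ ≤ 2 * (k * (K * (B * n))) := Nat.mul_le_mul_left _ (Nat.mul_le_mul_left _ hN)
      _ = B * (2 * K * k * n) := by ring

end Pool.Agent.KH
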