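import Pool.Agent.KH.AvgX
import Pool.Agent.KH.LowX

/-! Sums of blocks: translations of balanced functions and of sets without large rectangles. -/

namespace Pool.Agent.KH

open Finset Pool.Agent.SemRO Pool.Agent.KNL Pool.Agent.KD Pool.Agent.KE

/-- the sum, letter by letter, of two words -/
def xr {n : ℕ} (x c : Fin n → Bool) : Fin n → Bool := fun i => xor (x i) (c i)

lemma xr_xr {n : ℕ} (x c : Fin n → Bool) : xr (xr x c) c = x := by
  funext i
  unfold xr
  cases x i <;> cases c i <;> rfl

lemma mix_xr {n : ℕ} (A : Finset (Fin n)) (u v c : Fin n → Bool) :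
    mix A (xr u c) (xr v c) = xr (mix A u v) c := by
  funext i
  by_cases h : i ∈ A
  · simp [mix, xr, h]
  · simp [mix, xr, h]

/-- translation of a balanced function -/
theorem bal_xr {n e : ℕ} {f : (Fin n → Bool) → Bool} (h : Bal f e) (c : Fin n → Bool) :
    Bal (fun x => f (xr x c)) e := by
  intro T hT y y' hy
  have h1 := h T hT (xr y c) (xr y' c) (by
    obtain ⟨i, hi, hne⟩ := hy
    refine ⟨i, hi, ?_⟩
    unfold xr
    intro heq
    apply hne
    cases h1 : y i <;> cases h2 : y' i <;> cases h3 : c i <;> simp_all)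
  have e1 : ∑ x ∈ cube T y, sg (f (xr x c)) * sg (f (xr (mix T x y') c)) =
      ∑ x ∈ cube T (xr y c), sg (f x) * sg (f (mix T x (xr y' c))) := by
    refine Finset.sum_bij' (fun x _ => xr x c) (fun x _ => xr x c) ?_ ?_ ?_ ?_ ?_
    · intro x hx
      rw [mem_cube] at hx ⊢
      intro i hi
      unfold xr
      rw [hx i hi]
    · intro x hx
      rw [mem_cube] at hx ⊢
      intro i hi
      have := hx i hi
      unfold xr at this ⊢
      rw [this]
      cases y i <;> cases c i <;> rfl
    · intro x _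
      exact xr_xr x c
    · intro x _
      exact xr_xr x c
    · intro x _
      rw [mix_xr]
  rw [e1]
  exact h1

lemma sg_not (b : Bool) : sg (!b) = -sg b := by cases b <;> rfl

/-- complement of a balanced function -/
theorem bal_not {n e : ℕ} {f : (Fin n → Bool) → Bool} (h : Bal f e) : Bal (fun x => !f x) e := by
  intro T hT y y' hy
  have h1 := h T hT y y' hy
  have e1 : ∑ x ∈ cube T y, sg (!f x) * sg (!f (mix T x y')) = ∑ x ∈ cube T y, sg (f x) * sg (f (mix T x y')) := by
    refine Finset.sum_congr rfl fun x _ => ?_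
    rw [sg_not, sg_not]
    ring
  rw [e1]
  exact h1

/-- translation of a set without large rectangles -/
theorem rectFree_xr {n L : ℕ} {F : Set (Fin n → Bool)} (h : RectFree F L) (c : Fin n → Bool) :
    RectFree {x | xr x c ∈ F} L := by
  have key : ∀ a b d : Bool, a ≠ b → xor a d ≠ xor b d := by decide
  intro A u v hu hv
  obtain ⟨i, j, hij⟩ := h A (fun i => xr (u i) c) (fun j => xr (v j) c) (fun i j hne => by
    obtain ⟨x, hx, hxy⟩ := hu i j hne
    exact ⟨x, hx, key _ _ _ hxy⟩) (fun i j hne => by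
    obtain ⟨x, hx, hxy⟩ := hv i j hne
    exact ⟨x, hx, key _ _ _ hxy⟩)
  refine ⟨i, j, ?_⟩
  rw [mix_xr] at hij
  exact hij

/-- the sum of the blocks -/
def xs {B n : ℕ} (X : Fin B → Fin n → Bool) (l : Fin n) : Bool := decide (∑ b, zb (X b l) = 1)

lemma zb_xs {B n : ℕ} (X : Fin B → Fin n → Bool) (l : Fin n) : zb (xs X l) = ∑ b, zb (X b l) := by
  unfold xs
  rcases zmod2 (∑ b, zb (X b l)) with h | h
  · rw [h]; decide
  · rw [h]; decide

lemma zb_inj {a b : Bool} (h : zb a = zb b) : a = b := by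
  cases a <;> cases b
  · rfl
  · exact absurd h (by decide)
  · exact absurd h (by decide)
  · rfl

/-- all blocks but one are fixed -/
theorem xs_update {B n : ℕ} (X : Fin B → Fin n → Bool) (b : Fin B) (x : Fin n → Bool) :
    xs (Function.update X b x) = xr x (xs (Function.update X b fun _ => false)) := by
  funext l
  apply zb_inj
  unfold xr
  rw [zb_xs, zb_xor, zb_xs]
  rw [← Finset.add_sum_erase _ _ (Finset.mem_univ b), ← Finset.add_sum_erase _ (fun b' =>
    zb (Function.update X b (fun _ => false) b' l)) (Finset.mem_univ b)]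
  simp only [Function.update_self]
  have e1 : ∑ x_1 ∈ univ.erase b, zb (Function.update X b x x_1 l) =
      ∑ b' ∈ univ.erase b, zb (Function.update X b (fun _ => false) b' l) := by
    refine Finset.sum_congr rfl fun b' hb' => ?_
    rw [Function.update_of_ne (Finset.ne_of_mem_erase hb'), Function.update_of_ne (Finset.ne_of_mem_erase hb')]
  rw [e1]
  simp [zb]

/-- quadratic maps of the sum of the blocks -/
theorem emb_hashx {Lg : List Bool → Prop} {N n B : ℕ} {pos : Fin B → Fin n → Fin N}
    (h : ∀ r ≤ n, ∀ (M : Fin r → Fin n × Fin n → Bool) (t : Fin r → Bool), ∃ z0 : Fin N → Bool, ∀ X,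
      Lg (List.ofFn (wd pos z0 X)) ↔ hq M (xs X) = t) {D : ℕ} (hD : 16 ≤ D) (hn : D ^ 16 ≤ n) :
    EmbX Lg pos D := by
  classical
  obtain ⟨r, hr⟩ : ∃ r, r = n / (8 * D) := ⟨_, rfl⟩
  have hD2 : 16 * D ≤ n := by
    calc 16 * D ≤ D * D := Nat.mul_le_mul_right _ hD
      _ = D ^ 2 := by ring
      _ ≤ D ^ 16 := Nat.pow_le_pow_right (by omega) (by norm_num)
      _ ≤ n := hn
  have hr1 : 8 * D * r ≤ n := by rw [hr]; exact Nat.mul_div_le _ _
  have hr2 : n ≤ 16 * D * r := by
    have h1 : n < 8 * D * (r + 1) := by rw [hr]; exact Nat.lt_mul_div_succ _ (by omega)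
    have e1 : 8 * D * (r + 1) = 8 * D * r + 8 * D := by ring
    have e2 : 16 * D * r = 2 * (8 * D * r) := by ring
    omega
  have hrn : r ≤ n := by rw [hr]; exact Nat.div_le_self _ _
  have hk : n + 4 * (n * (80 * D)) + r + 1 ≤ 80 * D * (80 * D) * r := by
    have h1 : 80 * D * (80 * D) * r = 400 * D * (16 * D * r) := by ring
    rw [h1]
    have h2 : 400 * D * n ≤ 400 * D * (16 * D * r) := Nat.mul_le_mul_left _ hr2
    have h3 : 400 * D * n = 5 * (n * (80 * D)) := by ring
    have h4 : n * 3 ≤ n * (80 * D) := Nat.mul_le_mul_left _ (by omega)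
    omega
  obtain ⟨M, hM⟩ := exists_hashq hk
  have hDr : (16 : ℝ) ≤ D := by exact_mod_cast hD
  -- a popular value
  obtain ⟨t, -, ht⟩ := Finset.exists_le_card_fiber_of_nsmul_le_card_of_maps_to
    (s := (univ : Finset (Fin B → Fin n → Bool))) (t := (univ : Finset (Fin r → Bool)))
    (f := fun X => hq M (xs X)) (b := (2 : ℝ) ^ (n * B) / 2 ^ r) (fun _ _ => Finset.mem_univ _)
    Finset.univ_nonempty (by
      rw [Finset.card_univ, Finset.card_univ, Fintype.card_fun, Fintype.card_fun, Fintype.card_fun,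
        Fintype.card_bool, Fintype.card_fin, Fintype.card_fin, Fintype.card_fin, nsmul_eq_mul]
      push_cast
      rw [← pow_mul, mul_div_cancel₀ _ (by positivity)])
  obtain ⟨z0, hz0⟩ := h r hrn M t
  refine ⟨z0, (n + 1) ^ (80 * D) + 1, univ.filter fun X => hq M (xs X) = t, exp_big hD hn ?_, ?_, ?_, ?_⟩
  · have h1 := sqrt_big hn
    have h2 : 8 * D ≤ D ^ 8 := by
      calc 8 * D ≤ D * D := Nat.mul_le_mul_right _ (by omega)
        _ = D ^ 2 := by ring
        _ ≤ D ^ 8 := Nat.pow_le_pow_right (by omega) (by norm_num)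
    omega
  · rw [div_le_iff₀ (by positivity)] at ht
    refine ht.trans ?_
    rw [mul_comm]
    refine mul_le_mul_of_nonneg_right ?_ (Nat.cast_nonneg _)
    have h1 : (2 : ℝ) ≤ Real.exp 1 := by
      have := Real.add_one_le_exp (1 : ℝ)
      linarith
    calc (2 : ℝ) ^ r ≤ Real.exp 1 ^ r := pow_le_pow_left₀ (by norm_num) h1 _
      _ = Real.exp r := by rw [← Real.exp_nat_mul, mul_one]
      _ ≤ _ := by
        apply Real.exp_le_exp.mpr
        rw [le_div_iff₀ (by linarith)]
        have h2 : (8 : ℝ) * D * r ≤ n := by exact_mod_cast hr1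
        have h3 : (0 : ℝ) ≤ r := Nat.cast_nonneg _
        nlinarith
  · intro X hX
    exact (hz0 X).2 (Finset.mem_filter.1 hX).2
  · intro b X
    have e1 : {x | Lg (List.ofFn (wd pos z0 (Function.update X b x)))} =
        {x | xr x (xs (Function.update X b fun _ => false)) ∈ {x | hq M x = t}} := by
      ext x
      rw [Set.mem_ofPred_eq, hz0, xs_update]
      rfl
    rw [e1]
    exact rectFree_xr (hM t) _

end Pool.Agent.KH
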