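import Pool.Agent.KE.Final
import Pool.Agent.SemRO.Core

/-! Averaging over the blocks: randomised programs for the conjunction of a balanced function over many
blocks make many tests. -/

namespace Pool.Agent.KH

open Finset Pool.Agent.SemRO Pool.Agent.KNL Pool.Agent.KD Pool.Agent.KE

/-- the word with the blocks `X` -/
noncomputable def wd {B n N : ℕ} (pos : Fin B → Fin n → Fin N) (z0 : Fin N → Bool) (X : Fin B → Fin n → Bool) :
    Fin N → Bool :=
  Function.extend (fun q : Fin B × Fin n => pos q.1 q.2) (fun q => X q.1 q.2) z0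

section
variable {B n N : ℕ} {pos : Fin B → Fin n → Fin N}

lemma wd_pos (hpos : ∀ b b' i i', pos b i = pos b' i' → b = b' ∧ i = i') (z0 : Fin N → Bool)
    (X : Fin B → Fin n → Bool) (b : Fin B) (i : Fin n) : wd pos z0 X (pos b i) = X b i := by
  unfold wd
  have hinj : Function.Injective (fun q : Fin B × Fin n => pos q.1 q.2) := by
    intro q q' h
    obtain ⟨h1, h2⟩ := hpos _ _ _ _ h
    exact Prod.ext h1 h2
  exact hinj.extend_apply (fun q => X q.1 q.2) z0 (b, i)

lemma wd_off (z0 : Fin N → Bool) (X : Fin B → Fin n → Bool) {p : Fin N} (hp : ∀ b i, pos b i ≠ p) :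
    wd pos z0 X p = z0 p := by
  unfold wd
  exact Function.extend_apply' _ _ _ fun ⟨q, hq⟩ => hp q.1 q.2 hq

lemma extend_wd (hpos : ∀ b b' i i', pos b i = pos b' i' → b = b' ∧ i = i') (z0 : Fin N → Bool)
    (X : Fin B → Fin n → Bool) (b : Fin B) (x : Fin n → Bool) :
    Function.extend (pos b) x (wd pos z0 X) = wd pos z0 (Function.update X b x) := by
  have hinj : Function.Injective (pos b) := fun i i' h => (hpos _ _ _ _ h).2
  funext p
  by_cases hp : ∃ b' i, pos b' i = p
  · obtain ⟨b', i, rfl⟩ := hp
    rw [wd_pos hpos]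
    by_cases hb : b' = b
    · subst hb
      rw [hinj.extend_apply, Function.update_self]
    · rw [Function.update_of_ne hb, Function.extend_apply', wd_pos hpos]
      rintro ⟨i', hi'⟩
      exact hb (hpos _ _ _ _ hi').1.symm
  · push Not at hp
    rw [wd_off z0 _ hp, Function.extend_apply' _ _ _ fun ⟨i, hi⟩ => hp b i hi, wd_off z0 _ hp]

/-- exchange of one block -/
def updEquiv (b : Fin B) :
    (Fin B → Fin n → Bool) × (Fin n → Bool) ≃ (Fin B → Fin n → Bool) × (Fin n → Bool) where
  toFun w := (Function.update w.1 b w.2, w.1 b)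
  invFun w := (Function.update w.1 b w.2, w.1 b)
  left_inv := by
    rintro ⟨X, x⟩
    simp
  right_inv := by
    rintro ⟨X, x⟩
    simp

theorem sum_upd (b : Fin B) (φ : (Fin B → Fin n → Bool) → ℝ) :
    ∑ X : Fin B → Fin n → Bool, ∑ x : Fin n → Bool, φ (Function.update X b x) = 2 ^ n * ∑ X, φ X := by
  rw [← Fintype.sum_prod_type']
  rw [← (updEquiv b).symm.sum_comp]
  have h : ∀ w : (Fin B → Fin n → Bool) × (Fin n → Bool),
      φ (Function.update ((updEquiv b).symm w).1 b ((updEquiv b).symm w).2) = φ w.1 := by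
    intro w
    have := congrArg Prod.fst ((updEquiv b).apply_symm_apply w)
    exact congrArg φ this
  rw [Finset.sum_congr rfl fun w _ => h w, Fintype.sum_prod_type]
  simp only [Finset.sum_const, Finset.card_univ, Fintype.card_fun, Fintype.card_bool, Fintype.card_fin,
    nsmul_eq_mul]
  rw [← Finset.mul_sum]
  push_cast
  ring

open Classical in
/-- all blocks but `b` are zeros of `g` -/
noncomputable def rst (g : (Fin n → Bool) → Bool) (b : Fin B) (X : Fin B → Fin n → Bool) : ℝ :=
  if ∀ b', b' ≠ b → g (X b') = false then 1 else 0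

lemma rst_nonneg (g : (Fin n → Bool) → Bool) (b : Fin B) (X : Fin B → Fin n → Bool) : 0 ≤ rst g b X := by
  unfold rst
  split_ifs <;> norm_num

lemma rst_upd (g : (Fin n → Bool) → Bool) (b : Fin B) (X : Fin B → Fin n → Bool) (x : Fin n → Bool) :
    rst g b (Function.update X b x) = rst g b X := by
  unfold rst
  have h : (∀ b', b' ≠ b → g (Function.update X b x b') = false) ↔ ∀ b', b' ≠ b → g (X b') = false := by
    constructor
    · intro h b' hb'
      have := h b' hb'
      rwa [Function.update_of_ne hb'] at this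
    · intro h b' hb'
      rw [Function.update_of_ne hb']
      exact h b' hb'
  simp only [h]

/-- one block has a small bias -/
theorem bias {δ : ℝ} (g : (Fin n → Bool) → Bool) (b : Fin B) (ψ : (Fin B → Fin n → Bool) → ℝ)
    (h : ∀ X, |∑ x : Fin n → Bool, (sg (g x) : ℝ) * ψ (Function.update X b x)| ≤ δ * 2 ^ n) :
    |∑ X, rst g b X * ((sg (g (X b)) : ℝ) * ψ X)| ≤ δ * ∑ X, rst g b X := by
  have h2 : (0 : ℝ) < 2 ^ n := by positivity
  have e1 : (2 : ℝ) ^ n * ∑ X, rst g b X * ((sg (g (X b)) : ℝ) * ψ X) =
      ∑ X, rst g b X * ∑ x : Fin n → Bool, (sg (g x) : ℝ) * ψ (Function.update X b x) := by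
    rw [← sum_upd b]
    refine Finset.sum_congr rfl fun X _ => ?_
    rw [Finset.mul_sum]
    refine Finset.sum_congr rfl fun x _ => ?_
    rw [rst_upd, Function.update_self]
  have h3 : |(2 : ℝ) ^ n * ∑ X, rst g b X * ((sg (g (X b)) : ℝ) * ψ X)| ≤ 2 ^ n * (δ * ∑ X, rst g b X) := by
    rw [e1]
    refine (Finset.abs_sum_le_sum_abs _ _).trans ?_
    rw [Finset.mul_sum, Finset.mul_sum]
    refine Finset.sum_le_sum fun X _ => ?_
    rw [abs_mul, abs_of_nonneg (rst_nonneg g b X)]
    have := mul_le_mul_of_nonneg_left (h X) (rst_nonneg g b X)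
    linarith
  rw [abs_mul, abs_of_pos h2] at h3
  exact le_of_mul_le_mul_left h3 h2

end

/-- the tests in pairwise disjoint blocks -/
lemma sum_filter_length {B n N : ℕ} {pos : Fin B → Fin n → Fin N}
    (hpos : ∀ b b' i i', pos b i = pos b' i' → b = b' ∧ i = i') [∀ b, DecidablePred fun v => v ∈ Set.range (pos b)]
    (l : List (Fin N)) : ∑ b, (l.filter fun v => decide (v ∈ Set.range (pos b))).length ≤ l.length := by
  classical
  induction l with
  | nil => simp
  | cons v l ih =>
    have h1 : ∀ b, ((v :: l).filter fun v => decide (v ∈ Set.range (pos b))).length =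
        (if v ∈ Set.range (pos b) then 1 else 0) + (l.filter fun v => decide (v ∈ Set.range (pos b))).length := by
      intro b
      by_cases h : v ∈ Set.range (pos b)
      · rw [List.filter_cons_of_pos (by simpa using h), if_pos h, List.length_cons]
        omega
      · rw [List.filter_cons_of_neg (by simpa using h), if_neg h]
        omega
    rw [Finset.sum_congr rfl fun b _ => h1 b, Finset.sum_add_distrib, List.length_cons]
    have h2 : ∑ b, (if v ∈ Set.range (pos b) then 1 else 0) ≤ 1 := by
      rw [← Finset.card_filter, Finset.card_le_one]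
      intro b hb b' hb'
      obtain ⟨i, hi⟩ := (Finset.mem_filter.1 hb).2
      obtain ⟨i', hi'⟩ := (Finset.mem_filter.1 hb').2
      exact (hpos _ _ _ _ (hi.trans hi'.symm)).1
    omega

open Classical in
/-- **Averaging over the blocks.** -/
theorem avg {B n N T k' : ℕ} {δ η : ℝ} (hB : 1 ≤ B) (hδ0 : 0 ≤ δ) (g : (Fin n → Bool) → Bool)
    (hg : |∑ x, (sg (g x) : ℝ)| ≤ δ * 2 ^ n) {pos : Fin B → Fin n → Fin N}
    (hpos : ∀ b b' i i', pos b i = pos b' i' → b = b' ∧ i = i') {z0 : Fin N → Bool} (Lg : List Bool → Prop)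
    (hL : ∀ X, Lg (List.ofFn (wd pos z0 X)) ↔ ∀ b, g (X b) = false)
    (ι : Type) [Fintype ι] (w : ι → ℝ) (V Γ : ι → Type) [∀ i, Fintype (V i)]
    (P : ∀ i, SBP (V i) (Γ i) (Fin N)) (hw0 : ∀ i, 0 ≤ w i) (hw1 : ∑ i, w i = 1)
    (hblock : ∀ i b (z : Fin N → Bool) (A : Finset (Fin n → Bool)),
      (∀ x, x ∈ A ↔ ∃ l, (P i).AccWalk (Function.extend (pos b) x z) l ∧
        (l.filter fun v => decide (v ∈ Set.range (pos b))).length ≤ k' * n) →
      |∑ x ∈ A, (sg (g x) : ℝ)| ≤ δ * 2 ^ n)
    (hT : (T : ℝ) ≤ η * (B * (k' * n))) (hη : 0 < η) (hη2 : η ≤ 1 / 2) (hδ : 4 * δ ≤ η)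
    (hc : ∀ y, 1 / 2 + η ≤ ∑ i, if Correct Lg (P i) T y then w i else 0) : False := by
  -- the indicators
  obtain ⟨A, hA⟩ : ∃ A : ι → Fin B → (Fin B → Fin n → Bool) → ℝ, A = fun i b X =>
      if ∃ l, (P i).AccWalk (wd pos z0 X) l ∧
        (l.filter fun v => decide (v ∈ Set.range (pos b))).length ≤ k' * n then 1 else 0 := ⟨_, rfl⟩
  obtain ⟨a, ha⟩ : ∃ a : ι → (Fin B → Fin n → Bool) → ℝ, a = fun i X =>
      if ∃ l, (P i).AccWalk (wd pos z0 X) l then 1 else 0 := ⟨_, rfl⟩
  obtain ⟨c, hcd⟩ : ∃ c : ι → (Fin B → Fin n → Bool) → ℝ, c = fun i X =>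
      if Correct Lg (P i) T (wd pos z0 X) then 1 else 0 := ⟨_, rfl⟩
  obtain ⟨zr, hzr⟩ : ∃ zr : (Fin B → Fin n → Bool) → ℝ, zr = fun X =>
      if ∀ b, g (X b) = false then 1 else 0 := ⟨_, rfl⟩
  obtain ⟨on, hon⟩ : ∃ on : Fin B → (Fin B → Fin n → Bool) → ℝ, on = fun b X =>
      rst g b X - zr X := ⟨_, rfl⟩
  have hzr0 : ∀ X, 0 ≤ zr X := by intro X; rw [hzr]; simp only; split_ifs <;> norm_num
  have hA0 : ∀ i b X, 0 ≤ A i b X := by intro i b X; rw [hA]; simp only; split_ifs <;> norm_num
  have hAa : ∀ i b X, A i b X ≤ a i X := by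
    intro i b X
    rw [hA, ha]
    simp only
    split_ifs with h1 h2
    · exact le_rfl
    · obtain ⟨l, h3, _⟩ := h1
      exact absurd ⟨l, h3⟩ h2
    · norm_num
    · exact le_rfl
  -- values
  have hzr1 : ∀ b X, rst g b X * (sg (g (X b)) : ℝ) = zr X - on b X := by
    intro b X
    rw [hon, hzr]
    simp only
    unfold rst
    by_cases h1 : ∀ b', b' ≠ b → g (X b') = false
    · rw [if_pos h1]
      by_cases h2 : g (X b) = false
      · have h3 : ∀ b', g (X b') = false := by
          intro b'
          by_cases hb : b' = b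
          · rw [hb]; exact h2
          · exact h1 b' hb
        rw [if_pos h3, h2]
        norm_num [sg]
      · have h3 : ¬ ∀ b', g (X b') = false := fun h => h2 (h b)
        rw [if_neg h3]
        have h4 : g (X b) = true := by simpa using h2
        rw [h4]
        norm_num [sg]
    · rw [if_neg h1]
      have h3 : ¬ ∀ b', g (X b') = false := fun h => h1 fun b' _ => h b'
      rw [if_neg h3]
      norm_num
  have hon0 : ∀ b X, 0 ≤ on b X := by
    intro b X
    rw [hon, hzr]
    simp only
    unfold rst
    by_cases h1 : ∀ b', g (X b') = false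
    · rw [if_pos h1, if_pos fun b' _ => h1 b']
      norm_num
    · rw [if_neg h1]
      split_ifs <;> norm_num
  have honL : ∀ b X, on b X ≠ 0 → ¬ Lg (List.ofFn (wd pos z0 X)) := by
    intro b X h1 h2
    rw [hL] at h2
    apply h1
    rw [hon, hzr]
    simp only
    unfold rst
    rw [if_pos h2, if_pos fun b' _ => h2 b']
    norm_num
  -- the totals
  obtain ⟨ζ, hζ⟩ : ∃ ζ : ℝ, ζ = ∑ X, zr X := ⟨_, rfl⟩
  obtain ⟨ρ, hρ⟩ : ∃ ρ : Fin B → ℝ, ρ = fun b => ∑ X, rst g b X := ⟨_, rfl⟩
  have hsumon : ∀ b, ∑ X, on b X = ρ b - ζ := by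
    intro b
    rw [hon, hρ, hζ]
    simp only [Finset.sum_sub_distrib]
  have hρζ : ∀ b, (1 - δ) * ρ b ≤ 2 * ζ := by
    intro b
    have h1 := bias (δ := δ) g b (fun _ => 1) (fun X => by
      simp only [mul_one]
      exact hg)
    simp only [mul_one] at h1
    rw [Finset.sum_congr rfl fun X _ => hzr1 b X, Finset.sum_sub_distrib, hsumon, ← hζ] at h1
    have h2 := (abs_le.1 h1).1
    rw [hρ] at h2 ⊢
    simp only at h2 ⊢
    linarith
  have hζ0 : 0 < ζ := by
    have h1 : ∃ x, g x = false := by
      by_contra hcon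
      push Not at hcon
      have h2 : ∀ x, g x = true := fun x => by simpa using hcon x
      have h3 : ∑ x : Fin n → Bool, (sg (g x) : ℝ) = -(2 : ℝ) ^ n := by
        have h4 : ∀ x : Fin n → Bool, (sg (g x) : ℝ) = -1 := by
          intro x
          rw [h2 x]
          norm_num [sg]
        rw [Finset.sum_congr rfl fun x _ => h4 x, Finset.sum_const, Finset.card_univ, Fintype.card_fun,
          Fintype.card_bool, Fintype.card_fin, nsmul_eq_mul]
        push_cast
        ring
      rw [h3, abs_neg, abs_of_pos (by positivity)] at hg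
      have h5 : (0 : ℝ) < 2 ^ n := by positivity
      nlinarith
    obtain ⟨x, hx⟩ := h1
    rw [hζ]
    have h2 : zr (fun _ => x) = 1 := by
      rw [hzr]
      simp only
      rw [if_pos fun _ => hx]
    calc (0 : ℝ) < zr (fun _ => x) := by rw [h2]; norm_num
      _ ≤ ∑ X, zr X := Finset.single_le_sum (fun X _ => hzr0 X) (Finset.mem_univ _)
  -- one program
  have hprog : ∀ i, (1 - η) * B * ∑ X, zr X * c i X ≤ ∑ b, (∑ X, on b X * a i X + δ * ρ b) := by
    intro i
    have h1 : ∀ b, ∑ X, zr X * A i b X ≤ ∑ X, on b X * a i X + δ * ρ b := by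
      intro b
      have h2 := bias (δ := δ) g b (A i b) (fun X => by
        obtain ⟨Af, hAf⟩ : ∃ Af : Finset (Fin n → Bool), Af = univ.filter fun x =>
          ∃ l, (P i).AccWalk (Function.extend (pos b) x (wd pos z0 X)) l ∧
            (l.filter fun v => decide (v ∈ Set.range (pos b))).length ≤ k' * n := ⟨_, rfl⟩
        have h3 := hblock i b (wd pos z0 X) Af (fun x => by
          rw [hAf, Finset.mem_filter]
          exact ⟨fun h => h.2, fun h => ⟨Finset.mem_univ _, h⟩⟩)
        have h4 : ∑ x : Fin n → Bool, (sg (g x) : ℝ) * A i b (Function.update X b x) = ∑ x ∈ Af, (sg (g x) : ℝ) := by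
          rw [hAf, Finset.sum_filter]
          refine Finset.sum_congr rfl fun x _ => ?_
          rw [hA]
          simp only
          rw [extend_wd hpos]
          split_ifs <;> simp
        rw [h4]
        exact h3)
      have h5 : ∑ X, rst g b X * ((sg (g (X b)) : ℝ) * A i b X) =
          ∑ X, zr X * A i b X - ∑ X, on b X * A i b X := by
        rw [← Finset.sum_sub_distrib]
        refine Finset.sum_congr rfl fun X _ => ?_
        rw [← mul_assoc, hzr1]
        ring
      rw [h5] at h2
      have h6 := (abs_le.1 h2).2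
      have h7 : ∑ X, on b X * A i b X ≤ ∑ X, on b X * a i X :=
        Finset.sum_le_sum fun X _ => mul_le_mul_of_nonneg_left (hAa i b X) (hon0 b X)
      rw [hρ]
      simp only
      linarith
    have h2 : (1 - η) * B * ∑ X, zr X * c i X ≤ ∑ b, ∑ X, zr X * A i b X := by
      rw [Finset.sum_comm, Finset.mul_sum]
      refine Finset.sum_le_sum fun X _ => ?_
      rw [← Finset.mul_sum]
      have h3 : (1 - η) * B * c i X ≤ ∑ b, A i b X ∨ zr X = 0 := by
        by_cases hz : ∀ b, g (X b) = false
        · left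
          rw [hcd]
          simp only
          split_ifs with hcor
          · obtain ⟨l, hl⟩ := hcor.1.2 ((hL X).2 hz)
            have hlT := hcor.2 l hl
            -- the heavy blocks
            obtain ⟨Hv, hHv⟩ : ∃ Hv : Finset (Fin B), Hv = univ.filter fun b =>
                ¬ (l.filter fun v => decide (v ∈ Set.range (pos b))).length ≤ k' * n := ⟨_, rfl⟩
            have h4 : Hv.card * (k' * n + 1) ≤ T := by
              calc Hv.card * (k' * n + 1) = ∑ b ∈ Hv, (k' * n + 1) := by
                    rw [Finset.sum_const, smul_eq_mul]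
                _ ≤ ∑ b ∈ Hv, (l.filter fun v => decide (v ∈ Set.range (pos b))).length := by
                    refine Finset.sum_le_sum fun b hb => ?_
                    rw [hHv] at hb
                    have := (Finset.mem_filter.1 hb).2
                    omega
                _ ≤ ∑ b, (l.filter fun v => decide (v ∈ Set.range (pos b))).length :=
                    Finset.sum_le_sum_of_subset (Finset.subset_univ _)
                _ ≤ l.length := sum_filter_length hpos l
                _ ≤ T := hlT
            have h5 : (Hv.card : ℝ) ≤ η * B := by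
              have h6 : (Hv.card : ℝ) * (k' * n + 1) ≤ T := by exact_mod_cast h4
              have h7 : (0 : ℝ) ≤ k' * n := by positivity
              have h8 : (Hv.card : ℝ) * (k' * n + 1) ≤ η * B * (k' * n + 1) := by
                have h9 : (0 : ℝ) ≤ η * B := by positivity
                calc (Hv.card : ℝ) * (k' * n + 1) ≤ T := h6
                  _ ≤ η * (B * (k' * n)) := hT
                  _ ≤ η * B * (k' * n + 1) := by nlinarith
              exact le_of_mul_le_mul_right h8 (by linarith)
            have h6 : (B : ℝ) - Hv.card ≤ ∑ b, A i b X := by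
              have h7 : ∑ b, A i b X = ((univ.filter fun b => ∃ l, (P i).AccWalk (wd pos z0 X) l ∧
                  (l.filter fun v => decide (v ∈ Set.range (pos b))).length ≤ k' * n).card : ℝ) := by
                rw [hA]
                simp only [Finset.sum_boole]
              rw [h7]
              have h8 : Hvᶜ ⊆ univ.filter fun b => ∃ l, (P i).AccWalk (wd pos z0 X) l ∧
                  (l.filter fun v => decide (v ∈ Set.range (pos b))).length ≤ k' * n := by
                intro b hb
                rw [Finset.mem_compl, hHv, Finset.mem_filter, not_and, not_not] at hb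
                exact Finset.mem_filter.2 ⟨Finset.mem_univ _, l, hl, hb (Finset.mem_univ _)⟩
              have h9 := Finset.card_le_card h8
              rw [Finset.card_compl, Fintype.card_fin] at h9
              have h10 : Hv.card ≤ B := by
                have := Finset.card_le_univ Hv
                rwa [Fintype.card_fin] at this
              have h11 : B ≤ Hv.card + (univ.filter fun b => ∃ l, (P i).AccWalk (wd pos z0 X) l ∧
                  (l.filter fun v => decide (v ∈ Set.range (pos b))).length ≤ k' * n).card := by omega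
              have h12 : (B : ℝ) ≤ Hv.card + (univ.filter fun b => ∃ l, (P i).AccWalk (wd pos z0 X) l ∧
                  (l.filter fun v => decide (v ∈ Set.range (pos b))).length ≤ k' * n).card := by
                exact_mod_cast h11
              linarith
            rw [mul_one]
            linarith
          · rw [mul_zero]
            exact Finset.sum_nonneg fun b _ => hA0 i b X
        · right
          rw [hzr]
          simp only
          rw [if_neg hz]
      rcases h3 with h3 | h3
      · have := mul_le_mul_of_nonneg_left h3 (hzr0 X)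
        linarith
      · rw [h3]
        simp
    exact h2.trans (Finset.sum_le_sum fun b _ => h1 b)
  -- the distribution
  have hcX : ∀ X, 1 / 2 + η ≤ ∑ i, w i * c i X := by
    intro X
    refine (hc (wd pos z0 X)).trans (le_of_eq ?_)
    refine Finset.sum_congr rfl fun i _ => ?_
    rw [hcd]
    simp only
    split_ifs <;> simp
  have hright : ∑ i, w i * ∑ b, (∑ X, on b X * a i X + δ * ρ b) ≤
      ∑ b, ((1 / 2 - η) * (ρ b - ζ) + δ * ρ b) := by
    have e1 : ∑ i, w i * ∑ b, (∑ X, on b X * a i X + δ * ρ b) =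
        ∑ b, ((∑ X, on b X * ∑ i, w i * a i X) + δ * ρ b) := by
      simp only [Finset.sum_add_distrib, mul_add]
      congr 1
      · simp only [Finset.mul_sum]
        rw [Finset.sum_comm]
        refine Finset.sum_congr rfl fun b _ => ?_
        rw [Finset.sum_comm]
        refine Finset.sum_congr rfl fun X _ => Finset.sum_congr rfl fun i _ => ?_
        ring
      · rw [← Finset.sum_mul, hw1, one_mul]
    rw [e1]
    refine Finset.sum_le_sum fun b _ => ?_
    have h1 : ∑ X, on b X * ∑ i, w i * a i X ≤ ∑ X, on b X * (1 / 2 - η) := by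
      refine Finset.sum_le_sum fun X _ => ?_
      by_cases h0 : on b X = 0
      · rw [h0, zero_mul, zero_mul]
      · refine mul_le_mul_of_nonneg_left ?_ (hon0 b X)
        have h2 := honL b X h0
        have h3 : ∑ i, w i * a i X ≤ ∑ i, w i * (1 - c i X) := by
          refine Finset.sum_le_sum fun i _ => mul_le_mul_of_nonneg_left ?_ (hw0 i)
          rw [ha, hcd]
          simp only
          by_cases h4 : Correct Lg (P i) T (wd pos z0 X)
          · rw [if_pos h4, if_neg fun h5 => h2 (h4.1.1 h5)]
            norm_num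
          · rw [if_neg h4]
            split_ifs <;> norm_num
        have h4 : ∑ i, w i * (1 - c i X) = 1 - ∑ i, w i * c i X := by
          have h5 : ∑ i, w i * (1 - c i X) = ∑ i, w i - ∑ i, w i * c i X := by
            rw [← Finset.sum_sub_distrib]
            refine Finset.sum_congr rfl fun i _ => ?_
            ring
          rw [h5, hw1]
        have := hcX X
        linarith
    rw [← Finset.sum_mul, hsumon] at h1
    linarith
  have hleft : (1 - η) * B * ((1 / 2 + η) * ζ) ≤ ∑ i, w i * ((1 - η) * B * ∑ X, zr X * c i X) := by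
    have e1 : ∑ i, w i * ((1 - η) * B * ∑ X, zr X * c i X) =
        (1 - η) * B * ∑ X, zr X * ∑ i, w i * c i X := by
      simp only [Finset.mul_sum]
      rw [Finset.sum_comm]
      refine Finset.sum_congr rfl fun X _ => Finset.sum_congr rfl fun i _ => ?_
      ring
    rw [e1]
    refine mul_le_mul_of_nonneg_left ?_ (by
      have : (0 : ℝ) ≤ B := Nat.cast_nonneg _
      nlinarith)
    rw [hζ, Finset.mul_sum]
    refine Finset.sum_le_sum fun X _ => ?_
    have := mul_le_mul_of_nonneg_left (hcX X) (hzr0 X)
    linarith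
  have hmid : ∑ i, w i * ((1 - η) * B * ∑ X, zr X * c i X) ≤
      ∑ i, w i * ∑ b, (∑ X, on b X * a i X + δ * ρ b) :=
    Finset.sum_le_sum fun i _ => mul_le_mul_of_nonneg_left (hprog i) (hw0 i)
  have hall := hleft.trans (hmid.trans hright)
  -- numbers
  have hδ8 : δ ≤ 1 / 8 := by linarith
  have hb : ∀ b, (1 / 2 - η) * (ρ b - ζ) + δ * ρ b ≤ (1 / 2 - η / 5) * ζ := by
    intro b
    have h1 : ρ b ≤ (2 + 16 / 7 * δ) * ζ := by
      have h2 := hρζ b
      have h3 : (1 - δ) * ρ b ≤ (1 - δ) * ((2 + 16 / 7 * δ) * ζ) := by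
        refine h2.trans ?_
        have h4 : 2 ≤ (1 - δ) * (2 + 16 / 7 * δ) := by nlinarith
        nlinarith
      exact le_of_mul_le_mul_left h3 (by linarith)
    have h5 : (1 / 2 - η + δ) * ρ b ≤ (1 / 2 - η + δ) * ((2 + 16 / 7 * δ) * ζ) :=
      mul_le_mul_of_nonneg_left h1 (by linarith)
    have h6 : (1 / 2 - η + δ) * (2 + 16 / 7 * δ) - (1 / 2 - η) ≤ 1 / 2 - η / 5 := by nlinarith
    have h7 := mul_le_mul_of_nonneg_right h6 hζ0.le
    nlinarith
  have hsum : ∑ b, ((1 / 2 - η) * (ρ b - ζ) + δ * ρ b) ≤ B * ((1 / 2 - η / 5) * ζ) := by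
    calc ∑ b, ((1 / 2 - η) * (ρ b - ζ) + δ * ρ b) ≤ ∑ _b : Fin B, (1 / 2 - η / 5) * ζ :=
          Finset.sum_le_sum fun b _ => hb b
      _ = B * ((1 / 2 - η / 5) * ζ) := by
          rw [Finset.sum_const, Finset.card_univ, Fintype.card_fin, nsmul_eq_mul]
  have hBr : (1 : ℝ) ≤ B := by exact_mod_cast hB
  have hBζ : 0 < B * ζ := mul_pos (by linarith) hζ0
  have hfin : (1 - η) * (1 / 2 + η) * (B * ζ) ≤ (1 / 2 - η / 5) * (B * ζ) := by
    calc (1 - η) * (1 / 2 + η) * (B * ζ) = (1 - η) * B * ((1 / 2 + η) * ζ) := by ring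
      _ ≤ _ := hall
      _ ≤ B * ((1 / 2 - η / 5) * ζ) := hsum
      _ = _ := by ring
  have := le_of_mul_le_mul_right hfin hBζ
  nlinarith

end Pool.Agent.KH
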