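import Pool.Agent.KH.Rect

/-! Quadratic maps whose fibres contain no large rectangles. -/

namespace Pool.Agent.KH

open Finset Pool.Agent.SemRO Pool.Agent.KD Pool.Agent.KE

/-- the value of the quadratic form with the coefficients `M` -/
def qd {n : ℕ} (M : Fin n × Fin n → Bool) (x : Fin n → Bool) : ZMod 2 :=
  ∑ p : Fin n × Fin n, zb (M p && (x p.1 && x p.2))

/-- the quadratic map with the coefficients `M` -/
def hq {n r : ℕ} (M : Fin r → Fin n × Fin n → Bool) (x : Fin n → Bool) (c : Fin r) : Bool :=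
  decide (qd (M c) x = 1)

lemma qd_xor {n : ℕ} (C E : Fin n × Fin n → Bool) (x : Fin n → Bool) :
    qd (fun t => xor (C t) (E t)) x = qd C x + qd E x := by
  unfold qd
  rw [← Finset.sum_add_distrib]
  refine Finset.sum_congr rfl fun t _ => ?_
  rw [← zb_xor]
  congr 1
  show ((C t ^^ E t) && (x t.1 && x t.2)) = _
  cases C t <;> cases E t <;> cases (x t.1 && x t.2) <;> rfl

lemma hq_eq {n : ℕ} {M M' : Fin n × Fin n → Bool} {x : Fin n → Bool}
    (h : decide (qd M x = 1) = decide (qd M' x = 1)) : qd M x = qd M' x := by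
  rcases zmod2 (qd M x) with h1 | h1 <;> rcases zmod2 (qd M' x) with h2 | h2
  · rw [h1, h2]
  · rw [h1, h2] at h
    exact absurd h (by decide)
  · rw [h1, h2] at h
    exact absurd h (by decide)
  · rw [h1, h2]

section count
variable {n k r : ℕ} {A : Finset (Fin n)} {κ κ' : Fin k → Fin n} {p p' : Fin k → Fin n → Bool}

/-- the conditions on the data of a grid of points -/
structure Grd (A : Finset (Fin n)) (κ κ' : Fin k → Fin n) (p p' : Fin k → Fin n → Bool) : Prop where
  inj : Function.Injective κ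
  inj' : Function.Injective κ'
  mem : ∀ a, κ a ∈ A
  mem' : ∀ a, κ' a ∉ A
  val : ∀ P a, p P (κ a) = decide (a = P)
  val' : ∀ P a, p' P (κ' a) = decide (a = P)

open Classical in
/-- the form with given coefficients at the monomials of the grid -/
noncomputable def frm2 (κ κ' : Fin k → Fin n) (D : Fin k → Fin k → Bool) (t : Fin n × Fin n) : Bool :=
  decide (∃ a a', t = (κ a, κ' a') ∧ D a a' = true)

lemma qd_frm2 (h : Grd A κ κ' p p') (D : Fin k → Fin k → Bool) (a a' : Fin k) :
    qd (frm2 κ κ' D) (mix A (p a) (p' a')) = zb (D a a') := by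
  classical
  obtain ⟨z, hz⟩ : ∃ z, z = mix A (p a) (p' a') := ⟨_, rfl⟩
  have hz1 : ∀ b, z (κ b) = decide (b = a) := by
    intro b
    rw [hz, mix, if_pos (h.mem b), h.val]
  have hz2 : ∀ b, z (κ' b) = decide (b = a') := by
    intro b
    rw [hz, mix, if_neg (h.mem' b), h.val']
  rw [← hz]
  unfold qd
  rw [Finset.sum_eq_single (κ a, κ' a')]
  · have h1 : (z (κ a) && z (κ' a')) = true := by
      rw [hz1, hz2]
      simp
    simp only [h1, Bool.and_true]
    congr 1
    unfold frm2
    by_cases hD : D a a' = true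
    · rw [hD, decide_eq_true_eq]
      exact ⟨a, a', rfl, hD⟩
    · have hD' : D a a' = false := by simpa using hD
      rw [hD', decide_eq_false_iff_not]
      rintro ⟨Q, Q', h2, h3⟩
      simp only [Prod.mk.injEq] at h2
      rw [← h.inj h2.1, ← h.inj' h2.2] at h3
      exact hD h3
  · intro t _ ht
    have h1 : (frm2 κ κ' D t && (z t.1 && z t.2)) = false := by
      by_contra hcon
      rw [Bool.not_eq_false, Bool.and_eq_true] at hcon
      obtain ⟨h2, h3⟩ := hcon
      unfold frm2 at h2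
      rw [decide_eq_true_eq] at h2
      obtain ⟨Q, Q', h4, _⟩ := h2
      apply ht
      rw [h4] at h3 ⊢
      simp only [hz1, hz2, Bool.and_eq_true, decide_eq_true_eq] at h3
      rw [h3.1, h3.2]
    rw [h1]
    rfl
  · intro h1
    exact absurd (Finset.mem_univ _) h1

/-- few maps are constant on a grid -/
lemma card_const (h : Grd A κ κ' p p') (σ : Fin r → Bool) [DecidablePred fun M : Fin r → Fin n × Fin n → Bool =>
      ∀ a a', hq M (mix A (p a) (p' a')) = σ] :
    (univ.filter fun M : Fin r → Fin n × Fin n → Bool => ∀ a a', hq M (mix A (p a) (p' a')) = σ).card *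
      2 ^ (k * k * r) ≤ Fintype.card (Fin r → Fin n × Fin n → Bool) := by
  classical
  have e1 : 2 ^ (k * k * r) = Fintype.card (Fin r → Fin k → Fin k → Bool) := by
    rw [Fintype.card_fun, Fintype.card_fun, Fintype.card_fun, Fintype.card_bool, Fintype.card_fin, Fintype.card_fin,
      ← pow_mul, ← pow_mul, mul_assoc]
  rw [e1, ← Finset.card_univ, ← Finset.card_product, ← Finset.card_univ]
  refine Finset.card_le_card_of_injOn
    (fun w : (Fin r → Fin n × Fin n → Bool) × (Fin r → Fin k → Fin k → Bool) =>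
      fun c t => xor (w.1 c t) (frm2 κ κ' (w.2 c) t))
    (fun w _ => Finset.mem_coe.2 (Finset.mem_univ _)) ?_
  rintro ⟨C, D⟩ hw ⟨C1, D1⟩ hw1 heq
  simp only at heq
  have hC := (Finset.mem_filter.1 (Finset.mem_product.1 (Finset.mem_coe.1 hw)).1).2
  have hC1 := (Finset.mem_filter.1 (Finset.mem_product.1 (Finset.mem_coe.1 hw1)).1).2
  have hD : D = D1 := by
    funext c a a'
    have h1 := congrArg (fun X : Fin r → Fin n × Fin n → Bool => qd (X c) (mix A (p a) (p' a'))) heq
    have h2 : qd (C c) (mix A (p a) (p' a')) = qd (C1 c) (mix A (p a) (p' a')) :=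
      hq_eq (congrFun ((hC a a').trans (hC1 a a').symm) c)
    simp only [qd_xor] at h1
    rw [h2, qd_frm2 h, qd_frm2 h] at h1
    have h3 := add_left_cancel h1
    cases h4 : D c a a' <;> cases h5 : D1 c a a'
    · rfl
    · rw [h4, h5] at h3
      exact absurd h3 (by decide)
    · rw [h4, h5] at h3
      exact absurd h3 (by decide)
    · rfl
  refine Prod.ext ?_ hD
  simp only
  funext c t
  have h1 := congrFun (congrFun heq c) t
  simp only [hD] at h1
  cases h2 : C c t <;> cases h3 : C1 c t <;> cases h4 : frm2 κ κ' (D1 c) t <;> simp_all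

end count

/-- the data of a grid and a value -/
abbrev Dat2 (n k r : ℕ) : Type :=
  Finset (Fin n) × ((Fin k → Fin n) × (Fin k → Fin n)) × ((Fin k → Fin n → Bool) × (Fin k → Fin n → Bool)) ×
    (Fin r → Bool)

/-- the map is constant on the grid -/
def Cst {n k r : ℕ} (D : Dat2 n k r) (M : Fin r → Fin n × Fin n → Bool) : Prop :=
  Grd D.1 D.2.1.1 D.2.1.2 D.2.2.1.1 D.2.2.1.2 ∧ ∀ a a', hq M (mix D.1 (D.2.2.1.1 a) (D.2.2.1.2 a')) = D.2.2.2

lemma card_Dat2 (n k r : ℕ) : Fintype.card (Dat2 n k r) ≤ 2 ^ (n + 4 * (n * k) + r) := by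
  classical
  have h1 : n ^ k ≤ 2 ^ (n * k) := by
    rw [pow_mul]
    exact Nat.pow_le_pow_left Nat.lt_two_pow_self.le _
  have e1 : Fintype.card (Dat2 n k r) = 2 ^ n * (n ^ k * n ^ k *
      (2 ^ (n * k) * 2 ^ (n * k) * 2 ^ r)) := by
    simp only [Fintype.card_prod, Fintype.card_finset, Fintype.card_fun, Fintype.card_fin,
      Fintype.card_bool, pow_mul]
  rw [e1]
  calc _ ≤ 2 ^ n * (2 ^ (n * k) * 2 ^ (n * k) * (2 ^ (n * k) * 2 ^ (n * k) * 2 ^ r)) :=
        Nat.mul_le_mul_left _ (Nat.mul_le_mul_right _ (Nat.mul_le_mul h1 h1))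
    _ = _ := by
      simp only [← pow_add]
      congr 1
      ring

/-- a rectangle contains a grid -/
lemma cst_of_rect {n k r L : ℕ} (hL : (n + 1) ^ k < L) {M : Fin r → Fin n × Fin n → Bool} {σ : Fin r → Bool}
    (h : ¬ RectFree {x | hq M x = σ} L) : ∃ D : Dat2 n k r, Cst D M := by
  classical
  unfold RectFree at h
  push Not at h
  obtain ⟨A, u, v, hu, hv, hm⟩ := h
  obtain ⟨κ, h1, h2, h3⟩ := exists_shattered hL A u hu
  obtain ⟨κ', h1', h2', h3'⟩ := exists_shattered hL Aᶜ v (fun i j hij => by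
    obtain ⟨x, hx, hx2⟩ := hv i j hij
    exact ⟨x, Finset.mem_compl.2 hx, hx2⟩)
  choose p hp using fun P : Fin k => h3 (fun a => decide (a = P))
  choose p' hp' using fun P : Fin k => h3' (fun a => decide (a = P))
  refine ⟨(A, (κ, κ'), (fun P => u (p P), fun P => v (p' P)), σ), ⟨h1, h1', h2,
    fun a => Finset.mem_compl.1 (h2' a), fun P a => hp P a, fun P a => hp' P a⟩, fun P P' => ?_⟩
  have := hm (p P) (p' P')
  exact this

/-- **Quadratic maps whose fibres contain no large rectangles exist.** -/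
theorem exists_hashq {n r k : ℕ} (h : n + 4 * (n * k) + r + 1 ≤ k * k * r) :
    ∃ M : Fin r → Fin n × Fin n → Bool, ∀ σ : Fin r → Bool, RectFree {x | hq M x = σ} ((n + 1) ^ k + 1) := by
  classical
  by_contra hcon
  push Not at hcon
  obtain ⟨Q, hQ⟩ : ∃ Q, Q = Fintype.card (Fin r → Fin n × Fin n → Bool) := ⟨_, rfl⟩
  have hQpos : 0 < Q := by rw [hQ]; exact Fintype.card_pos
  have h1 : (univ : Finset (Fin r → Fin n × Fin n → Bool)) ⊆
      (univ : Finset (Dat2 n k r)).biUnion fun D => univ.filter fun M => Cst D M := by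
    intro M _
    obtain ⟨σ, hσ⟩ := hcon M
    obtain ⟨D, hD⟩ := cst_of_rect (Nat.lt_succ_self _) hσ
    exact Finset.mem_biUnion.2 ⟨D, Finset.mem_univ _, Finset.mem_filter.2 ⟨Finset.mem_univ _, hD⟩⟩
  have h2 : ∀ D : Dat2 n k r, (univ.filter fun M => Cst D M).card * 2 ^ (k * k * r) ≤ Q := by
    intro D
    by_cases hG : Grd D.1 D.2.1.1 D.2.1.2 D.2.2.1.1 D.2.2.1.2
    · rw [hQ]
      refine le_trans (Nat.mul_le_mul_right _ (Finset.card_le_card ?_)) (card_const hG D.2.2.2)
      intro C hC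
      exact Finset.mem_filter.2 ⟨Finset.mem_univ _, (Finset.mem_filter.1 hC).2.2⟩
    · have : (univ.filter fun M => Cst D M) = ∅ := by
        refine Finset.filter_false_of_mem fun C _ h => hG h.1
      rw [this, Finset.card_empty, zero_mul]
      exact Nat.zero_le _
  have h3 : Q * 2 ^ (k * k * r) ≤ 2 ^ (n + 4 * (n * k) + r) * Q := by
    calc Q * 2 ^ (k * k * r) = (univ : Finset (Fin r → Fin n × Fin n → Bool)).card * 2 ^ (k * k * r) := by
          rw [hQ, Finset.card_univ]
      _ ≤ (∑ D : Dat2 n k r, (univ.filter fun M => Cst D M).card) * 2 ^ (k * k * r) :=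
          Nat.mul_le_mul_right _ ((Finset.card_le_card h1).trans Finset.card_biUnion_le)
      _ = ∑ D : Dat2 n k r, (univ.filter fun M => Cst D M).card * 2 ^ (k * k * r) := by rw [Finset.sum_mul]
      _ ≤ ∑ _D : Dat2 n k r, Q := Finset.sum_le_sum fun D _ => h2 D
      _ = Fintype.card (Dat2 n k r) * Q := by rw [Finset.sum_const, Finset.card_univ, smul_eq_mul]
      _ ≤ _ := Nat.mul_le_mul_right _ (card_Dat2 n k r)
  have h4 : 2 ^ (k * k * r) ≤ 2 ^ (n + 4 * (n * k) + r) := by
    rw [mul_comm] at h3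
    exact Nat.le_of_mul_le_mul_right h3 hQpos
  have h5 := (Nat.pow_le_pow_iff_right (by norm_num : 1 < 2)).1 h4
  omega

end Pool.Agent.KH
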