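import Pool.Agent.KH.LowT
import Pool.Agent.KH.HashQ

/-! Quartic forms and quadratic maps for the time bound for nondeterministic programs. -/

namespace Pool.Agent.KH

open Finset Pool.Agent.SemRO Pool.Agent.KNL

/-- the size of the rectangles -/
lemma exp_big {n D j : ℕ} (hD : 16 ≤ D) (hn : D ^ 16 ≤ n) (hj : j ≤ 10 * Nat.sqrt n) :
    (((n + 1) ^ j + 1 : ℕ) : ℝ) ≤ Real.exp ((n : ℝ) / D) := by
  obtain ⟨θ, hθ⟩ : ∃ θ : ℝ, θ = (n : ℝ) ^ (((16 : ℕ) : ℝ)⁻¹) := ⟨_, rfl⟩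
  have hnr : (0 : ℝ) ≤ n := Nat.cast_nonneg _
  have hθ0 : 0 ≤ θ := by rw [hθ]; positivity
  have hθn : θ ^ 16 = n := by rw [hθ]; exact Real.rpow_inv_natCast_pow hnr (by norm_num)
  have hDθ : (D : ℝ) ≤ θ := by
    rw [← pow_le_pow_iff_left₀ (Nat.cast_nonneg _) hθ0 (by norm_num : 16 ≠ 0), hθn]
    exact_mod_cast hn
  have hDr : (16 : ℝ) ≤ D := by exact_mod_cast hD
  have hθ16 : 16 ≤ θ := hDr.trans hDθ
  have hs : (Nat.sqrt n : ℝ) ≤ θ ^ 8 := by
    rw [← pow_le_pow_iff_left₀ (Nat.cast_nonneg _) (by positivity) (by norm_num : 2 ≠ 0), ← pow_mul, hθn]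
    have : Nat.sqrt n ^ 2 ≤ n := Nat.sqrt_le' n
    exact_mod_cast this
  have hjr : (j : ℝ) ≤ 10 * θ ^ 8 := by
    have : (j : ℝ) ≤ 10 * (Nat.sqrt n : ℝ) := by exact_mod_cast hj
    linarith
  have h1 : ((n : ℝ) + 1) ≤ Real.exp (17 * θ) := by
    have h2 : θ ≤ Real.exp θ := by
      have := Real.add_one_le_exp θ
      linarith
    have h3 : (n : ℝ) + 1 ≤ θ ^ 17 := by
      have h4 : 1 ≤ θ ^ 16 := one_le_pow₀ (by linarith)
      calc (n : ℝ) + 1 ≤ θ ^ 16 + θ ^ 16 := by rw [hθn]; rw [hθn] at h4; linarith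
        _ = 2 * θ ^ 16 := by ring
        _ ≤ θ * θ ^ 16 := mul_le_mul_of_nonneg_right (by linarith) (by positivity)
        _ = θ ^ 17 := by ring
    calc (n : ℝ) + 1 ≤ θ ^ 17 := h3
      _ ≤ Real.exp θ ^ 17 := pow_le_pow_left₀ hθ0 h2 _
      _ = Real.exp (17 * θ) := by rw [← Real.exp_nat_mul]; norm_num
  have h2 : ((n : ℝ) + 1) ^ j ≤ Real.exp (170 * θ ^ 9) := by
    calc ((n : ℝ) + 1) ^ j ≤ Real.exp (17 * θ) ^ j := pow_le_pow_left₀ (by positivity) h1 _
      _ = Real.exp (j * (17 * θ)) := by rw [← Real.exp_nat_mul]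
      _ ≤ Real.exp (170 * θ ^ 9) := by
          apply Real.exp_le_exp.mpr
          calc (j : ℝ) * (17 * θ) ≤ 10 * θ ^ 8 * (17 * θ) := mul_le_mul_of_nonneg_right hjr (by positivity)
            _ = 170 * θ ^ 9 := by ring
  push_cast
  have h3 : (1 : ℝ) ≤ Real.exp (170 * θ ^ 9) := Real.one_le_exp (by positivity)
  have h4 : (2 : ℝ) ≤ Real.exp 1 := by
    have := Real.add_one_le_exp (1 : ℝ)
    linarith
  have h5 : 170 * θ ^ 9 + 1 ≤ (n : ℝ) / D := by
    rw [le_div_iff₀ (by linarith), ← hθn]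
    have h6 : (1 : ℝ) ≤ θ ^ 9 := one_le_pow₀ (by linarith)
    have h7 : (171 : ℝ) ≤ θ ^ 6 := by
      calc (171 : ℝ) ≤ 16 ^ 6 := by norm_num
        _ ≤ θ ^ 6 := pow_le_pow_left₀ (by norm_num) hθ16 _
    calc (170 * θ ^ 9 + 1) * D ≤ (171 * θ ^ 9) * θ :=
          mul_le_mul (by linarith) hDθ (by linarith) (by positivity)
      _ ≤ (θ ^ 6 * θ ^ 9) * θ := by
          apply mul_le_mul_of_nonneg_right _ hθ0
          exact mul_le_mul_of_nonneg_right h7 (by positivity)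
      _ = θ ^ 16 := by ring
  calc ((n : ℝ) + 1) ^ j + 1 ≤ 2 * Real.exp (170 * θ ^ 9) := by linarith
    _ ≤ Real.exp 1 * Real.exp (170 * θ ^ 9) := mul_le_mul_of_nonneg_right h4 (Real.exp_pos _).le
    _ = Real.exp (170 * θ ^ 9 + 1) := by rw [← Real.exp_add, add_comm]
    _ ≤ _ := Real.exp_le_exp.mpr h5

lemma sqrt_big {n D : ℕ} (hn : D ^ 16 ≤ n) : D ^ 8 ≤ Nat.sqrt n := by
  rw [Nat.le_sqrt', ← pow_mul]
  exact hn

/-- quartic forms -/
theorem emb_qua {Lg : List Bool → Prop} {N n B : ℕ} {pos : Fin B → Fin n → Fin N}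
    (z : (Qd4 n → Bool) → Fin N → Bool)
    (h : ∀ C X, Lg (List.ofFn (wd pos (z C) X)) ↔ ∀ b, qua C (X b) = false) {D : ℕ} (hD : 16 ≤ D)
    (hn : D ^ 16 ≤ n) : Emb Lg pos D := by
  classical
  obtain ⟨C, hC1, hC2⟩ := exists_rect n
  have hDr : (0 : ℝ) < D := by
    have : 0 < D := by omega
    exact_mod_cast this
  refine ⟨Unit, inferInstance, fun _ => (), fun _ => z C, univ.filter fun x => qua C x = false,
    (n + 1) ^ (2 * Nat.sqrt n + 8) + 1, ?_, exp_big hD hn ?_, hC2, ?_, ?_⟩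
  · rw [Fintype.card_unit, Nat.cast_one]
    exact Real.one_le_exp (by positivity)
  · have h1 := sqrt_big hn
    have h2 : 16 ^ 8 ≤ D ^ 8 := Nat.pow_le_pow_left hD 8
    have h3 : 1 ≤ Nat.sqrt n := by
      have : 1 ≤ 16 ^ 8 := by norm_num
      omega
    omega
  · intro t
    have e1 : {x : Fin n → Bool | x ∈ (univ.filter fun x => qua C x = false) ∧ (fun _ => ()) x = t} =
        {x | qua C x = false} := by
      ext x
      simp
    rw [e1]
    exact hC1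
  · intro t X
    rw [h]
    simp

/-- quadratic maps -/
theorem emb_hashq {Lg : List Bool → Prop} {N n B : ℕ} {pos : Fin B → Fin n → Fin N}
    (z : ∀ r, (Fin r → Fin n × Fin n → Bool) → (Fin B → Fin r → Bool) → Fin N → Bool)
    (h : ∀ r ≤ n, ∀ M t X, Lg (List.ofFn (wd pos (z r M t) X)) ↔ ∀ b, hq M (X b) = t b) {D : ℕ} (hD : 16 ≤ D)
    (hn : D ^ 16 ≤ n) : Emb Lg pos D := by
  classical
  obtain ⟨r, hr⟩ : ∃ r, r = n / (8 * D) := ⟨_, rfl⟩
  have hD2 : 16 * D ≤ n := by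
    calc 16 * D ≤ D * D := Nat.mul_le_mul_right _ hD
      _ = D ^ 2 := by ring
      _ ≤ D ^ 16 := Nat.pow_le_pow_right (by omega) (by norm_num)
      _ ≤ n := hn
  have hr1 : 8 * D * r ≤ n := by rw [hr]; exact Nat.mul_div_le _ _
  have hr2 : n ≤ 16 * D * r := by
    have h1 : n < 8 * D * (r + 1) := by rw [hr]; exact Nat.lt_mul_div_succ _ (by omega)
    have e1 : 8 * D * (r + 1) = 8 * D * r + 8 * D := by ring
    have e2 : 16 * D * r = 2 * (8 * D * r) := by ring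
    omega
  have hrn : r ≤ n := by rw [hr]; exact Nat.div_le_self _ _
  have hn0 : 0 < n := by omega
  have hk : n + 4 * (n * (80 * D)) + r + 1 ≤ 80 * D * (80 * D) * r := by
    have h1 : 80 * D * (80 * D) * r = 400 * D * (16 * D * r) := by ring
    rw [h1]
    have h2 : 400 * D * n ≤ 400 * D * (16 * D * r) := Nat.mul_le_mul_left _ hr2
    have h3 : 400 * D * n = 5 * (n * (80 * D)) := by ring
    have h4 : n * 3 ≤ n * (80 * D) := Nat.mul_le_mul_left _ (by omega)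
    omega
  obtain ⟨M, hM⟩ := exists_hashq hk
  have hDr : (16 : ℝ) ≤ D := by exact_mod_cast hD
  refine ⟨Fin r → Bool, inferInstance, hq M, z r M, univ, (n + 1) ^ (80 * D) + 1, ?_, exp_big hD hn ?_, ?_, ?_, ?_⟩
  · rw [Fintype.card_fun, Fintype.card_bool, Fintype.card_fin]
    push_cast
    have h1 : (2 : ℝ) ≤ Real.exp 1 := by
      have := Real.add_one_le_exp (1 : ℝ)
      linarith
    calc (2 : ℝ) ^ r ≤ Real.exp 1 ^ r := pow_le_pow_left₀ (by norm_num) h1 _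
      _ = Real.exp r := by rw [← Real.exp_nat_mul, mul_one]
      _ ≤ _ := by
        apply Real.exp_le_exp.mpr
        rw [le_div_iff₀ (by linarith)]
        have h2 : (8 : ℝ) * D * r ≤ n := by exact_mod_cast hr1
        have h3 : (0 : ℝ) ≤ r := Nat.cast_nonneg _
        nlinarith
  · have h1 := sqrt_big hn
    have h2 : 8 * D ≤ D ^ 8 := by
      calc 8 * D ≤ D * D := Nat.mul_le_mul_right _ (by omega)
        _ = D ^ 2 := by ring
        _ ≤ D ^ 8 := Nat.pow_le_pow_right (by omega) (by norm_num)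
    omega
  · rw [Finset.card_univ, Fintype.card_fun, Fintype.card_bool, Fintype.card_fin]
    omega
  · intro t
    have e1 : {x : Fin n → Bool | x ∈ (univ : Finset (Fin n → Bool)) ∧ hq M x = t} = {x | hq M x = t} := by
      ext x
      simp
    rw [e1]
    exact hM t
  · intro t X
    rw [h r hrn]
    simp

end Pool.Agent.KH
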