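import Pool.Agent.KE.SeedC

/-! Averaging over the blocks: a set that does not see a change of one block cannot decide whether all
blocks have the value zero. -/

namespace Pool.Agent.KH

open Finset Pool.Agent.KE

variable {α : Type} [Fintype α] {B : ℕ}

/-- replacing one block -/
lemma sum_update (b : Fin B) (F : (Fin B → α) → ℝ) :
    ∑ X : Fin B → α, ∑ x : α, F (Function.update X b x) = Fintype.card α * ∑ X : Fin B → α, F X := by
  classical
  obtain ⟨e, he⟩ : ∃ e : (Fin B → α) ≃ α × ({j // j ≠ b} → α), e = Equiv.funSplitAt b α := ⟨_, rfl⟩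
  have h1 : ∀ X x, Function.update X b x = e.symm (x, (e X).2) := by
    intro X x
    rw [he]
    funext j
    simp only [Equiv.funSplitAt, Equiv.piSplitAt, Equiv.coe_fn_mk, Equiv.coe_fn_symm_mk]
    by_cases hj : j = b
    · subst hj
      simp
    · rw [Function.update_of_ne hj]
      simp [hj]
  have h2 : ∀ G : (Fin B → α) → ℝ, ∑ X, G X = ∑ a : α, ∑ r : {j // j ≠ b} → α, G (e.symm (a, r)) := by
    intro G
    rw [← Fintype.sum_prod_type (f := fun p => G (e.symm p))]
    exact Fintype.sum_equiv e _ _ fun X => by rw [Equiv.symm_apply_apply]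
  rw [h2, h2 F]
  have h3 : ∀ a : α, ∑ r : {j // j ≠ b} → α, ∑ x : α, F (Function.update (e.symm (a, r)) b x) =
      ∑ x : α, ∑ r : {j // j ≠ b} → α, F (e.symm (x, r)) := by
    intro a
    rw [Finset.sum_comm]
    refine Finset.sum_congr rfl fun x _ => Finset.sum_congr rfl fun r _ => ?_
    rw [h1, Equiv.apply_symm_apply]
  rw [Finset.sum_congr rfl fun a _ => h3 a, Finset.sum_const, Finset.card_univ, nsmul_eq_mul]

variable (g : α → Bool)

/-- all blocks except `b` have the value zero -/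
def Oth (b : Fin B) (X : Fin B → α) : Prop := ∀ j, j ≠ b → g (X j) = false

omit [Fintype α] in
/-- the block `b` is replaced: the other blocks are the same -/
lemma oth_update (b : Fin B) (X : Fin B → α) (x : α) : Oth g b (Function.update X b x) ↔ Oth g b X := by
  unfold Oth
  refine forall_congr' fun j => imp_congr_right fun hj => ?_
  rw [Function.update_of_ne hj]

/-- the number of zeros and ones of `g` -/
noncomputable def zz : ℝ := ((univ.filter fun x => g x = false).card : ℝ)
noncomputable def oo : ℝ := ((univ.filter fun x => g x = true).card : ℝ)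

open Classical in
/-- product form of the number of words with prescribed value of block `b` -/
lemma sum_oth (b : Fin B) (h : α → ℝ) :
    ∑ X : Fin B → α, (if Oth g b X then h (X b) else 0) = (∑ x, h x) * zz g ^ (B - 1) := by
  obtain ⟨e, he⟩ : ∃ e : (Fin B → α) ≃ α × ({j // j ≠ b} → α), e = Equiv.funSplitAt b α := ⟨_, rfl⟩
  have h1 : ∀ X, e X = (X b, fun j : {j // j ≠ b} => X j) := by intro X; rw [he]; rfl
  have h2 : ∀ X, (if Oth g b X then h (X b) else 0) =
      h (e X).1 * (if (∀ j : {j // j ≠ b}, g ((e X).2 j) = false) then 1 else 0) := by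
    intro X
    rw [h1]
    have : Oth g b X ↔ ∀ j : {j // j ≠ b}, g (X j) = false :=
      ⟨fun hX j => hX j.1 j.2, fun hX j hj => hX ⟨j, hj⟩⟩
    simp only [this]
    split_ifs <;> simp
  rw [Finset.sum_congr rfl fun X _ => h2 X,
    Fintype.sum_equiv e _ (fun p : α × ({j // j ≠ b} → α) =>
      h p.1 * (if (∀ j : {j // j ≠ b}, g (p.2 j) = false) then 1 else 0)) (fun X => rfl),
    Fintype.sum_prod_type]
  simp only
  have h4 : ∀ a : α, ∑ r : {j // j ≠ b} → α, h a * (if (∀ j : {j // j ≠ b}, g (r j) = false) then 1 else 0) =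
      h a * ∑ r : {j // j ≠ b} → α, (if (∀ j : {j // j ≠ b}, g (r j) = false) then 1 else 0) := fun a => by
    rw [Finset.mul_sum]
  rw [Finset.sum_congr rfl fun a _ => h4 a]
  rw [← Finset.sum_mul]
  congr 1
  rw [← Finset.sum_filter, Finset.sum_const, nsmul_eq_mul, mul_one]
  have h3 : (univ.filter fun r : {j // j ≠ b} → α => ∀ j, g (r j) = false) =
      Fintype.piFinset fun _ : {j // j ≠ b} => univ.filter fun x => g x = false := by
    ext r
    simp [Fintype.mem_piFinset]
  rw [h3, Fintype.card_piFinset, Finset.prod_const, Finset.card_univ]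
  unfold zz
  rw [Fintype.card_subtype_compl, Fintype.card_fin, Fintype.card_subtype_eq]
  push_cast
  rfl

open Classical in
/-- all blocks zero -/
noncomputable def Zs (B : ℕ) : Finset (Fin B → α) := univ.filter fun X => ∀ b, g (X b) = false

open Classical in
/-- the block `b` one, all others zero -/
noncomputable def Os (b : Fin B) : Finset (Fin B → α) := univ.filter fun X => Oth g b X ∧ g (X b) = true

lemma mem_Zs {X : Fin B → α} : X ∈ Zs g B ↔ ∀ b, g (X b) = false := by
  unfold Zs; simp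

lemma mem_Os {b : Fin B} {X : Fin B → α} : X ∈ Os g b ↔ Oth g b X ∧ g (X b) = true := by
  unfold Os; simp

lemma mem_Zs' (b : Fin B) {X : Fin B → α} : X ∈ Zs g B ↔ Oth g b X ∧ g (X b) = false := by
  rw [mem_Zs]
  refine ⟨fun h => ⟨fun j _ => h j, h b⟩, fun h j => ?_⟩
  by_cases hj : j = b
  · rw [hj]; exact h.2
  · exact h.1 j hj

open Classical in
lemma card_Zs (b : Fin B) : ((Zs g B).card : ℝ) = zz g * zz g ^ (B - 1) := by
  have h := sum_oth g b (fun x => if g x = false then 1 else 0)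
  have h1 : ∑ x, (if g x = false then (1 : ℝ) else 0) = zz g := by
    rw [← Finset.sum_filter, Finset.sum_const, nsmul_eq_mul, mul_one]; rfl
  rw [h1] at h
  rw [← h, Finset.card_eq_sum_ones]
  push_cast
  rw [← Finset.sum_filter_add_sum_filter_not univ (fun X => X ∈ Zs g B)
    (fun X => if Oth g b X then (if g (X b) = false then (1 : ℝ) else 0) else 0)]
  have h2 : ∀ X ∈ univ.filter (fun X => X ∈ Zs g B),
      (if Oth g b X then (if g (X b) = false then (1 : ℝ) else 0) else 0) = 1 := by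
    intro X hX
    obtain ⟨h3, h4⟩ := (mem_Zs' g b).1 (Finset.mem_filter.1 hX).2
    rw [if_pos h3, if_pos h4]
  have h3 : ∀ X ∈ univ.filter (fun X => ¬ X ∈ Zs g B),
      (if Oth g b X then (if g (X b) = false then (1 : ℝ) else 0) else 0) = 0 := by
    intro X hX
    have h4 := (Finset.mem_filter.1 hX).2
    rw [mem_Zs' g b] at h4
    by_cases h5 : Oth g b X
    · rw [if_pos h5, if_neg fun h6 => h4 ⟨h5, h6⟩]
    · rw [if_neg h5]
  rw [Finset.sum_congr rfl h2, Finset.sum_congr rfl h3, Finset.sum_const_zero, add_zero]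
  congr 1
  ext X
  simp

open Classical in
lemma card_Os (b : Fin B) : ((Os g b).card : ℝ) = oo g * zz g ^ (B - 1) := by
  have h := sum_oth g b (fun x => if g x = true then 1 else 0)
  have h1 : ∑ x, (if g x = true then (1 : ℝ) else 0) = oo g := by
    rw [← Finset.sum_filter, Finset.sum_const, nsmul_eq_mul, mul_one]; rfl
  rw [h1] at h
  rw [← h, Finset.card_eq_sum_ones]
  push_cast
  rw [← Finset.sum_filter_add_sum_filter_not univ (fun X => X ∈ Os g b)
    (fun X => if Oth g b X then (if g (X b) = true then (1 : ℝ) else 0) else 0)]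
  have h2 : ∀ X ∈ univ.filter (fun X => X ∈ Os g b),
      (if Oth g b X then (if g (X b) = true then (1 : ℝ) else 0) else 0) = 1 := by
    intro X hX
    obtain ⟨h3, h4⟩ := (mem_Os g).1 (Finset.mem_filter.1 hX).2
    rw [if_pos h3, if_pos h4]
  have h3 : ∀ X ∈ univ.filter (fun X => ¬ X ∈ Os g b),
      (if Oth g b X then (if g (X b) = true then (1 : ℝ) else 0) else 0) = 0 := by
    intro X hX
    have h4 := (Finset.mem_filter.1 hX).2
    rw [mem_Os g] at h4
    by_cases h5 : Oth g b X
    · rw [if_pos h5, if_neg fun h6 => h4 ⟨h5, h6⟩]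
    · rw [if_neg h5]
  rw [Finset.sum_congr rfl h2, Finset.sum_congr rfl h3, Finset.sum_const_zero, add_zero]
  congr 1
  ext X
  simp

open Classical in
/-- **One block.** A set that does not see the value of block `b` contains nearly as many words with
the value one there as with the value zero. -/
lemma one_block (b : Fin B) (A : Finset (Fin B → α)) {η : ℝ}
    (hbias : ∀ X : Fin B → α, |∑ x ∈ univ.filter (fun x => Function.update X b x ∈ A), (sg (g x) : ℝ)| ≤ η)
    (hα : 0 < Fintype.card α) :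
    ((A ∩ Zs g B).card : ℝ) ≤ ((A ∩ Os g b).card : ℝ) + η * zz g ^ (B - 1) := by
  have h1 := sum_update b (fun X : Fin B → α => if X ∈ A ∧ Oth g b X then (sg (g (X b)) : ℝ) else 0)
  have h2 : ∑ X : Fin B → α, (if X ∈ A ∧ Oth g b X then (sg (g (X b)) : ℝ) else 0) =
      ((A ∩ Zs g B).card : ℝ) - ((A ∩ Os g b).card : ℝ) := by
    have h3 : ∀ X : Fin B → α, (if X ∈ A ∧ Oth g b X then (sg (g (X b)) : ℝ) else 0) =
        (if X ∈ A ∩ Zs g B then 1 else 0) - (if X ∈ A ∩ Os g b then 1 else 0) := by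
      intro X
      have e1 : X ∈ A ∩ Zs g B ↔ X ∈ A ∧ Oth g b X ∧ g (X b) = false := by
        rw [Finset.mem_inter, mem_Zs' g b]
      have e2 : X ∈ A ∩ Os g b ↔ X ∈ A ∧ Oth g b X ∧ g (X b) = true := by
        rw [Finset.mem_inter, mem_Os]
      simp only [e1, e2]
      by_cases hA : X ∈ A <;> by_cases hO : Oth g b X <;> cases hg : g (X b) <;> simp [hA, hO, sg]
    rw [Finset.sum_congr rfl fun X _ => h3 X, Finset.sum_sub_distrib, ← Finset.sum_filter,
      ← Finset.sum_filter, Finset.sum_const, Finset.sum_const, nsmul_eq_mul, nsmul_eq_mul, mul_one, mul_one]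
    congr 2 <;> congr 1 <;> ext X <;> simp
  have h4 : ∑ X : Fin B → α, ∑ x : α, (if Function.update X b x ∈ A ∧ Oth g b (Function.update X b x) then
      (sg (g (Function.update X b x b)) : ℝ) else 0) ≤ ∑ X : Fin B → α, (if Oth g b X then η else 0) := by
    refine Finset.sum_le_sum fun X _ => ?_
    have h5 : ∀ x : α, (if Function.update X b x ∈ A ∧ Oth g b (Function.update X b x) then
        (sg (g (Function.update X b x b)) : ℝ) else 0) =
        if Oth g b X then (if Function.update X b x ∈ A then (sg (g x) : ℝ) else 0) else 0 := by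
      intro x
      rw [oth_update, Function.update_self]
      by_cases hO : Oth g b X <;> simp [hO]
    rw [Finset.sum_congr rfl fun x _ => h5 x]
    by_cases hO : Oth g b X
    · simp only [if_pos hO]
      rw [← Finset.sum_filter]
      exact (le_abs_self _).trans (hbias X)
    · simp [hO]
  have h6 : ∑ X : Fin B → α, (if Oth g b X then η else 0) = (Fintype.card α : ℝ) * (η * zz g ^ (B - 1)) := by
    rw [sum_oth g b (fun _ => η), Finset.sum_const, Finset.card_univ, nsmul_eq_mul]
    ring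
  rw [h1, h2, h6] at h4
  have hc : (0 : ℝ) < Fintype.card α := by exact_mod_cast hα
  have := le_of_mul_le_mul_left h4 hc
  linarith

open Classical in
/-- the hard distribution -/
noncomputable def wt (X : Fin B → α) : ℝ :=
  (if X ∈ Zs g B then 1 / (2 * ((Zs g B).card : ℝ)) else 0) +
    ∑ b : Fin B, if X ∈ Os g b then 1 / (2 * B * ((Os g b).card : ℝ)) else 0

lemma wt_nonneg (X : Fin B → α) : 0 ≤ wt g X := by
  unfold wt
  refine add_nonneg ?_ (Finset.sum_nonneg fun b _ => ?_)
  · split_ifs <;> positivity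
  · split_ifs <;> positivity

open Classical in
lemma sum_wt (G : Finset (Fin B → α)) :
    ∑ X ∈ G, wt g X = ((G ∩ Zs g B).card : ℝ) / (2 * ((Zs g B).card : ℝ)) +
      ∑ b : Fin B, ((G ∩ Os g b).card : ℝ) / (2 * B * ((Os g b).card : ℝ)) := by
  unfold wt
  rw [Finset.sum_add_distrib, Finset.sum_comm]
  congr 1
  · rw [← Finset.sum_filter, Finset.sum_const, nsmul_eq_mul, Finset.filter_mem_eq_inter]
    ring
  · refine Finset.sum_congr rfl fun b _ => ?_
    rw [← Finset.sum_filter, Finset.sum_const, nsmul_eq_mul, Finset.filter_mem_eq_inter]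
    ring

/-- the numbers of the averaging -/
lemma avg_num {M η θ z o s : ℝ} (hM0 : 0 < M) (hη0 : 0 ≤ η) (hη : η ≤ 1 / 4) (hθ0 : 0 ≤ θ) (hθ : θ ≤ 1)
    (hzo : z + o = M) (hd1 : -(η * M) ≤ z - o) (hop : 0 < o) (hs1 : s ≤ 1) (hsn : 0 ≤ s) (ho0 : M / 4 ≤ o) :
    s / 2 + (1 / 2 + η * M / (2 * o) - (1 - θ) * s * (z / o) / 2) ≤ 1 / 2 + θ / 2 + 3 * η := by
  have e3 : η * M / (2 * o) ≤ 2 * η := by
    rw [div_le_iff₀ (by positivity)]
    nlinarith
  have e4 : 1 - 2 * η ≤ z / o := by
    rw [le_div_iff₀ hop]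
    have h1 : o * (1 - η) ≤ z * (1 + η) := by rw [← hzo] at hd1; linarith
    have h2 : ((1 - 2 * η) * o) * (1 + η) ≤ o * (1 - η) := by nlinarith [mul_nonneg hop.le (mul_nonneg hη0 hη0)]
    exact le_of_mul_le_mul_right (h2.trans h1) (by linarith)
  have e5 : (1 - θ) * s * (1 - 2 * η) ≤ (1 - θ) * s * (z / o) :=
    mul_le_mul_of_nonneg_left e4 (mul_nonneg (by linarith) hsn)
  have e6 : s * θ ≤ θ := by nlinarith
  have e7 : (1 - θ) * s * η ≤ η := by
    have h1 : (1 - θ) * s ≤ 1 := by nlinarith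
    nlinarith [mul_nonneg (show (0 : ℝ) ≤ 1 - θ by linarith) hsn]
  nlinarith

/-- **Averaging.** -/
theorem avg_bound (hB : 0 < B) {M η θ : ℝ} (hM : (Fintype.card α : ℝ) = M) (hM0 : 0 < M) (hη0 : 0 ≤ η)
    (hη : η ≤ 1 / 4) (hθ0 : 0 ≤ θ) (hθ : θ ≤ 1)
    (A : Fin B → Finset (Fin B → α)) (G : Finset (Fin B → α))
    (hbias : ∀ b (X : Fin B → α) (S : Finset α), (∀ x, x ∈ S ↔ Function.update X b x ∈ A b) →
      |∑ x ∈ S, (sg (g x) : ℝ)| ≤ η * M)
    (hall : |∑ x, (sg (g x) : ℝ)| ≤ η * M)
    (h0 : ∀ X ∈ G, (∀ b, g (X b) = false) → ∀ S : Finset (Fin B), (∀ b, b ∈ S ↔ X ∈ A b) →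
      (1 - θ) * B ≤ S.card)
    (h1 : ∀ X ∈ G, ∀ b, g (X b) = true → X ∉ A b) :
    ∑ X ∈ G, wt g X ≤ 1 / 2 + θ / 2 + 3 * η := by
  classical
  have hα : 0 < Fintype.card α := by
    have : (0 : ℝ) < Fintype.card α := by rw [hM]; exact hM0
    exact_mod_cast this
  have b0 : Fin B := ⟨0, hB⟩
  obtain ⟨z, hz⟩ : ∃ z, z = zz g := ⟨_, rfl⟩
  obtain ⟨o, ho⟩ : ∃ o, o = oo g := ⟨_, rfl⟩
  have hzo : z + o = M := by
    rw [hz, ho, ← hM]
    unfold zz oo
    rw [← Nat.cast_add]
    congr 1
    have := Finset.card_filter_add_card_filter_not (s := (univ : Finset α)) (fun x => g x = false)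
    rw [Finset.card_univ] at this
    rw [← this]
    congr 2
    ext x
    simp
  have hdiff : |z - o| ≤ η * M := by
    have h2 : ∑ x, (sg (g x) : ℝ) = z - o := by
      have h3 : ∀ x, (sg (g x) : ℝ) = (if g x = false then 1 else 0) - (if g x = true then 1 else 0) := by
        intro x
        cases g x <;> simp [sg]
      rw [Finset.sum_congr rfl fun x _ => h3 x, Finset.sum_sub_distrib, ← Finset.sum_filter,
        ← Finset.sum_filter, Finset.sum_const, Finset.sum_const, nsmul_eq_mul, nsmul_eq_mul, mul_one, mul_one,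
        hz, ho]
      rfl
    rw [← h2]
    exact hall
  obtain ⟨hd1, hd2⟩ := abs_le.1 hdiff
  have hz0 : M / 4 ≤ z := by nlinarith
  have ho0 : M / 4 ≤ o := by nlinarith
  have hzp : 0 < z := by linarith
  have hop : 0 < o := by linarith
  obtain ⟨Q, hQ⟩ : ∃ Q, Q = z ^ (B - 1) := ⟨_, rfl⟩
  have hQp : 0 < Q := by rw [hQ]; positivity
  have hZs : ((Zs g B).card : ℝ) = z * Q := by rw [card_Zs g b0, hQ, hz]
  have hOs : ∀ b : Fin B, ((Os g b).card : ℝ) = o * Q := fun b => by rw [card_Os g b, hQ, ho, hz]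
  have hBp : (0 : ℝ) < B := by exact_mod_cast hB
  obtain ⟨s0, hs0⟩ : ∃ s0 : ℝ, s0 = ((G ∩ Zs g B).card : ℝ) := ⟨_, rfl⟩
  have hs0' : s0 ≤ z * Q := by
    rw [hs0, ← hZs]
    exact_mod_cast Finset.card_le_card Finset.inter_subset_right
  have hs00 : 0 ≤ s0 := by rw [hs0]; positivity
  -- the blocks of the words of `G ∩ Zs`
  have hk1 : (1 - θ) * B * s0 ≤ ∑ b : Fin B, ((A b ∩ Zs g B).card : ℝ) := by
    have h2 : ∑ b : Fin B, ((A b ∩ (G ∩ Zs g B)).card : ℝ) =
        ∑ X ∈ G ∩ Zs g B, ((univ.filter fun b => X ∈ A b).card : ℝ) := by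
      have h3 : ∀ b : Fin B, ((A b ∩ (G ∩ Zs g B)).card : ℝ) = ∑ X ∈ G ∩ Zs g B, if X ∈ A b then (1 : ℝ) else 0 := by
        intro b
        rw [← Finset.sum_filter, Finset.sum_const, nsmul_eq_mul, mul_one]
        congr 2
        ext X
        simp only [Finset.mem_inter, Finset.mem_filter]
        tauto
      rw [Finset.sum_congr rfl fun b _ => h3 b, Finset.sum_comm]
      refine Finset.sum_congr rfl fun X _ => ?_
      rw [← Finset.sum_filter, Finset.sum_const, nsmul_eq_mul, mul_one]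
    have h4 : (1 - θ) * B * s0 ≤ ∑ b : Fin B, ((A b ∩ (G ∩ Zs g B)).card : ℝ) := by
      rw [h2, hs0, mul_comm, ← nsmul_eq_mul]
      refine Finset.card_nsmul_le_sum _ _ _ fun X hX => ?_
      obtain ⟨hX1, hX2⟩ := Finset.mem_inter.1 hX
      exact h0 X hX1 ((mem_Zs g).1 hX2) _ fun b => by simp
    refine h4.trans (Finset.sum_le_sum fun b _ => ?_)
    exact_mod_cast Finset.card_le_card (Finset.inter_subset_inter_left Finset.inter_subset_right)
  have hk2 : ∀ b : Fin B, ((G ∩ Os g b).card : ℝ) + ((A b ∩ Os g b).card : ℝ) ≤ o * Q := by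
    intro b
    rw [← hOs b, ← Nat.cast_add, ← Finset.card_union_of_disjoint]
    · exact_mod_cast Finset.card_le_card
        (Finset.union_subset Finset.inter_subset_right Finset.inter_subset_right)
    · rw [Finset.disjoint_left]
      intro X hX hX'
      exact h1 X (Finset.mem_inter.1 hX).1 b ((mem_Os g).1 (Finset.mem_inter.1 hX).2).2
        (Finset.mem_inter.1 hX').1
  have hk3 : ∀ b : Fin B, ((A b ∩ Zs g B).card : ℝ) ≤ ((A b ∩ Os g b).card : ℝ) + η * M * Q := by
    intro b
    have := one_block g b (A b) (η := η * M) (fun X => hbias b X _ fun x => by simp) hα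
    rw [← hz, ← hQ] at this
    convert this using 3
  have hk4 : ∑ b : Fin B, ((G ∩ Os g b).card : ℝ) ≤ B * (o * Q) + B * (η * M * Q) - (1 - θ) * B * s0 := by
    have h2 : ∑ b : Fin B, ((G ∩ Os g b).card : ℝ) ≤
        ∑ b : Fin B, (o * Q + η * M * Q - ((A b ∩ Zs g B).card : ℝ)) := by
      refine Finset.sum_le_sum fun b _ => ?_
      have e1 := hk2 b
      have e2 := hk3 b
      linarith
    rw [Finset.sum_sub_distrib, Finset.sum_const, Finset.card_univ, Fintype.card_fin, nsmul_eq_mul] at h2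
    linarith
  rw [sum_wt, hZs, ← hs0]
  have h5 : ∑ b : Fin B, ((G ∩ Os g b).card : ℝ) / (2 * B * ((Os g b).card : ℝ)) =
      (∑ b : Fin B, ((G ∩ Os g b).card : ℝ)) / (2 * B * (o * Q)) := by
    rw [Finset.sum_div]
    exact Finset.sum_congr rfl fun b _ => by rw [hOs]
  rw [h5]
  have h6 : (∑ b : Fin B, ((G ∩ Os g b).card : ℝ)) / (2 * B * (o * Q)) ≤
      1 / 2 + η * M / (2 * o) - (1 - θ) * s0 / (2 * (o * Q)) := by
    rw [div_le_iff₀ (by positivity)]
    refine hk4.trans (le_of_eq ?_)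
    field_simp
  refine (add_le_add_right h6 _).trans ?_
  -- the numbers
  obtain ⟨s, hs⟩ : ∃ s, s = s0 / (z * Q) := ⟨_, rfl⟩
  have hs1 : s ≤ 1 := by rw [hs, div_le_one (by positivity)]; exact hs0'
  have hsn : 0 ≤ s := by rw [hs]; positivity
  have e1 : s0 / (2 * (z * Q)) = s / 2 := by rw [hs]; field_simp
  have e2 : (1 - θ) * s0 / (2 * (o * Q)) = (1 - θ) * s * (z / o) / 2 := by rw [hs]; field_simp
  rw [e1, e2]
  exact avg_num hM0 hη0 hη hθ0 hθ hzo hd1 hop hs1 hsn ho0

/-- the hard distribution is a probability distribution -/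
theorem sum_wt_univ (hB : 0 < B) (hz : 0 < zz g) (ho : 0 < oo g) : ∑ X : Fin B → α, wt g X = 1 := by
  classical
  have b0 : Fin B := ⟨0, hB⟩
  have hBp : (0 : ℝ) < B := by exact_mod_cast hB
  rw [sum_wt]
  have h1 : ((univ ∩ Zs g B).card : ℝ) / (2 * ((Zs g B).card : ℝ)) = 1 / 2 := by
    rw [Finset.univ_inter, card_Zs g b0]
    have : 0 < zz g * zz g ^ (B - 1) := by positivity
    field_simp
  have h2 : ∀ b : Fin B, ((univ ∩ Os g b).card : ℝ) / (2 * B * ((Os g b).card : ℝ)) = 1 / (2 * B) := by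
    intro b
    rw [Finset.univ_inter, card_Os g b]
    have : 0 < oo g * zz g ^ (B - 1) := by positivity
    field_simp
  rw [h1, Finset.sum_congr rfl fun b _ => h2 b, Finset.sum_const, Finset.card_univ, Fintype.card_fin,
    nsmul_eq_mul]
  field_simp
  norm_num

end Pool.Agent.KH
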