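import Pool.Agent.KH.Avg

/-! Averaging over the blocks, for functions all of whose slices (all blocks but one are fixed) are
balanced. -/

namespace Pool.Agent.KH

open Finset Pool.Agent.SemRO Pool.Agent.KNL Pool.Agent.KD Pool.Agent.KE

section
variable {B n N : ℕ} {pos : Fin B → Fin n → Fin N}

/-- a sum is small if the sums over all slices are small -/
theorem bias_slice {δ : ℝ} (b : Fin B) (φ : (Fin B → Fin n → Bool) → ℝ)
    (h : ∀ X, |∑ x : Fin n → Bool, φ (Function.update X b x)| ≤ δ * 2 ^ n) :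
    |∑ X, φ X| ≤ δ * 2 ^ (n * B) := by
  have h2 : (0 : ℝ) < 2 ^ n := by positivity
  have h3 : |(2 : ℝ) ^ n * ∑ X, φ X| ≤ 2 ^ n * (δ * 2 ^ (n * B)) := by
    rw [← sum_upd b]
    refine (Finset.abs_sum_le_sum_abs _ _).trans ?_
    calc ∑ X : Fin B → Fin n → Bool, |∑ x : Fin n → Bool, φ (Function.update X b x)| ≤
          ∑ _X : Fin B → Fin n → Bool, δ * 2 ^ n := Finset.sum_le_sum fun X _ => h X
      _ = 2 ^ n * (δ * 2 ^ (n * B)) := by
        rw [Finset.sum_const, Finset.card_univ, Fintype.card_fun, Fintype.card_fun, Fintype.card_bool,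
          Fintype.card_fin, Fintype.card_fin, nsmul_eq_mul]
        push_cast
        rw [pow_mul]
        ring
  rw [abs_mul, abs_of_pos h2] at h3
  exact le_of_mul_le_mul_left h3 h2

open Classical in
/-- **Averaging over the blocks.** -/
theorem avgx {T k' : ℕ} {δ η : ℝ} (hB : 1 ≤ B) (G : (Fin B → Fin n → Bool) → Bool)
    (hg : ∀ b X, |∑ x : Fin n → Bool, (sg (G (Function.update X b x)) : ℝ)| ≤ δ * 2 ^ n)
    (hpos : ∀ b b' i i', pos b i = pos b' i' → b = b' ∧ i = i') {z0 : Fin N → Bool} (Lg : List Bool → Prop)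
    (hL : ∀ X, Lg (List.ofFn (wd pos z0 X)) ↔ G X = false)
    (ι : Type) [Fintype ι] (w : ι → ℝ) (V Γ : ι → Type) [∀ i, Fintype (V i)]
    (P : ∀ i, SBP (V i) (Γ i) (Fin N)) (hw0 : ∀ i, 0 ≤ w i) (hw1 : ∑ i, w i = 1)
    (hblock : ∀ i b X (A : Finset (Fin n → Bool)),
      (∀ x, x ∈ A ↔ ∃ l, (P i).AccWalk (Function.extend (pos b) x (wd pos z0 X)) l ∧
        (l.filter fun v => decide (v ∈ Set.range (pos b))).length ≤ k' * n) →
      |∑ x ∈ A, (sg (G (Function.update X b x)) : ℝ)| ≤ δ * 2 ^ n)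
    (hT : (T : ℝ) ≤ η / 2 * (B * (k' * n))) (hη : 0 < η) (hη2 : η ≤ 1 / 2) (hδ : 4 * δ ≤ η)
    (hc : ∀ y, 1 / 2 + η ≤ ∑ i, if Correct Lg (P i) T y then w i else 0) : False := by
  have hBr : (0 : ℝ) < B := by
    have : 0 < B := hB
    exact_mod_cast this
  -- the indicators
  obtain ⟨A, hA⟩ : ∃ A : ι → Fin B → (Fin B → Fin n → Bool) → ℝ, A = fun i b X =>
      if ∃ l, (P i).AccWalk (wd pos z0 X) l ∧
        (l.filter fun v => decide (v ∈ Set.range (pos b))).length ≤ k' * n then 1 else 0 := ⟨_, rfl⟩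
  obtain ⟨c, hcd⟩ : ∃ c : ι → (Fin B → Fin n → Bool) → ℝ, c = fun i X =>
      if Correct Lg (P i) T (wd pos z0 X) then 1 else 0 := ⟨_, rfl⟩
  have hA0 : ∀ i b X, 0 ≤ A i b X := by intro i b X; rw [hA]; simp only; split_ifs <;> norm_num
  have hA1 : ∀ i b X, A i b X ≤ 1 := by intro i b X; rw [hA]; simp only; split_ifs <;> norm_num
  -- the points of both values
  obtain ⟨Ze, hZe⟩ : ∃ Ze : Finset (Fin B → Fin n → Bool), Ze = univ.filter fun X => G X = false := ⟨_, rfl⟩
  obtain ⟨On, hOn⟩ : ∃ On : Finset (Fin B → Fin n → Bool), On = univ.filter fun X => ¬ G X = false := ⟨_, rfl⟩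
  have hsplit : ∀ φ : (Fin B → Fin n → Bool) → ℝ,
      ∑ X, (sg (G X) : ℝ) * φ X = ∑ X ∈ Ze, φ X - ∑ X ∈ On, φ X := by
    intro φ
    rw [← Finset.sum_filter_add_sum_filter_not univ (fun X => G X = false) (fun X => (sg (G X) : ℝ) * φ X), ← hZe,
      ← hOn, sub_eq_add_neg, ← Finset.sum_neg_distrib]
    congr 1
    · refine Finset.sum_congr rfl fun X hX => ?_
      rw [hZe] at hX
      rw [(Finset.mem_filter.1 hX).2]
      simp [sg]
    · refine Finset.sum_congr rfl fun X hX => ?_
      rw [hOn] at hX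
      have h1 : G X = true := by
        have := (Finset.mem_filter.1 hX).2
        simpa using this
      rw [h1]
      simp [sg]
  obtain ⟨M, hM⟩ : ∃ M : ℝ, M = 2 ^ (n * B) := ⟨_, rfl⟩
  have hM0 : 0 < M := by rw [hM]; positivity
  have hcard : (Ze.card : ℝ) + On.card = M := by
    have h1 := Finset.card_filter_add_card_filter_not (s := (univ : Finset (Fin B → Fin n → Bool)))
      (fun X => G X = false)
    rw [← hZe, ← hOn, Finset.card_univ, Fintype.card_fun, Fintype.card_fun, Fintype.card_bool, Fintype.card_fin,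
      Fintype.card_fin, ← pow_mul] at h1
    rw [hM]
    exact_mod_cast h1
  have b0 : Fin B := ⟨0, hB⟩
  have hdiff : |(Ze.card : ℝ) - On.card| ≤ δ * M := by
    have h1 := bias_slice (δ := δ) b0 (fun X => (sg (G X) : ℝ)) (fun X => hg b0 X)
    have h2 := hsplit fun _ => 1
    simp only [mul_one, Finset.sum_const, nsmul_eq_mul] at h2
    rw [h2, ← hM] at h1
    exact h1
  have hδ0 : 0 ≤ δ := by
    have h1 := (abs_nonneg _).trans hdiff
    nlinarith
  -- one program
  have hprog : ∀ i, (1 - η / 2) * B * ∑ X ∈ Ze, c i X - B * ∑ X ∈ On, (1 - c i X) ≤ B * (δ * M) := by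
    intro i
    have h1 : ∀ b, ∑ X, (sg (G X) : ℝ) * A i b X ≤ δ * M := by
      intro b
      have h2 := bias_slice (δ := δ) b (fun X => (sg (G X) : ℝ) * A i b X) (fun X => by
        obtain ⟨Af, hAf⟩ : ∃ Af : Finset (Fin n → Bool), Af = univ.filter fun x =>
          ∃ l, (P i).AccWalk (Function.extend (pos b) x (wd pos z0 X)) l ∧
            (l.filter fun v => decide (v ∈ Set.range (pos b))).length ≤ k' * n := ⟨_, rfl⟩
        have h3 := hblock i b X Af (fun x => by
          rw [hAf, Finset.mem_filter]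
          exact ⟨fun h => h.2, fun h => ⟨Finset.mem_univ _, h⟩⟩)
        have h4 : ∑ x : Fin n → Bool, (sg (G (Function.update X b x)) : ℝ) * A i b (Function.update X b x) =
            ∑ x ∈ Af, (sg (G (Function.update X b x)) : ℝ) := by
          rw [hAf, Finset.sum_filter]
          refine Finset.sum_congr rfl fun x _ => ?_
          rw [hA]
          simp only
          rw [extend_wd hpos]
          split_ifs <;> simp
        rw [h4]
        exact h3)
      rw [← hM] at h2
      exact (abs_le.1 h2).2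
    have h2 : ∑ b, ∑ X, (sg (G X) : ℝ) * A i b X ≤ B * (δ * M) := by
      calc ∑ b, ∑ X, (sg (G X) : ℝ) * A i b X ≤ ∑ _b : Fin B, δ * M := Finset.sum_le_sum fun b _ => h1 b
        _ = B * (δ * M) := by rw [Finset.sum_const, Finset.card_univ, Fintype.card_fin, nsmul_eq_mul]
    refine le_trans ?_ h2
    have e0 : ∑ b, ∑ X, (sg (G X) : ℝ) * A i b X =
        ∑ X ∈ Ze, ∑ b, A i b X - ∑ X ∈ On, ∑ b, A i b X := by
      rw [Finset.sum_congr rfl fun b _ => hsplit (A i b), Finset.sum_sub_distrib,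
        Finset.sum_comm (s := univ) (t := Ze), Finset.sum_comm (s := univ) (t := On)]
    rw [e0, Finset.mul_sum, Finset.mul_sum]
    refine sub_le_sub (Finset.sum_le_sum fun X hX => ?_) (Finset.sum_le_sum fun X hX => ?_)
    · -- words of the language
      rw [hZe] at hX
      have hz := (Finset.mem_filter.1 hX).2
      rw [hcd]
      simp only
      split_ifs with hcor
      · obtain ⟨l, hl⟩ := hcor.1.2 ((hL X).2 hz)
        have hlT := hcor.2 l hl
        obtain ⟨Hv, hHv⟩ : ∃ Hv : Finset (Fin B), Hv = univ.filter fun b =>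
            ¬ (l.filter fun v => decide (v ∈ Set.range (pos b))).length ≤ k' * n := ⟨_, rfl⟩
        have h4 : Hv.card * (k' * n + 1) ≤ T := by
          calc Hv.card * (k' * n + 1) = ∑ b ∈ Hv, (k' * n + 1) := by
                rw [Finset.sum_const, smul_eq_mul]
            _ ≤ ∑ b ∈ Hv, (l.filter fun v => decide (v ∈ Set.range (pos b))).length := by
                refine Finset.sum_le_sum fun b hb => ?_
                rw [hHv] at hb
                have := (Finset.mem_filter.1 hb).2
                omega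
            _ ≤ ∑ b, (l.filter fun v => decide (v ∈ Set.range (pos b))).length :=
                Finset.sum_le_sum_of_subset (Finset.subset_univ _)
            _ ≤ l.length := sum_filter_length hpos l
            _ ≤ T := hlT
        have h5 : (Hv.card : ℝ) ≤ η / 2 * B := by
          have h6 : (Hv.card : ℝ) * (k' * n + 1) ≤ T := by exact_mod_cast h4
          have h7 : (0 : ℝ) ≤ k' * n := by positivity
          have h8 : (Hv.card : ℝ) * (k' * n + 1) ≤ η / 2 * B * (k' * n + 1) := by
            have h9 : (0 : ℝ) ≤ η / 2 * B := by positivity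
            calc (Hv.card : ℝ) * (k' * n + 1) ≤ T := h6
              _ ≤ η / 2 * (B * (k' * n)) := hT
              _ ≤ η / 2 * B * (k' * n + 1) := by nlinarith
          exact le_of_mul_le_mul_right h8 (by linarith)
        have h7 : ∑ b, A i b X = ((univ.filter fun b => ∃ l, (P i).AccWalk (wd pos z0 X) l ∧
            (l.filter fun v => decide (v ∈ Set.range (pos b))).length ≤ k' * n).card : ℝ) := by
          rw [hA]
          simp only [Finset.sum_boole]
        rw [h7]
        have h8 : Hvᶜ ⊆ univ.filter fun b => ∃ l, (P i).AccWalk (wd pos z0 X) l ∧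
            (l.filter fun v => decide (v ∈ Set.range (pos b))).length ≤ k' * n := by
          intro b hb
          rw [Finset.mem_compl, hHv, Finset.mem_filter, not_and, not_not] at hb
          exact Finset.mem_filter.2 ⟨Finset.mem_univ _, l, hl, hb (Finset.mem_univ _)⟩
        have h9 := Finset.card_le_card h8
        rw [Finset.card_compl, Fintype.card_fin] at h9
        have h10 : Hv.card ≤ B := by
          have := Finset.card_le_univ Hv
          rwa [Fintype.card_fin] at this
        have h11 : B ≤ Hv.card + (univ.filter fun b => ∃ l, (P i).AccWalk (wd pos z0 X) l ∧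
            (l.filter fun v => decide (v ∈ Set.range (pos b))).length ≤ k' * n).card := by omega
        have h12 : (B : ℝ) ≤ Hv.card + (univ.filter fun b => ∃ l, (P i).AccWalk (wd pos z0 X) l ∧
            (l.filter fun v => decide (v ∈ Set.range (pos b))).length ≤ k' * n).card := by
          exact_mod_cast h11
        linarith
      · rw [mul_zero]
        exact Finset.sum_nonneg fun b _ => hA0 i b X
    · -- the other words
      rw [hOn] at hX
      have hz := (Finset.mem_filter.1 hX).2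
      rw [hcd]
      simp only
      split_ifs with hcor
      · have h3 : ∀ b, A i b X = 0 := by
          intro b
          rw [hA]
          simp only
          rw [if_neg]
          rintro ⟨l, hl, _⟩
          exact hz ((hL X).1 (hcor.1.1 ⟨l, hl⟩))
        rw [Finset.sum_congr rfl fun b _ => h3 b]
        simp
      · calc ∑ b, A i b X ≤ ∑ _b : Fin B, (1 : ℝ) := Finset.sum_le_sum fun b _ => hA1 i b X
          _ = B * (1 - 0) := by simp
  -- the distribution
  have hcX : ∀ X, 1 / 2 + η ≤ ∑ i, w i * c i X := by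
    intro X
    refine (hc (wd pos z0 X)).trans (le_of_eq ?_)
    refine Finset.sum_congr rfl fun i _ => ?_
    rw [hcd]
    simp only
    split_ifs <;> simp
  have hsum : (1 - η / 2) * B * ∑ X ∈ Ze, ∑ i, w i * c i X - B * ∑ X ∈ On, (1 - ∑ i, w i * c i X) ≤
      B * (δ * M) := by
    have e1 : (1 - η / 2) * B * ∑ X ∈ Ze, ∑ i, w i * c i X - B * ∑ X ∈ On, (1 - ∑ i, w i * c i X) =
        ∑ i, w i * ((1 - η / 2) * B * ∑ X ∈ Ze, c i X - B * ∑ X ∈ On, (1 - c i X)) := by
      have e2 : ∑ X ∈ On, (1 - ∑ i, w i * c i X) = ∑ i, w i * ∑ X ∈ On, (1 - c i X) := by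
        have e3 : ∀ X, 1 - ∑ i, w i * c i X = ∑ i, w i * (1 - c i X) := by
          intro X
          simp only [mul_sub, mul_one, Finset.sum_sub_distrib, hw1]
        rw [Finset.sum_congr rfl fun X _ => e3 X, Finset.sum_comm]
        refine Finset.sum_congr rfl fun i _ => ?_
        rw [Finset.mul_sum]
      have e4 : ∑ X ∈ Ze, ∑ i, w i * c i X = ∑ i, w i * ∑ X ∈ Ze, c i X := by
        rw [Finset.sum_comm]
        refine Finset.sum_congr rfl fun i _ => ?_
        rw [Finset.mul_sum]
      rw [e2, e4, Finset.mul_sum, Finset.mul_sum, ← Finset.sum_sub_distrib]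
      refine Finset.sum_congr rfl fun i _ => ?_
      ring
    rw [e1]
    calc ∑ i, w i * ((1 - η / 2) * B * ∑ X ∈ Ze, c i X - B * ∑ X ∈ On, (1 - c i X)) ≤
          ∑ i, w i * (B * (δ * M)) := Finset.sum_le_sum fun i _ => mul_le_mul_of_nonneg_left (hprog i) (hw0 i)
      _ = B * (δ * M) := by rw [← Finset.sum_mul, hw1, one_mul]
  have h1 : (Ze.card : ℝ) * (1 / 2 + η) ≤ ∑ X ∈ Ze, ∑ i, w i * c i X := by
    calc (Ze.card : ℝ) * (1 / 2 + η) = ∑ _X ∈ Ze, (1 / 2 + η) := by rw [Finset.sum_const, nsmul_eq_mul]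
      _ ≤ _ := Finset.sum_le_sum fun X _ => hcX X
  have h2 : ∑ X ∈ On, (1 - ∑ i, w i * c i X) ≤ On.card * (1 / 2 - η) := by
    calc ∑ X ∈ On, (1 - ∑ i, w i * c i X) ≤ ∑ _X ∈ On, (1 / 2 - η) :=
          Finset.sum_le_sum fun X _ => by have := hcX X; linarith
      _ = _ := by rw [Finset.sum_const, nsmul_eq_mul]
  have h3 : (1 - η / 2) * B * ((Ze.card : ℝ) * (1 / 2 + η)) - B * (On.card * (1 / 2 - η)) ≤ B * (δ * M) := by
    have h4 : (0 : ℝ) ≤ (1 - η / 2) * B := mul_nonneg (by linarith) hBr.le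
    have h5 := mul_le_mul_of_nonneg_left h1 h4
    have h6 := mul_le_mul_of_nonneg_left h2 hBr.le
    linarith
  have h4 : (1 - η / 2) * ((Ze.card : ℝ) * (1 / 2 + η)) - On.card * (1 / 2 - η) ≤ δ * M := by
    have h5 : B * ((1 - η / 2) * ((Ze.card : ℝ) * (1 / 2 + η)) - On.card * (1 / 2 - η)) ≤ B * (δ * M) := by
      refine le_trans (le_of_eq ?_) h3
      ring
    exact le_of_mul_le_mul_left h5 hBr
  have h5 : (1 / 2 + η / 2) ≤ (1 - η / 2) * (1 / 2 + η) := by nlinarith
  have h6 : (1 / 2 + η / 2) * Ze.card - (1 / 2 - η) * On.card ≤ δ * M := by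
    have h7 := mul_le_mul_of_nonneg_right h5 (Nat.cast_nonneg (α := ℝ) Ze.card)
    linarith
  have h7 := (abs_le.1 hdiff).1
  have h8 : (Ze.card : ℝ) = M - On.card := by linarith
  have h9 : (On.card : ℝ) ≤ (1 + δ) * M / 2 := by linarith
  have h10 : 0 ≤ (On.card : ℝ) := Nat.cast_nonneg _
  rw [h8] at h6
  -- M (1/2 + η/2) - On (1 - η/2) ≤ δ M
  have h11 : M * (1 / 2 + η / 2) - (1 + δ) * M / 2 * (1 - η / 2) ≤ δ * M := by
    have h12 : (On.card : ℝ) * (1 - η / 2) ≤ (1 + δ) * M / 2 * (1 - η / 2) :=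
      mul_le_mul_of_nonneg_right h9 (by linarith)
    linarith
  have h13 : M * (3 / 4 * η) ≤ M * (3 / 2 * δ) := by
    have h14 : 0 ≤ M * (δ * η) := by positivity
    nlinarith
  have h15 := le_of_mul_le_mul_left h13 hM0
  linarith

end

end Pool.Agent.KH
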