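import Pool.Agent.KE.ExpAlg

/-! The language of the cubic forms that vanish at all given points. -/

namespace Pool.Agent.KH

open Pool.Agent.KE

/-- the value at `x` of the cubic form in `n` variables over the field with two elements with the
coefficients `C` -/
def cubic (n : ℕ) (C x : ℕ → Bool) : ZMod 2 :=
  ∑ i ∈ Finset.range n, ∑ j ∈ Finset.range n, ∑ l ∈ Finset.range n,
    zb (C ((i * n + j) * n + l)) * zb (x i) * zb (x j) * zb (x l)

/-- the number of points of `n` bits each in a word of length `N`, after the `n ^ 3` coefficients of a
cubic form -/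
def pts (n N : ℕ) : ℕ := (N - n ^ 3) / n

/-- **The language.** A word of length `N` consists, with `n = s N`, of the `n ^ 3` coefficients of a
cubic form over the field with two elements, `(N - n ^ 3) / n` points of `n` bits each, and fewer than
`n` unused bits; it is in the language if the form vanishes at all the points. -/
def L (s : ℕ → ℕ) (y : List Bool) : Prop :=
  ∀ b < pts (s y.length) y.length,
    cubic (s y.length) (fun t => y.getD t false)
      (fun i => y.getD (s y.length ^ 3 + b * s y.length + i) false) = 0

/-- the largest `n` with `2 * n ^ d ≤ N`, for `d ≥ 1` -/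
def root (d N : ℕ) : ℕ := ((Finset.range (N + 1)).filter fun q => 2 * (q + 1) ^ d ≤ N).card

/-- the power `d` of the binary logarithm, rounded down, of `N` -/
def lg (d N : ℕ) : ℕ := Nat.log 2 N ^ d

/-- if there are points, then they fit into the word -/
theorem pts_fits {n N : ℕ} (h : 0 < pts n N) : n ^ 3 + pts n N * n ≤ N := by
  unfold pts at h ⊢
  have h1 := Nat.div_mul_le_self (N - n ^ 3) n
  have h2 : N - n ^ 3 ≠ 0 := by
    intro h0
    rw [h0] at h
    simp at h
  omega

theorem pts_le (n N : ℕ) : pts n N ≤ N := (Nat.div_le_self _ _).trans (Nat.sub_le _ _)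

theorem pts_pos {n N : ℕ} (h : 0 < pts n N) : 0 < n := by
  rcases Nat.eq_zero_or_pos n with h0 | h0
  · rw [h0] at h
    simp [pts] at h
  · exact h0

end Pool.Agent.KH
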