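import Pool.Agent.KH.Avg
import Pool.Agent.KNL.LowerS
import Pool.Agent.KQ.Sbp

/-! Averaging over the blocks: nondeterministic programs with a stack for the conjunction of a predicate
without large rectangles over many blocks make many tests. -/

namespace Pool.Agent.KH

open Finset Pool.Agent.SemRO Pool.Agent.KNL
open Pool.Agent.KQ (SbpB)

section
variable {B n N : ℕ} {pos : Fin B → Fin n → Fin N}

open Classical in
/-- the index in the block `b` of a position -/
noncomputable def oob (pos : Fin B → Fin n → Fin N) (b : Fin B) (p : Fin N) : Option (Fin n) :=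
  if h : ∃ i, pos b i = p then some h.choose else none

lemma oob_pos (hpos : ∀ b b' i i', pos b i = pos b' i' → b = b' ∧ i = i') (b : Fin B) (i : Fin n) :
    oob pos b (pos b i) = some i := by
  unfold oob
  have h : ∃ i', pos b i' = pos b i := ⟨i, rfl⟩
  rw [dif_pos h]
  congr 1
  exact (hpos _ _ _ _ h.choose_spec).2

lemma oob_none {b : Fin B} {p : Fin N} (h : ¬ ∃ i, pos b i = p) : oob pos b p = none := by
  unfold oob
  rw [dif_neg h]

lemma paste_wd (hpos : ∀ b b' i i', pos b i = pos b' i' → b = b' ∧ i = i') (z0 : Fin N → Bool)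
    (X : Fin B → Fin n → Bool) (b : Fin B) (x : Fin n → Bool) :
    paste (oob pos b) (wd pos z0 X) x = wd pos z0 (Function.update X b x) := by
  rw [← extend_wd hpos]
  have hinj : Function.Injective (pos b) := fun i i' h => (hpos _ _ _ _ h).2
  funext p
  by_cases hp : ∃ i, pos b i = p
  · obtain ⟨i, rfl⟩ := hp
    rw [paste_some (oob_pos hpos b i), hinj.extend_apply]
  · rw [paste_none (oob_none hp), Function.extend_apply' _ _ _ hp]

lemma cnt_oob (hpos : ∀ b b' i i', pos b i = pos b' i' → b = b' ∧ i = i')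
    [∀ b, DecidablePred fun v => v ∈ Set.range (pos b)] (b : Fin B) (l : List (Fin N)) :
    cnt (oob pos b) l = (l.filter fun v => decide (v ∈ Set.range (pos b))).length := by
  unfold cnt
  congr 1
  refine List.filter_congr fun v _ => ?_
  by_cases h : ∃ i, pos b i = v
  · obtain ⟨i, rfl⟩ := h
    rw [oob_pos hpos]
    simp
  · rw [oob_none h]
    have : v ∉ Set.range (pos b) := h
    simp [this]

/-- **Few words are accepted with few tests.** The words have the blocks `X b`, and the rest of the word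
depends on certain values `τ (X b)` of the blocks. -/
theorem low {T D k' L : ℕ} {Sg : Type} [Fintype Sg] (τ : (Fin n → Bool) → Sg) (hB : 1 ≤ B)
    (hpos : ∀ b b' i i', pos b i = pos b' i' → b = b' ∧ i = i') (z0 : (Fin B → Sg) → Fin N → Bool)
    {V Γ : Type} [Fintype V] (P : SBP V Γ (Fin N)) (F : Finset (Fin n → Bool))
    (hF : ∀ t, RectFree {x | x ∈ F ∧ τ x = t} L) (hL : (L : ℝ) ≤ Real.exp ((n : ℝ) / D)) (hcore : SbpB k' D n)
    (hacc : ∀ t X l, P.AccWalk (wd pos (z0 t) X) l → ∀ b, X b ∈ F ∧ τ (X b) = t b) (hT : 2 * T ≤ B * (k' * n))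
    (S : Finset (Fin B → Fin n → Bool))
    (hS : ∀ X ∈ S, ∃ l, P.AccWalk (wd pos (z0 fun b => τ (X b)) X) l ∧ l.length ≤ T) :
    (S.card : ℝ) ≤ 2 * (Fintype.card Sg *
      (((Fintype.card V : ℝ) + n) ^ (2 * D) * (2 ^ n * Real.exp (-((n : ℝ) / D))))) * (F.card : ℝ) ^ (B - 1) := by
  classical
  obtain ⟨M, hM⟩ : ∃ M : ℝ, M = ((Fintype.card V : ℝ) + n) ^ (2 * D) * (2 ^ n * Real.exp (-((n : ℝ) / D))) :=
    ⟨_, rfl⟩
  have hM0 : 0 ≤ M := by rw [hM]; positivity
  rw [← hM]
  obtain ⟨wo, hwo⟩ : ∃ wo : (Fin B → Fin n → Bool) → Fin N → Bool, wo = fun X => wd pos (z0 fun b => τ (X b)) X :=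
    ⟨_, rfl⟩
  -- good blocks
  obtain ⟨G, hG⟩ : ∃ G : Fin B → Finset (Fin B → Fin n → Bool), G = fun b => S.filter fun X =>
      ∃ l, P.AccWalk (wo X) l ∧ cnt (oob pos b) l ≤ k' * n := ⟨_, rfl⟩
  have hmany : ∀ X ∈ S, B ≤ 2 * (univ.filter fun b => X ∈ G b).card := by
    intro X hX
    obtain ⟨l, hl, hlT⟩ := hS X hX
    obtain ⟨Hv, hHv⟩ : ∃ Hv : Finset (Fin B), Hv = univ.filter fun b => ¬ cnt (oob pos b) l ≤ k' * n := ⟨_, rfl⟩
    have h4 : Hv.card * (k' * n + 1) ≤ T := by
      calc Hv.card * (k' * n + 1) = ∑ b ∈ Hv, (k' * n + 1) := by rw [Finset.sum_const, smul_eq_mul]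
        _ ≤ ∑ b ∈ Hv, (l.filter fun v => decide (v ∈ Set.range (pos b))).length := by
            refine Finset.sum_le_sum fun b hb => ?_
            rw [hHv] at hb
            have := (Finset.mem_filter.1 hb).2
            rw [cnt_oob hpos] at this
            omega
        _ ≤ ∑ b, (l.filter fun v => decide (v ∈ Set.range (pos b))).length :=
            Finset.sum_le_sum_of_subset (Finset.subset_univ _)
        _ ≤ l.length := sum_filter_length hpos l
        _ ≤ T := hlT
    have h5 : 2 * Hv.card ≤ B := by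
      by_contra hcon
      push Not at hcon
      have h6 : (B + 1) * (k' * n + 1) ≤ 2 * Hv.card * (k' * n + 1) := Nat.mul_le_mul_right _ hcon
      have h7 : 2 * Hv.card * (k' * n + 1) ≤ 2 * T := by
        calc 2 * Hv.card * (k' * n + 1) = 2 * (Hv.card * (k' * n + 1)) := by ring
          _ ≤ _ := Nat.mul_le_mul_left _ h4
      have h8 : (B + 1) * (k' * n + 1) = B * (k' * n) + k' * n + B + 1 := by ring
      omega
    have h6 : Hvᶜ ⊆ univ.filter fun b => X ∈ G b := by
      intro b hb
      rw [Finset.mem_compl, hHv, Finset.mem_filter, not_and, not_not] at hb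
      refine Finset.mem_filter.2 ⟨Finset.mem_univ _, ?_⟩
      rw [hG]
      refine Finset.mem_filter.2 ⟨hX, l, ?_, hb (Finset.mem_univ _)⟩
      rw [hwo]
      exact hl
    have h7 := Finset.card_le_card h6
    rw [Finset.card_compl, Fintype.card_fin] at h7
    omega
  -- a popular block
  obtain ⟨b0, hb0⟩ : ∃ b0, S.card ≤ 2 * (G b0).card := by
    by_contra hcon
    push Not at hcon
    have h1 : ∑ X ∈ S, (univ.filter fun b => X ∈ G b).card = ∑ b, (G b).card := by
      have e1 : ∀ b, (G b).card = ∑ X ∈ S, if X ∈ G b then 1 else 0 := by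
        intro b
        rw [← Finset.card_filter]
        congr 1
        ext X
        rw [Finset.mem_filter]
        constructor
        · intro h
          refine ⟨?_, h⟩
          rw [hG] at h
          exact (Finset.mem_filter.1 h).1
        · exact fun h => h.2
      rw [Finset.sum_congr rfl fun b _ => e1 b, Finset.sum_comm]
      refine Finset.sum_congr rfl fun X _ => ?_
      rw [Finset.card_filter]
    have h2 : S.card * B ≤ 2 * ∑ b, (G b).card := by
      rw [← h1, Finset.mul_sum]
      calc S.card * B = ∑ _X ∈ S, B := by rw [Finset.sum_const, smul_eq_mul]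
        _ ≤ _ := Finset.sum_le_sum fun X hX => hmany X hX
    have h3 : 2 * ∑ b, (G b).card < S.card * B := by
      have hne : (univ : Finset (Fin B)).Nonempty := ⟨⟨0, hB⟩, Finset.mem_univ _⟩
      rw [Finset.mul_sum]
      calc ∑ b, 2 * (G b).card < ∑ _b : Fin B, S.card :=
            Finset.sum_lt_sum_of_nonempty hne fun b _ => hcon b
        _ = S.card * B := by rw [Finset.sum_const, Finset.card_univ, Fintype.card_fin, smul_eq_mul, mul_comm]
    omega
  -- the fibres
  have hcardr : Fintype.card {b : Fin B // b ≠ b0} = B - 1 := by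
    rw [Fintype.card_subtype_compl, Fintype.card_fin, Fintype.card_subtype_eq]
  obtain ⟨Rs, hRs⟩ : ∃ Rs : Finset (({b : Fin B // b ≠ b0} → Fin n → Bool) × Sg),
      Rs = (Fintype.piFinset fun _ => F) ×ˢ univ := ⟨_, rfl⟩
  have hRc : (Rs.card : ℝ) = (F.card : ℝ) ^ (B - 1) * Fintype.card Sg := by
    rw [hRs, Finset.card_product, Fintype.card_piFinset, Finset.prod_const, Finset.card_univ, hcardr,
      Finset.card_univ]
    push_cast
    rfl
  obtain ⟨ρ, hρ⟩ : ∃ ρ : (Fin B → Fin n → Bool) → ({b : Fin B // b ≠ b0} → Fin n → Bool) × Sg,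
      ρ = fun X => (fun b => X b, τ (X b0)) := ⟨_, rfl⟩
  have hmaps : ∀ X ∈ G b0, ρ X ∈ Rs := by
    intro X hX
    rw [hG] at hX
    obtain ⟨l, hl, _⟩ := (Finset.mem_filter.1 hX).2
    rw [hRs, hρ, Finset.mem_product, Fintype.mem_piFinset]
    refine ⟨fun b => ?_, Finset.mem_univ _⟩
    rw [hwo] at hl
    exact (hacc _ X l hl b).1
  have hfib : ∀ r ∈ Rs, (((G b0).filter fun X => ρ X = r).card : ℝ) ≤ M := by
    intro r _
    obtain ⟨Fb, hFb⟩ : ∃ Fb, Fb = (G b0).filter fun X => ρ X = r := ⟨_, rfl⟩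
    rw [← hFb]
    rcases Fb.eq_empty_or_nonempty with he | ⟨X0, hX0⟩
    · rw [he, Finset.card_empty, Nat.cast_zero]
      exact hM0
    have hmem : ∀ X ∈ Fb, X ∈ G b0 ∧ (∀ b, b ≠ b0 → X b = X0 b) ∧ τ (X b0) = τ (X0 b0) := by
      intro X hX
      rw [hFb, Finset.mem_filter] at hX hX0
      have h1 := hX.2.trans hX0.2.symm
      rw [hρ] at h1
      simp only [Prod.mk.injEq] at h1
      exact ⟨hX.1, fun b hb => congrFun h1.1 ⟨b, hb⟩, h1.2⟩
    have hupd : ∀ X ∈ Fb, Function.update X0 b0 (X b0) = X := by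
      intro X hX
      funext b
      by_cases hb : b = b0
      · subst hb; simp
      · rw [Function.update_of_ne hb, (hmem X hX).2.1 b hb]
    have htau : ∀ X ∈ Fb, (fun b => τ (X b)) = fun b => τ (X0 b) := by
      intro X hX
      funext b
      by_cases hb : b = b0
      · rw [hb]; exact (hmem X hX).2.2
      · rw [(hmem X hX).2.1 b hb]
    have hW : (Fb.image fun X => X b0).card = Fb.card := by
      rw [Finset.card_image_of_injOn]
      intro X hX X' hX' he
      rw [← hupd X hX, ← hupd X' hX']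
      simp only at he
      rw [he]
    rw [← hW, hM]
    refine hcore V Γ (sres P (oob pos b0) (wo X0)) {x | x ∈ F ∧ τ x = τ (X0 b0)} L ?_ (hF _) hL _ ?_
    · intro x l hl
      obtain ⟨l', hl'⟩ := walk_of_sres hl
      rw [hwo] at hl'
      simp only at hl'
      rw [paste_wd hpos] at hl'
      have := hacc _ _ l' hl' b0
      rw [Function.update_self] at this
      exact this
    · intro x hx
      obtain ⟨X, hX, rfl⟩ := Finset.mem_image.1 hx
      have h1 := (hmem X hX).1
      rw [hG] at h1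
      obtain ⟨l, hl, hlc⟩ := (Finset.mem_filter.1 h1).2
      have e1 : wo X = paste (oob pos b0) (wo X0) (X b0) := by
        rw [hwo]
        simp only
        rw [paste_wd hpos, hupd X hX, htau X hX]
      rw [e1] at hl
      obtain ⟨l', hl', hlen⟩ := sres_of_walk hl
      exact ⟨l', hl', hlen.le.trans hlc⟩
  have hsum : ((G b0).card : ℝ) ≤ Rs.card * M := by
    rw [Finset.card_eq_sum_card_fiberwise (s := G b0) (t := Rs) (f := ρ)
      (fun X hX => Finset.mem_coe.2 (hmaps X (Finset.mem_coe.1 hX)))]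
    push_cast
    calc _ ≤ ∑ _r ∈ Rs, M := Finset.sum_le_sum fun r hr => hfib r hr
      _ = _ := by rw [Finset.sum_const, nsmul_eq_mul]
  have h1 : (S.card : ℝ) ≤ 2 * (G b0).card := by exact_mod_cast hb0
  rw [hRc] at hsum
  calc (S.card : ℝ) ≤ 2 * (G b0).card := h1
    _ ≤ 2 * ((F.card : ℝ) ^ (B - 1) * Fintype.card Sg * M) := by linarith
    _ = _ := by ring

end

end Pool.Agent.KH
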