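import Pool.Agent.KH.Low

/-! The time bound for nondeterministic programs with a stack, in an abstract form. -/

namespace Pool.Agent.KH

open Finset Pool.Agent.SemRO Pool.Agent.KNL
open Pool.Agent.KQ (SbpB sbp_quant)

/-- words with `B` blocks of `n` letters on which the language says that all blocks are in a large set
without large rectangles -/
def Emb (Lg : List Bool → Prop) {N n B : ℕ} (pos : Fin B → Fin n → Fin N) (D : ℕ) : Prop :=
  ∃ (Sg : Type) (_ : Fintype Sg) (τ : (Fin n → Bool) → Sg) (z0 : (Fin B → Sg) → Fin N → Bool)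
    (F : Finset (Fin n → Bool)) (L : ℕ), (Fintype.card Sg : ℝ) ≤ Real.exp ((n : ℝ) / (4 * D)) ∧
      (L : ℝ) ≤ Real.exp ((n : ℝ) / D) ∧ 2 ^ n ≤ 4 * F.card ∧ (∀ t, RectFree {x | x ∈ F ∧ τ x = t} L) ∧
      ∀ t X, Lg (List.ofFn (wd pos (z0 t) X)) ↔ ∀ b, X b ∈ F ∧ τ (X b) = t b

/-- **One time bound.** -/
theorem nd_one {Lg : List Bool → Prop} {N n B D k' T : ℕ} {pos : Fin B → Fin n → Fin N} (hB : 1 ≤ B) (hD : 1 ≤ D)
    (hpos : ∀ b b' i i', pos b i = pos b' i' → b = b' ∧ i = i') (hE : Emb Lg pos D) (hcore : SbpB k' D n)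
    (hn : 128 * D ^ 4 ≤ n) {V Γ : Type} [Fintype V] (P : SBP V Γ (Fin N))
    (hV : (Fintype.card V : ℝ) ≤ (2 : ℝ) ^ ((n : ℝ) / (8 * D ^ 2 : ℕ))) (hP : ∀ y l, P.AccWalk y l → Lg (List.ofFn y))
    (hT : 2 * T ≤ B * (k' * n)) (hPT : ∀ y, Lg (List.ofFn y) → ∃ l, P.AccWalk y l ∧ l.length ≤ T) : False := by
  classical
  obtain ⟨Sg, _, τ, z0, F, L, hSg, hL, hF, hR, hLg⟩ := hE
  obtain ⟨S, hS⟩ : ∃ S : Finset (Fin B → Fin n → Bool), S = Fintype.piFinset fun _ => F := ⟨_, rfl⟩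
  have h1 := low τ hB hpos z0 P F hR hL hcore (fun t X l hl => (hLg t X).1 (hP _ l hl)) hT S (fun X hX => by
    refine hPT _ ((hLg _ X).2 fun b => ⟨?_, rfl⟩)
    rw [hS, Fintype.mem_piFinset] at hX
    exact hX b)
  have hSc : (S.card : ℝ) = (F.card : ℝ) ^ B := by
    rw [hS, Fintype.card_piFinset, Finset.prod_const, Finset.card_univ, Fintype.card_fin]
    push_cast
    rfl
  have hFpos : (0 : ℝ) < F.card := by
    have : 0 < F.card := by
      have : 0 < 2 ^ n := by positivity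
      omega
    exact_mod_cast this
  have hFr : (2 : ℝ) ^ n ≤ 4 * F.card := by exact_mod_cast hF
  rw [hSc] at h1
  obtain ⟨B', rfl⟩ : ∃ B', B = B' + 1 := ⟨B - 1, by omega⟩
  rw [Nat.add_sub_cancel, pow_succ, mul_comm ((F.card : ℝ) ^ B')] at h1
  have h2 := le_of_mul_le_mul_right h1 (by positivity)
  -- numbers
  have hDr : (1 : ℝ) ≤ D := by exact_mod_cast hD
  have hD0 : (0 : ℝ) < D := by linarith
  have hnr : 128 * (D : ℝ) ^ 4 ≤ n := by exact_mod_cast hn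
  obtain ⟨ε, hε⟩ : ∃ ε : ℝ, ε = 1 / (8 * (D : ℝ) ^ 2) := ⟨_, rfl⟩
  have hε0 : 0 < ε := by rw [hε]; positivity
  have hV' : (Fintype.card V : ℝ) ≤ (2 : ℝ) ^ (ε * n) := by
    refine hV.trans (le_of_eq ?_)
    congr 1
    rw [hε]
    push_cast
    ring
  have h3 := size_bound (N := n) (n := n) hε0 le_rfl (by
    have e1 : 2 / ε ^ 2 = 128 * (D : ℝ) ^ 4 := by
      rw [hε]
      field_simp
      ring
    rw [e1]
    exact hnr) hV'
  have h4 : ((Fintype.card V : ℝ) + n) ^ (2 * D) ≤ Real.exp ((n : ℝ) / (2 * D)) := by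
    calc ((Fintype.card V : ℝ) + n) ^ (2 * D) ≤ Real.exp (2 * (ε * n)) ^ (2 * D) :=
          pow_le_pow_left₀ (by positivity) h3 _
      _ = Real.exp ((n : ℝ) / (2 * D)) := by
          rw [← Real.exp_nat_mul]
          congr 1
          rw [hε]
          push_cast
          field_simp
          ring
  have h5 : (F.card : ℝ) ≤ 2 * (Real.exp ((n : ℝ) / (4 * D)) *
      (Real.exp ((n : ℝ) / (2 * D)) * (2 ^ n * Real.exp (-((n : ℝ) / D))))) := by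
    refine h2.trans ?_
    have : (0 : ℝ) ≤ 2 ^ n * Real.exp (-((n : ℝ) / D)) := by positivity
    gcongr
  have h6 : Real.exp ((n : ℝ) / (4 * D)) * (Real.exp ((n : ℝ) / (2 * D)) * (2 ^ n * Real.exp (-((n : ℝ) / D)))) =
      2 ^ n * Real.exp (-((n : ℝ) / (4 * D))) := by
    have e1 : Real.exp (-((n : ℝ) / (4 * D))) = Real.exp ((n : ℝ) / (4 * D)) * (Real.exp ((n : ℝ) / (2 * D)) *
        Real.exp (-((n : ℝ) / D))) := by
      rw [← Real.exp_add, ← Real.exp_add]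
      congr 1
      field_simp
      ring
    rw [e1]
    ring
  rw [h6] at h5
  have h7 : Real.exp (-((n : ℝ) / (4 * D))) ≤ 1 / 16 := by
    have h8 : (8 : ℝ) ≤ (n : ℝ) / (4 * D) := by
      rw [le_div_iff₀ (by positivity)]
      have h9 : (D : ℝ) ≤ D ^ 4 := le_self_pow₀ hDr (by norm_num)
      linarith
    rw [Real.exp_neg, one_div]
    apply inv_anti₀ (by norm_num)
    have h9 := Real.quadratic_le_exp_of_nonneg (show (0 : ℝ) ≤ (n : ℝ) / (4 * D) by positivity)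
    nlinarith
  have h2n : (0 : ℝ) < 2 ^ n := by positivity
  nlinarith

/-- choice of the number `k` -/
theorem choose_kd (c : ℕ) : ∃ δ x0 : ℝ, 0 < δ ∧ 1 ≤ x0 ∧ ∀ n S : ℕ, 1 ≤ S → x0 * S ≤ n → ∀ N T : ℕ,
    (T : ℝ) < N * Real.log (n / S) ^ δ → ∃ k : ℕ, 2 ≤ k ∧ 2 ^ (k ^ c) ≤ n ∧
      ((2 : ℝ) ^ (k ^ c)) * S ≤ n ∧ T ≤ k * N := by
  refine ⟨1 / (2 * (c + 1)), Real.exp (4 ^ (c + 1)), by positivity, ?_, ?_⟩
  · exact Real.one_le_exp (by positivity)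
  intro n S hS hxn N T hcon
  have hSr : (1 : ℝ) ≤ S := by exact_mod_cast hS
  have hS0 : (0 : ℝ) < S := by linarith
  obtain ⟨x, hx⟩ : ∃ x : ℝ, x = n / S := ⟨_, rfl⟩
  rw [← hx] at hcon
  have hxx0 : Real.exp (4 ^ (c + 1)) ≤ x := by
    rw [hx, le_div_iff₀ hS0]; exact hxn
  have hx0 : 0 < x := lt_of_lt_of_le (Real.exp_pos _) hxx0
  obtain ⟨y, hy⟩ : ∃ y : ℝ, y = Real.log x := ⟨_, rfl⟩
  rw [← hy] at hcon
  have hy4 : (4 : ℝ) ^ (c + 1) ≤ y := by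
    rw [hy, Real.le_log_iff_exp_le hx0]; exact hxx0
  have h4 : (4 : ℝ) ≤ 4 ^ (c + 1) := by
    calc (4 : ℝ) = 4 ^ 1 := by norm_num
      _ ≤ 4 ^ (c + 1) := pow_le_pow_right₀ (by norm_num) (by omega)
  have hy1 : (1 : ℝ) < y := by linarith
  have hy0 : 0 ≤ y := by linarith
  obtain ⟨z, hz⟩ : ∃ z : ℝ, z = y ^ (1 / (2 * ((c : ℝ) + 1))) := ⟨_, rfl⟩
  rw [← hz] at hcon
  have hz1 : 1 < z := by
    rw [hz]
    exact Real.one_lt_rpow hy1 (by positivity)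
  obtain ⟨k, hk⟩ : ∃ k, k = ⌈z⌉₊ := ⟨_, rfl⟩
  have hkz : z ≤ k := by rw [hk]; exact Nat.le_ceil _
  have hkz' : (k : ℝ) ≤ 2 * z := by
    have := Nat.ceil_lt_add_one (show 0 ≤ z by linarith)
    rw [← hk] at this
    linarith
  have hk2 : 2 ≤ k := by
    have h1 : (1 : ℝ) < k := by linarith
    have h2 : 1 < k := by exact_mod_cast h1
    omega
  have hzc : z ^ (c + 1) = Real.sqrt y := by
    rw [hz, ← Real.rpow_natCast, ← Real.rpow_mul hy0, Real.sqrt_eq_rpow]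
    congr 1
    push_cast
    field_simp
  have hsq : (2 : ℝ) ^ (c + 1) ≤ Real.sqrt y := by
    apply Real.le_sqrt_of_sq_le
    calc ((2 : ℝ) ^ (c + 1)) ^ 2 = 4 ^ (c + 1) := by rw [← pow_mul, mul_comm, pow_mul]; norm_num
      _ ≤ y := hy4
  have hkc : (k : ℝ) ^ (c + 1) ≤ y := by
    calc (k : ℝ) ^ (c + 1) ≤ (2 * z) ^ (c + 1) := pow_le_pow_left₀ (Nat.cast_nonneg _) hkz' _
      _ = 2 ^ (c + 1) * Real.sqrt y := by rw [mul_pow, hzc]
      _ ≤ Real.sqrt y * Real.sqrt y := mul_le_mul_of_nonneg_right hsq (Real.sqrt_nonneg _)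
      _ = y := Real.mul_self_sqrt hy0
  have hkc' : (k : ℝ) ^ c ≤ y := by
    refine le_trans (pow_le_pow_right₀ ?_ (by omega : c ≤ c + 1)) hkc
    have : (2 : ℝ) ≤ k := by exact_mod_cast hk2
    linarith
  have h2x : (2 : ℝ) ^ (k ^ c) ≤ x := by
    have h1 : (2 : ℝ) ^ (k ^ c) = Real.exp (Real.log 2 * ((k ^ c : ℕ) : ℝ)) := by
      rw [Real.exp_mul, Real.exp_log (by norm_num), Real.rpow_natCast]
    rw [h1, ← Real.le_log_iff_exp_le hx0, ← hy]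
    push_cast
    have h2 : Real.log 2 * (k : ℝ) ^ c ≤ 1 * (k : ℝ) ^ c := by
      apply mul_le_mul_of_nonneg_right _ (by positivity)
      have := Real.log_two_lt_d9
      linarith
    linarith
  have hxN' : x * S = n := by rw [hx]; field_simp
  have hNr : (2 : ℝ) ^ (k ^ c) * S ≤ n := by
    rw [← hxN']; exact mul_le_mul_of_nonneg_right h2x hS0.le
  have h2pos : (0 : ℝ) < 2 ^ (k ^ c) := by positivity
  refine ⟨k, hk2, ?_, hNr, ?_⟩
  · have : (2 : ℝ) ^ (k ^ c) ≤ n := by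
      calc (2 : ℝ) ^ (k ^ c) = 2 ^ (k ^ c) * 1 := by ring
        _ ≤ 2 ^ (k ^ c) * S := mul_le_mul_of_nonneg_left hSr h2pos.le
        _ ≤ n := hNr
    exact_mod_cast this
  · have h1 : (T : ℝ) ≤ N * z := hcon.le
    have h2 : (N : ℝ) * z ≤ N * k := mul_le_mul_of_nonneg_left hkz (Nat.cast_nonneg _)
    have h3 : (T : ℝ) ≤ k * N := by linarith
    exact_mod_cast h3

/-- growth of the parameters -/
lemma grow {K c0 k : ℕ} (hk : 2 ≤ k) :
    (2 ^ ((2 * K * k) ^ (c0 + 1))) ^ 16 ≤ 2 ^ (k ^ ((2 * K + 1) * (c0 + 1) + 5)) := by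
  rw [← pow_mul]
  apply Nat.pow_le_pow_right (by norm_num)
  have h1 : 2 * K ≤ k ^ (2 * K) := by
    calc 2 * K ≤ 2 ^ (2 * K) := Nat.lt_two_pow_self.le
      _ ≤ _ := Nat.pow_le_pow_left hk _
  have h2 : (2 * K * k) ^ (c0 + 1) ≤ k ^ ((2 * K + 1) * (c0 + 1)) := by
    rw [pow_mul]
    apply Nat.pow_le_pow_left
    calc 2 * K * k ≤ k ^ (2 * K) * k := Nat.mul_le_mul_right _ h1
      _ = _ := (pow_succ _ _).symm
  calc (2 * K * k) ^ (c0 + 1) * 16 ≤ k ^ ((2 * K + 1) * (c0 + 1)) * 32 := Nat.mul_le_mul h2 (by norm_num)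
    _ ≤ k ^ ((2 * K + 1) * (c0 + 1)) * k ^ 5 := Nat.mul_le_mul_left _ (by
        calc 32 = 2 ^ 5 := by norm_num
          _ ≤ _ := Nat.pow_le_pow_left hk _)
    _ = _ := by rw [← pow_add]

/-- **The time bound for nondeterministic programs with a stack.** -/
theorem time_nd {K : ℕ} (hK : 1 ≤ K) : ∃ δ x0 : ℝ, 0 < δ ∧ 1 ≤ x0 ∧ ∀ (N n B S : ℕ), 1 ≤ S → x0 * S ≤ n →
    N ≤ K * (B * n) → ∀ (pos : Fin B → Fin n → Fin N), (∀ b b' i i', pos b i = pos b' i' → b = b' ∧ i = i') →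
    ∀ (Lg : List Bool → Prop), (∀ D, 16 ≤ D → D ^ 16 ≤ n → Emb Lg pos D) →
    ∀ (V Γ : Type) [Fintype V] (P : SBP V Γ (Fin N)), Fintype.card V ≤ 2 ^ S →
      (∀ y l, P.AccWalk y l → Lg (List.ofFn y)) →
      ∀ T : ℕ, (∀ y, Lg (List.ofFn y) → ∃ l, P.AccWalk y l ∧ l.length ≤ T) →
        N * Real.log (n / S) ^ δ ≤ T := by
  obtain ⟨c0, hc0⟩ := sbp_quant
  obtain ⟨δ, x0, hδ, hx0, hch⟩ := choose_kd ((2 * K + 1) * (c0 + 1) + 5)
  refine ⟨δ, x0, hδ, hx0, ?_⟩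
  intro N n B S hS hxn hN pos hpos Lg hE V Γ _ P hV hP T hT
  by_contra hcon
  push Not at hcon
  obtain ⟨k, hk2, hkn, hkS, hTk⟩ := hch n S hS hxn N T hcon
  have hNpos : 0 < N := by
    rcases Nat.eq_zero_or_pos N with h0 | h0
    · rw [h0] at hcon
      have : (0 : ℝ) ≤ T := Nat.cast_nonneg _
      simp at hcon
      linarith
    · exact h0
  have hB : 1 ≤ B := by
    rcases Nat.eq_zero_or_pos B with h0 | h0
    · rw [h0] at hN
      simp at hN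
      omega
    · exact h0
  obtain ⟨D, hD⟩ : ∃ D, D = 2 ^ ((2 * K * k) ^ (c0 + 1)) := ⟨_, rfl⟩
  have hk4 : 4 ≤ 2 * K * k := by
    calc 4 = 2 * 1 * 2 := by norm_num
      _ ≤ _ := Nat.mul_le_mul (Nat.mul_le_mul_left _ hK) hk2
  have hD16 : 16 ≤ D := by
    rw [hD]
    calc 16 = 2 ^ (4 ^ 1) := by norm_num
      _ ≤ 2 ^ ((2 * K * k) ^ (c0 + 1)) := by
        apply Nat.pow_le_pow_right (by norm_num)
        calc 4 ^ 1 ≤ (2 * K * k) ^ 1 := Nat.pow_le_pow_left hk4 _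
          _ ≤ _ := Nat.pow_le_pow_right (by omega) (by omega)
  have hDX : D ^ 16 ≤ 2 ^ (k ^ ((2 * K + 1) * (c0 + 1) + 5)) := by rw [hD]; exact grow hk2
  have hDn : D ^ 16 ≤ n := hDX.trans hkn
  have hD1 : 2 ^ ((2 * K * k) ^ c0) ≤ D := by
    rw [hD]
    exact Nat.pow_le_pow_right (by norm_num) (Nat.pow_le_pow_right (by omega) (by omega))
  have hDle : D ≤ n := le_trans (Nat.le_self_pow (by norm_num) D) hDn
  have h128 : 128 * D ^ 4 ≤ D ^ 16 := by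
    calc 128 * D ^ 4 ≤ 16 ^ 2 * D ^ 4 := Nat.mul_le_mul_right _ (by norm_num)
      _ ≤ D ^ 2 * D ^ 4 := Nat.mul_le_mul_right _ (Nat.pow_le_pow_left hD16 _)
      _ = D ^ 6 := by rw [← pow_add]
      _ ≤ _ := Nat.pow_le_pow_right (by omega) (by norm_num)
  refine nd_one (k' := 2 * K * k) (T := T) hB (by omega) hpos (hE D hD16 hDn)
    (hc0 _ (by omega) D n hD1 (hD1.trans hDle)) (h128.trans hDn) P ?_ hP ?_ hT
  · -- the size
    have h1 : (Fintype.card V : ℝ) ≤ (2 : ℝ) ^ (S : ℝ) := by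
      rw [Real.rpow_natCast]; exact_mod_cast hV
    refine h1.trans (Real.rpow_le_rpow_of_exponent_le (by norm_num) ?_)
    have h8 : 8 * D ^ 2 ≤ D ^ 16 := by
      calc 8 * D ^ 2 ≤ D * D ^ 2 := Nat.mul_le_mul_right _ (by omega)
        _ = D ^ 3 := by ring
        _ ≤ _ := Nat.pow_le_pow_right (by omega) (by norm_num)
    have h9 : ((8 * D ^ 2 : ℕ) : ℝ) ≤ 2 ^ (k ^ ((2 * K + 1) * (c0 + 1) + 5)) := by
      exact_mod_cast h8.trans hDX
    have hSr : (0 : ℝ) ≤ S := Nat.cast_nonneg _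
    have h10 : (0 : ℝ) < ((8 * D ^ 2 : ℕ) : ℝ) := by
      have : 0 < 8 * D ^ 2 := by positivity
      exact_mod_cast this
    rw [le_div_iff₀ h10, mul_comm]
    exact (mul_le_mul_of_nonneg_right h9 hSr).trans hkS
  · -- the tests
    calc 2 * T ≤ 2 * (k * N) := Nat.mul_le_mul_left _ hTk
      _ ≤ 2 * (k * (K * (B * n))) := Nat.mul_le_mul_left _ (Nat.mul_le_mul_left _ hN)
      _ = B * (2 * K * k * n) := by ring

end Pool.Agent.KH
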