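import Pool.Agent.KH.Defs
import Pool.Agent.KE.PTime
import Pool.Agent.Lib.PolyTime.PL
import Pool.Agent.Lib.PolyTime.PB

/-! The language of the vanishing cubic forms is decided in polynomial time. -/

namespace Pool.Agent.KH

open Pool.Agent.PolyTime Pool.Agent.KNL Pool.Agent.KE
open Pool.Agent.KE.PTimeAux (pfBits_of_pd getD_map_range toNat_cast mod2_cast)

theorem root_lt {d N q : ℕ} (hd : 1 ≤ d) : q < root d N ↔ 2 * (q + 1) ^ d ≤ N := by
  have hmono : ∀ p q : ℕ, p ≤ q → 2 * (q + 1) ^ d ≤ N → 2 * (p + 1) ^ d ≤ N := by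
    intro p q hpq h
    refine le_trans ?_ h
    exact Nat.mul_le_mul_left _ (Nat.pow_le_pow_left (by omega) _)
  have hself : ∀ q : ℕ, 2 * (q + 1) ^ d ≤ N → q < N + 1 := by
    intro q h
    have : q + 1 ≤ (q + 1) ^ d := Nat.le_self_pow (by omega) _
    omega
  -- the set is an initial segment
  obtain ⟨m, hm⟩ : ∃ m, ∀ q, 2 * (q + 1) ^ d ≤ N ↔ q < m := by
    classical
    by_cases h : ∃ q, ¬ 2 * (q + 1) ^ d ≤ N
    · refine ⟨Nat.find h, fun q => ⟨fun hq => ?_, fun hq => ?_⟩⟩
      · by_contra hc
        exact Nat.find_spec h (hmono _ _ (not_lt.1 hc) hq)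
      · by_contra hc
        exact Nat.find_min h hq hc
    · push Not at h
      exact absurd (hself _ (h (N + 1))) (by omega)
  have : root d N = m := by
    unfold root
    rw [show (Finset.range (N + 1)).filter (fun q => 2 * (q + 1) ^ d ≤ N) = Finset.range m by
      ext q
      rw [Finset.mem_filter, Finset.mem_range, Finset.mem_range, hm]
      exact ⟨fun h => h.2, fun h => ⟨hself q ((hm q).2 h), h⟩⟩, Finset.card_range]
  rw [this, hm]

/-- `2 * n ^ d ≤ N` for `n = root d N` -/
theorem root_spec {d : ℕ} (hd : 1 ≤ d) (N : ℕ) : 2 * root d N ^ d ≤ N := by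
  rcases Nat.eq_zero_or_pos (root d N) with h | h
  · rw [h, zero_pow (by omega)]
    simp
  · have := (root_lt hd).1 (show root d N - 1 < root d N by omega)
    rwa [Nat.sub_add_cancel h] at this

theorem root_max {d : ℕ} (hd : 1 ≤ d) (N : ℕ) : N < 2 * (root d N + 1) ^ d := by
  by_contra h
  exact lt_irrefl _ ((root_lt hd).2 (not_lt.1 h))

theorem pf_root (d : ℕ) {α : Type} [Ctx α] :
    PF (fun (y : List Bool) (_ : α) => root d y.length) := by
  have h1 : PD (fun (x : List Bool) (t : α × ℕ) => 2 * (t.2 + 1) ^ d ≤ x.length) :=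
    PD.le ((PF.const 2).mul ((PF.snd.add (PF.const 1)).pow d)) PF.len
  refine (PF.count (PF.len.add (PF.const 1)) h1).congr fun x a => ?_
  unfold root
  congr 2

/-- The binary logarithm counts the powers of two. -/
theorem log_eq (N : ℕ) :
    Nat.log 2 N = ((Finset.range (N + 1)).filter fun q => Pool.Agent.PolyTime.isP2 q).card - 1 := by
  rcases Nat.eq_zero_or_pos N with h0 | h0
  · subst h0
    rw [Nat.log_zero_right]
    have : ((Finset.range (0 + 1)).filter fun q => Pool.Agent.PolyTime.isP2 q).card ≤ 1 :=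
      (Finset.card_filter_le _ _).trans (by simp)
    omega
  · have h1 : (Finset.range (N + 1)).filter (fun q => Pool.Agent.PolyTime.isP2 q) =
        (Finset.range (Nat.log 2 N + 1)).image (fun j => 2 ^ j) := by
      ext q
      rw [Finset.mem_filter, Finset.mem_range, isP2_iff, Finset.mem_image]
      constructor
      · rintro ⟨h1, j, rfl⟩
        refine ⟨j, Finset.mem_range.2 (Nat.lt_succ_of_le ?_), rfl⟩
        exact (Nat.le_log_iff_pow_le (by norm_num) (by omega)).2 (Nat.lt_succ_iff.1 h1)
      · rintro ⟨j, h1, rfl⟩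
        refine ⟨Nat.lt_succ_of_le ?_, j, rfl⟩
        exact (Nat.le_log_iff_pow_le (by norm_num) (by omega)).1 (Nat.lt_succ_iff.1 (Finset.mem_range.1 h1))
    rw [h1, Finset.card_image_of_injective _ (Nat.pow_right_injective le_rfl), Finset.card_range]
    rfl

theorem pf_lg (d : ℕ) {α : Type} [Ctx α] :
    PF (fun (y : List Bool) (_ : α) => lg d y.length) := by
  have h1 := PF.count (α := α) (P := fun (_ : List Bool) (p : α × ℕ) => Pool.Agent.PolyTime.isP2 p.2)
    (PF.len.add (PF.const 1)) (PD.isP2 PF.snd)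
  refine ((h1.sub (PF.const 1)).pow d).congr fun x a => ?_
  unfold lg
  rw [log_eq]

/-- the value of the cubic form as a number -/
def cubN (n : ℕ) (C x : ℕ → ℕ) : ℕ :=
  ∑ i ∈ Finset.range n, ∑ j ∈ Finset.range n, ∑ l ∈ Finset.range n,
    C ((i * n + j) * n + l) * x i * x j * x l

theorem cubN_cast (n : ℕ) (C x : ℕ → Bool) :
    ((cubN n (fun t => (C t).toNat) (fun t => (x t).toNat) : ℕ) : ZMod 2) = cubic n C x := by
  unfold cubN cubic
  push_cast
  simp only [toNat_cast]

theorem pf_bit {α : Type} [Ctx α] {A : List Bool → α → ℕ} (hA : PF A) :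
    PF (fun (y : List Bool) (a : α) => (y.getD (A y a) false).toNat) := PF.inp hA

theorem pd_L {s : ℕ → ℕ} (hn : ∀ (α : Type) [Ctx α], PF (fun (y : List Bool) (_ : α) => s y.length)) :
    PD (fun (y : List Bool) (_ : Unit) => ∀ b < pts (s y.length) y.length,
    cubN (s y.length) (fun t => (y.getD t false).toNat)
      (fun i => (y.getD (s y.length ^ 3 + b * s y.length + i) false).toNat) % 2 = 0) := by
  have h3 : PF (fun (y : List Bool) (t : (((Unit × ℕ) × ℕ) × ℕ) × ℕ) =>
      (y.getD ((t.1.1.2 * s y.length + t.1.2) * s y.length + t.2) false).toNat *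
        (y.getD (s y.length ^ 3 + t.1.1.1.2 * s y.length + t.1.1.2) false).toNat *
        (y.getD (s y.length ^ 3 + t.1.1.1.2 * s y.length + t.1.2) false).toNat *
        (y.getD (s y.length ^ 3 + t.1.1.1.2 * s y.length + t.2) false).toNat) := by
    have hb : PF (fun (_ : List Bool) (t : (((Unit × ℕ) × ℕ) × ℕ) × ℕ) => t.1.1.1.2) :=
      PF.snd.fst.fst.fst
    have hi : PF (fun (_ : List Bool) (t : (((Unit × ℕ) × ℕ) × ℕ) × ℕ) => t.1.1.2) := PF.snd.fst.fst
    have hj : PF (fun (_ : List Bool) (t : (((Unit × ℕ) × ℕ) × ℕ) × ℕ) => t.1.2) := PF.snd.fst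
    have hl : PF (fun (_ : List Bool) (t : (((Unit × ℕ) × ℕ) × ℕ) × ℕ) => t.2) := PF.snd
    have hs := hn ((((Unit × ℕ) × ℕ) × ℕ) × ℕ)
    have hbase := (hs.pow 3).add (hb.mul hs)
    exact (((pf_bit ((((hi.mul hs).add hj).mul hs).add hl)).mul (pf_bit (hbase.add hi))).mul
      (pf_bit (hbase.add hj))).mul (pf_bit (hbase.add hl))
  have h2 : PF (fun (y : List Bool) (t : ((Unit × ℕ) × ℕ) × ℕ) => ∑ l ∈ Finset.range (s y.length),
      (y.getD ((t.1.2 * s y.length + t.2) * s y.length + l) false).toNat *
        (y.getD (s y.length ^ 3 + t.1.1.2 * s y.length + t.1.2) false).toNat *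
        (y.getD (s y.length ^ 3 + t.1.1.2 * s y.length + t.2) false).toNat *
        (y.getD (s y.length ^ 3 + t.1.1.2 * s y.length + l) false).toNat) :=
    PF.sum (hn _) h3
  have h1 : PF (fun (y : List Bool) (t : (Unit × ℕ) × ℕ) => ∑ j ∈ Finset.range (s y.length),
      ∑ l ∈ Finset.range (s y.length),
      (y.getD ((t.2 * s y.length + j) * s y.length + l) false).toNat *
        (y.getD (s y.length ^ 3 + t.1.2 * s y.length + t.2) false).toNat *
        (y.getD (s y.length ^ 3 + t.1.2 * s y.length + j) false).toNat *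
        (y.getD (s y.length ^ 3 + t.1.2 * s y.length + l) false).toNat) :=
    PF.sum (hn _) h2
  have h0 : PF (fun (y : List Bool) (t : Unit × ℕ) =>
      cubN (s y.length) (fun t => (y.getD t false).toNat)
        (fun i => (y.getD (s y.length ^ 3 + t.2 * s y.length + i) false).toNat)) :=
    PF.sum (hn _) h1
  have hp : PF (fun (y : List Bool) (_ : Unit) => pts (s y.length) y.length) :=
    (PF.len.sub ((hn Unit).pow 3)).div (hn Unit)
  exact PD.forall_lt hp
    (P := fun (y : List Bool) (t : Unit × ℕ) =>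
      cubN (s y.length) (fun t => (y.getD t false).toNat)
        (fun i => (y.getD (s y.length ^ 3 + t.2 * s y.length + i) false).toNat) % 2 = 0)
    (PD.eq (h0.mod (PF.const 2)) (PF.const 0))

/-- The language is in P, if the block length is computed in polynomial time. -/
theorem inP_L {s : ℕ → ℕ} (hn : ∀ (α : Type) [Ctx α], PF (fun (y : List Bool) (_ : α) => s y.length)) :
    Pool.Agent.KNL.InP (L s) := by
  classical
  refine ⟨fun w => decide (L s w), fun w => by simp, ?_⟩
  have h3 : PFBits (fun y : List Bool => (List.range 1).map (fun _ =>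
      decide (∀ b < pts (s y.length) y.length,
        cubN (s y.length) (fun t => (y.getD t false).toNat)
          (fun i => (y.getD (s y.length ^ 3 + b * s y.length + i) false).toNat) % 2 = 0))) :=
    pfBits_of_pd (L := fun _ => 1) (Q := fun y _ => ∀ b < pts (s y.length) y.length,
        cubN (s y.length) (fun t => (y.getD t false).toNat)
          (fun i => (y.getD (s y.length ^ 3 + b * s y.length + i) false).toNat) % 2 = 0)
      (PF.const 1) (pd_L hn).fst
  refine (h3.pc.congr fun x => ?_).polyTime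
  have e : ∀ m : ℕ, m % 2 = 0 ↔ (m : ZMod 2) = 0 := by
    intro m
    rw [ZMod.natCast_eq_zero_iff]
    exact (Nat.dvd_iff_mod_eq_zero).symm
  have : (∀ b < pts (s x.length) x.length,
        cubN (s x.length) (fun t => (x.getD t false).toNat)
          (fun i => (x.getD (s x.length ^ 3 + b * s x.length + i) false).toNat) % 2 = 0) ↔
      L s x := by
    unfold L
    refine forall_congr' fun b => forall_congr' fun _ => ?_
    rw [e, cubN_cast (s x.length) (fun t => x.getD t false)
      (fun i => x.getD (s x.length ^ 3 + b * s x.length + i) false)]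
  change [decide _] = [decide (L s x)]
  rw [decide_eq_decide.mpr this]

theorem inP_root (d : ℕ) : Pool.Agent.KNL.InP (L (root d)) := inP_L fun _ _ => pf_root d

theorem inP_lg (d : ℕ) : Pool.Agent.KNL.InP (L (lg d)) := inP_L fun _ _ => pf_lg d

end Pool.Agent.KH
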