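import Pool.Agent.KH.Cub
import Pool.Agent.KE.ExpAlg

/-! Quartic forms over the field with two elements. -/

namespace Pool.Agent.KH

open Finset Pool.Agent.SemRO Pool.Agent.KD Pool.Agent.KE

/-- the quadruples of variables -/
abbrev Qd4 (n : ℕ) : Type := Fin n × Fin n × Fin n × Fin n

/-- the monomial of a quadruple -/
def mon4 {n : ℕ} (x : Fin n → Bool) (t : Qd4 n) : Bool := x t.1 && (x t.2.1 && (x t.2.2.1 && x t.2.2.2))

/-- the value of the quartic form with the coefficients `C` -/
def quv {n : ℕ} (C : Qd4 n → Bool) (x : Fin n → Bool) : ZMod 2 := ∑ t : Qd4 n, zb (C t && mon4 x t)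

/-- the value of the quartic form, as a bit -/
def qua {n : ℕ} (C : Qd4 n → Bool) (x : Fin n → Bool) : Bool := decide (quv C x = 1)

lemma qua_false {n : ℕ} (C : Qd4 n → Bool) (x : Fin n → Bool) : qua C x = false ↔ quv C x = 0 := by
  unfold qua
  rw [decide_eq_false_iff_not]
  rcases zmod2 (quv C x) with h | h
  · rw [h]; decide
  · rw [h]; decide

/-- values of the sum of two forms -/
lemma quv_xor {n : ℕ} (C E : Qd4 n → Bool) (x : Fin n → Bool) :
    quv (fun t => xor (C t) (E t)) x = quv C x + quv E x := by
  unfold quv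
  rw [← Finset.sum_add_distrib]
  refine Finset.sum_congr rfl fun t _ => ?_
  rw [← zb_xor]
  congr 1
  show ((C t ^^ E t) && mon4 x t) = _
  cases C t <;> cases E t <;> cases mon4 x t <;> rfl

/-- **Balanced quartic forms exist.** -/
theorem exists_qua {n e : ℕ} (h : 3 * n + 1 ≤ 2 * e ^ 2) : ∃ C : Qd4 n → Bool, Bal (qua C) e := by
  classical
  obtain ⟨C, hC⟩ := exists_cubic (n := n) h
  refine ⟨fun t => C (t.1, t.2.1, t.2.2.1) && decide (t.2.2.2 = t.2.2.1), ?_⟩
  have e1 : (qua fun t => C (t.1, t.2.1, t.2.2.1) && decide (t.2.2.2 = t.2.2.1)) = cub C := by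
    funext x
    have h1 : quv (fun t => C (t.1, t.2.1, t.2.2.1) && decide (t.2.2.2 = t.2.2.1)) x =
        ∑ t : Tri n, zb (C t && mon x t) := by
      unfold quv
      rw [Fintype.sum_prod_type, Fintype.sum_prod_type]
      refine Finset.sum_congr rfl fun i _ => ?_
      rw [Fintype.sum_prod_type, Fintype.sum_prod_type]
      refine Finset.sum_congr rfl fun j _ => ?_
      rw [Fintype.sum_prod_type]
      refine Finset.sum_congr rfl fun l _ => ?_
      rw [Finset.sum_eq_single l]
      · simp only [mon4, mon, decide_true, Bool.and_true]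
        cases C (i, j, l) <;> cases x i <;> cases x j <;> cases x l <;> rfl
      · intro m _ hm
        simp only [decide_eq_false hm, Bool.and_false, Bool.false_and]
        rfl
      · intro hl
        exact absurd (Finset.mem_univ l) hl
    have h2 : ∑ t : Tri n, zb (C t && mon x t) =
        ((univ.filter fun t => (C t && mon x t) = true).card : ZMod 2) := by
      unfold zb
      rw [Finset.sum_ite, Finset.sum_const_zero, add_zero, Finset.sum_const, nsmul_eq_mul, mul_one]
    unfold qua cub
    rw [h1, h2]
    congr 1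
    have h3 : (1 : ZMod 2) = ((1 : ℕ) : ZMod 2) := by simp
    rw [h3, ZMod.natCast_eq_natCast_iff, Nat.odd_iff]
    unfold Nat.ModEq
    norm_num
  rw [e1]
  exact hC

end Pool.Agent.KH
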