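import Mathlib.Combinatorics.SetFamily.Shatter
import Pool.Agent.KH.Qua

/-! The zeros of suitable quartic forms contain no large rectangles. -/

namespace Pool.Agent.KH

open Finset Pool.Agent.SemRO Pool.Agent.KD Pool.Agent.KE

/-- sets with at most `m` elements are few -/
lemma card_small (n m : ℕ) : (univ.filter fun s : Finset (Fin n) => s.card ≤ m).card ≤ (n + 1) ^ m := by
  classical
  have h : (univ.filter fun s : Finset (Fin n) => s.card ≤ m) ⊆
      (univ : Finset (Fin m → Option (Fin n))).image (fun g => univ.filter fun x => ∃ j, g j = some x) := by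
    intro s hs
    have hs' := (Finset.mem_filter.1 hs).2
    refine Finset.mem_image.2 ⟨fun j => s.toList[(j : ℕ)]?, Finset.mem_univ _, ?_⟩
    ext x
    rw [Finset.mem_filter]
    constructor
    · rintro ⟨_, j, hj⟩
      exact Finset.mem_toList.1 (List.mem_of_getElem? hj)
    · intro hx
      obtain ⟨j, hj, hjx⟩ := List.mem_iff_getElem.1 (Finset.mem_toList.2 hx)
      refine ⟨Finset.mem_univ _, ⟨j, ?_⟩, ?_⟩
      · rw [Finset.length_toList] at hj
        omega
      · show s.toList[j]? = some x
        rw [List.getElem?_eq_getElem hj, hjx]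
  refine (Finset.card_le_card h).trans (Finset.card_image_le.trans (le_of_eq ?_))
  rw [Finset.card_univ, Fintype.card_fun, Fintype.card_option, Fintype.card_fin, Fintype.card_fin]

/-- many functions that differ on `A` take all values on some `k` elements of `A` -/
lemma exists_shattered {n k L : ℕ} (hL : (n + 1) ^ k < L) (A : Finset (Fin n)) (u : Fin L → Fin n → Bool)
    (hu : ∀ i j, i ≠ j → ∃ x ∈ A, u i x ≠ u j x) :
    ∃ κ : Fin k → Fin n, Function.Injective κ ∧ (∀ a, κ a ∈ A) ∧
      ∀ s : Fin k → Bool, ∃ i, ∀ a, u i (κ a) = s a := by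
  classical
  obtain ⟨F, hF⟩ : ∃ F : Finset (Finset (Fin n)), F = univ.image fun i => A.filter fun x => u i x = true := ⟨_, rfl⟩
  have hFc : F.card = L := by
    rw [hF, Finset.card_image_of_injective, Finset.card_univ, Fintype.card_fin]
    intro i j hij
    by_contra hne
    obtain ⟨x, hx, hxy⟩ := hu i j hne
    simp only at hij
    have h1 := congrArg (fun s => x ∈ s) hij
    simp only [Finset.mem_filter, hx, true_and, eq_iff_iff] at h1
    apply hxy
    cases h2 : u i x <;> cases h3 : u j x <;> simp_all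
  have h1 : L ≤ F.shatterer.card := by rw [← hFc]; exact Finset.card_le_card_shatterer F
  obtain ⟨s, hs, hsk⟩ : ∃ s ∈ F.shatterer, k < s.card := by
    by_contra hcon
    push Not at hcon
    have h2 : F.shatterer ⊆ univ.filter fun s : Finset (Fin n) => s.card ≤ k := fun s hs =>
      Finset.mem_filter.2 ⟨Finset.mem_univ _, hcon s hs⟩
    have h3 := (Finset.card_le_card h2).trans (card_small n k)
    omega
  rw [Finset.mem_shatterer] at hs
  have hsA : s ⊆ A := by
    obtain ⟨v, hv, hv2⟩ := hs (Finset.Subset.refl s)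
    rw [hF] at hv
    obtain ⟨i, _, rfl⟩ := Finset.mem_image.1 hv
    intro x hx
    rw [← hv2] at hx
    exact (Finset.mem_filter.1 (Finset.mem_inter.1 hx).2).1
  obtain ⟨s', hs's, hs'c⟩ := Finset.exists_subset_card_eq hsk.le
  refine ⟨fun a => (s'.equivFinOfCardEq hs'c).symm a, ?_, ?_, ?_⟩
  · intro a b hab
    exact (s'.equivFinOfCardEq hs'c).symm.injective (Subtype.ext hab)
  · intro a
    exact hsA (hs's ((s'.equivFinOfCardEq hs'c).symm a).2)
  · intro p
    obtain ⟨T, hT⟩ : ∃ T : Finset (Fin n), T = (univ.filter fun a => p a = true).image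
      fun a => ((s'.equivFinOfCardEq hs'c).symm a : Fin n) := ⟨_, rfl⟩
    have hTs : T ⊆ s := by
      intro x hx
      rw [hT] at hx
      obtain ⟨a, _, rfl⟩ := Finset.mem_image.1 hx
      exact hs's ((s'.equivFinOfCardEq hs'c).symm a).2
    obtain ⟨v, hv, hv2⟩ := hs hTs
    rw [hF] at hv
    obtain ⟨i, _, rfl⟩ := Finset.mem_image.1 hv
    refine ⟨i, fun a => ?_⟩
    have hmem : ((s'.equivFinOfCardEq hs'c).symm a : Fin n) ∈ s :=
      hs's ((s'.equivFinOfCardEq hs'c).symm a).2
    have h4 : ((s'.equivFinOfCardEq hs'c).symm a : Fin n) ∈ T ↔ p a = true := by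
      rw [hT, Finset.mem_image]
      constructor
      · rintro ⟨b, hb, hab⟩
        have : b = a := (s'.equivFinOfCardEq hs'c).symm.injective (Subtype.ext hab)
        rw [← this]
        exact (Finset.mem_filter.1 hb).2
      · intro h
        exact ⟨a, Finset.mem_filter.2 ⟨Finset.mem_univ _, h⟩, rfl⟩
    have h5 : ((s'.equivFinOfCardEq hs'c).symm a : Fin n) ∈ T ↔
        u i ((s'.equivFinOfCardEq hs'c).symm a : Fin n) = true := by
      rw [← hv2, Finset.mem_inter, Finset.mem_filter]
      exact ⟨fun h => h.2.2, fun h => ⟨hmem, hsA hmem, h⟩⟩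
    have h6 := h5.symm.trans h4
    cases h7 : u i ((s'.equivFinOfCardEq hs'c).symm a : Fin n) <;> cases h8 : p a <;> simp_all

/-- ordered pairs -/
abbrev Pk (k : ℕ) : Type := {p : Fin k × Fin k // p.1 < p.2}

/-- the indicator of a pair -/
def ind {k : ℕ} (P : Pk k) (a : Fin k) : Bool := decide (a = P.1.1 ∨ a = P.1.2)

lemma pair_eq {k : ℕ} {P Q : Pk k} (h1 : ind Q P.1.1 = true) (h2 : ind Q P.1.2 = true) : P = Q := by
  unfold ind at h1 h2
  rw [decide_eq_true_eq] at h1 h2
  have hP := P.2
  have hQ := Q.2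
  apply Subtype.ext
  apply Prod.ext
  · rcases h1 with h1 | h1
    · exact h1
    · rcases h2 with h2 | h2
      · rw [h1, h2] at hP
        exact absurd (hP.trans hQ) (lt_irrefl _)
      · rw [h1, h2] at hP
        exact absurd hP (lt_irrefl _)
  · rcases h2 with h2 | h2
    · rcases h1 with h1 | h1
      · rw [h1, h2] at hP
        exact absurd hP (lt_irrefl _)
      · rw [h1, h2] at hP
        exact absurd (hP.trans hQ) (lt_irrefl _)
    · exact h2

section count
variable {n k : ℕ} {A : Finset (Fin n)} {κ κ' : Fin k → Fin n} {p p' : Pk k → Fin n → Bool}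

/-- the conditions on the data of a grid of points -/
structure Grid (A : Finset (Fin n)) (κ κ' : Fin k → Fin n) (p p' : Pk k → Fin n → Bool) : Prop where
  inj : Function.Injective κ
  inj' : Function.Injective κ'
  mem : ∀ a, κ a ∈ A
  mem' : ∀ a, κ' a ∉ A
  val : ∀ P a, p P (κ a) = ind P a
  val' : ∀ P a, p' P (κ' a) = ind P a

open Classical in
/-- the form with given coefficients at the monomials of the grid -/
noncomputable def frm (κ κ' : Fin k → Fin n) (D : Pk k → Pk k → Bool) (t : Qd4 n) : Bool :=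
  decide (∃ P P', t = (κ P.1.1, κ P.1.2, κ' P'.1.1, κ' P'.1.2) ∧ D P P' = true)

lemma quv_frm (h : Grid A κ κ' p p') (D : Pk k → Pk k → Bool) (P P' : Pk k) :
    quv (frm κ κ' D) (mix A (p P) (p' P')) = zb (D P P') := by
  classical
  obtain ⟨z, hz⟩ : ∃ z, z = mix A (p P) (p' P') := ⟨_, rfl⟩
  have hz1 : ∀ a, z (κ a) = ind P a := by
    intro a
    rw [hz, mix, if_pos (h.mem a), h.val]
  have hz2 : ∀ a, z (κ' a) = ind P' a := by
    intro a
    rw [hz, mix, if_neg (h.mem' a), h.val']
  rw [← hz]
  unfold quv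
  rw [Finset.sum_eq_single (κ P.1.1, κ P.1.2, κ' P'.1.1, κ' P'.1.2)]
  · have h1 : mon4 z (κ P.1.1, κ P.1.2, κ' P'.1.1, κ' P'.1.2) = true := by
      unfold mon4
      simp only [hz1, hz2]
      simp [ind]
    rw [h1, Bool.and_true]
    congr 1
    unfold frm
    by_cases hD : D P P' = true
    · rw [hD, decide_eq_true_eq]
      exact ⟨P, P', rfl, hD⟩
    · have hD' : D P P' = false := by simpa using hD
      rw [hD', decide_eq_false_iff_not]
      rintro ⟨Q, Q', h2, h3⟩
      simp only [Prod.mk.injEq] at h2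
      have e1 : P = Q := Subtype.ext (Prod.ext (h.inj h2.1) (h.inj h2.2.1))
      have e2 : P' = Q' := Subtype.ext (Prod.ext (h.inj' h2.2.2.1) (h.inj' h2.2.2.2))
      rw [← e1, ← e2] at h3
      exact hD h3
  · intro t _ ht
    have h1 : (frm κ κ' D t && mon4 z t) = false := by
      by_contra hcon
      rw [Bool.not_eq_false, Bool.and_eq_true] at hcon
      obtain ⟨h2, h3⟩ := hcon
      unfold frm at h2
      rw [decide_eq_true_eq] at h2
      obtain ⟨Q, Q', h4, _⟩ := h2
      apply ht
      rw [h4] at h3 ⊢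
      unfold mon4 at h3
      simp only [hz1, hz2, Bool.and_eq_true] at h3
      have e1 : Q = P := pair_eq h3.1 h3.2.1
      have e2 : Q' = P' := pair_eq h3.2.2.1 h3.2.2.2
      rw [e1, e2]
    rw [h1]
    rfl
  · intro h1
    exact absurd (Finset.mem_univ _) h1

/-- few forms vanish on a grid -/
lemma card_vanish (h : Grid A κ κ' p p') [DecidablePred fun C : Qd4 n → Bool =>
      ∀ P P', qua C (mix A (p P) (p' P')) = false] :
    (univ.filter fun C : Qd4 n → Bool => ∀ P P', qua C (mix A (p P) (p' P')) = false).card *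
      2 ^ (Fintype.card (Pk k) * Fintype.card (Pk k)) ≤ Fintype.card (Qd4 n → Bool) := by
  classical
  have e1 : 2 ^ (Fintype.card (Pk k) * Fintype.card (Pk k)) = Fintype.card (Pk k → Pk k → Bool) := by
    rw [Fintype.card_fun, Fintype.card_fun, Fintype.card_bool, ← pow_mul]
  rw [e1, ← Finset.card_univ, ← Finset.card_product, ← Finset.card_univ]
  refine Finset.card_le_card_of_injOn
    (fun w : (Qd4 n → Bool) × (Pk k → Pk k → Bool) => fun t => xor (w.1 t) (frm κ κ' w.2 t))
    (fun w _ => Finset.mem_coe.2 (Finset.mem_univ _)) ?_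
  rintro ⟨C, D⟩ hw ⟨C1, D1⟩ hw1 heq
  simp only at heq
  have hC := (Finset.mem_filter.1 (Finset.mem_product.1 (Finset.mem_coe.1 hw)).1).2
  have hC1 := (Finset.mem_filter.1 (Finset.mem_product.1 (Finset.mem_coe.1 hw1)).1).2
  have hD : D = D1 := by
    funext P P'
    have h1 := congrArg (fun X => quv X (mix A (p P) (p' P'))) heq
    rw [quv_xor, quv_xor, (qua_false _ _).1 (hC P P'), (qua_false _ _).1 (hC1 P P'), zero_add, zero_add,
      quv_frm h, quv_frm h] at h1
    cases h2 : D P P' <;> cases h3 : D1 P P'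
    · rfl
    · rw [h2, h3] at h1
      exact absurd h1 (by decide)
    · rw [h2, h3] at h1
      exact absurd h1 (by decide)
    · rfl
  refine Prod.ext ?_ hD
  simp only
  funext t
  have h1 := congrFun heq t
  simp only [hD] at h1
  cases h2 : C t <;> cases h3 : C1 t <;> cases h4 : frm κ κ' D1 t <;> simp_all

end count

/-- the number of pairs -/
lemma card_Pk (k : ℕ) : Fintype.card (Pk k) = k * (k - 1) / 2 := by
  classical
  have h1 : Fintype.card (Pk k) + Fintype.card (Pk k) + k = k * k := by
    have e1 : Fintype.card (Pk k) = ((univ : Finset (Fin k × Fin k)).filter fun p => p.1 < p.2).card := by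
      rw [Fintype.card_subtype]
    have e2 : ((univ : Finset (Fin k × Fin k)).filter fun p => p.1 < p.2).card =
        ((univ : Finset (Fin k × Fin k)).filter fun p => p.2 < p.1).card := by
      refine Finset.card_bij' (fun p _ => (p.2, p.1)) (fun p _ => (p.2, p.1)) ?_ ?_ ?_ ?_
      · intro p hp
        exact Finset.mem_filter.2 ⟨Finset.mem_univ _, (Finset.mem_filter.1 hp).2⟩
      · intro p hp
        exact Finset.mem_filter.2 ⟨Finset.mem_univ _, (Finset.mem_filter.1 hp).2⟩
      · intro p _
        rfl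
      · intro p _
        rfl
    have e3 : ((univ : Finset (Fin k × Fin k)).filter fun p => p.1 = p.2).card = k := by
      have : ((univ : Finset (Fin k × Fin k)).filter fun p => p.1 = p.2) = univ.image fun i => (i, i) := by
        ext ⟨a, b⟩
        simp only [Finset.mem_filter, Finset.mem_univ, true_and, Finset.mem_image, Prod.mk.injEq]
        constructor
        · intro h
          exact ⟨a, rfl, h⟩
        · rintro ⟨c, h1, h2⟩
          rw [← h1, ← h2]
      rw [this, Finset.card_image_of_injective, Finset.card_univ, Fintype.card_fin]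
      intro a b hab
      exact (Prod.mk.inj hab).1
    have e4 : (univ : Finset (Fin k × Fin k)).card = k * k := by
      rw [Finset.card_univ, Fintype.card_prod, Fintype.card_fin]
    have e5 : (univ : Finset (Fin k × Fin k)) =
        ((univ.filter fun p => p.1 < p.2) ∪ (univ.filter fun p => p.2 < p.1)) ∪ (univ.filter fun p => p.1 = p.2) := by
      ext p
      simp only [Finset.mem_univ, Finset.mem_union, Finset.mem_filter, true_and, true_iff]
      rcases lt_trichotomy p.1 p.2 with h | h | h
      · exact Or.inl (Or.inl h)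
      · exact Or.inr h
      · exact Or.inl (Or.inr h)
    rw [e5, Finset.card_union_of_disjoint, Finset.card_union_of_disjoint, ← e2, e3, ← e1] at e4
    · exact e4
    · rw [Finset.disjoint_left]
      intro p h1 h2
      exact absurd ((Finset.mem_filter.1 h1).2.trans (Finset.mem_filter.1 h2).2) (lt_irrefl _)
    · rw [Finset.disjoint_left]
      intro p h1 h2
      have h3 := (Finset.mem_filter.1 h2).2
      rcases Finset.mem_union.1 h1 with h4 | h4
      · exact absurd h3 (ne_of_lt (Finset.mem_filter.1 h4).2)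
      · exact absurd h3.symm (ne_of_lt (Finset.mem_filter.1 h4).2)
  have h2 : k * (k - 1) = Fintype.card (Pk k) + Fintype.card (Pk k) := by
    rw [Nat.mul_sub, mul_one]
    omega
  rw [h2]
  omega

/-- half of the forms vanish at a point, at least -/
lemma half_zero {n : ℕ} (x : Fin n → Bool) :
    Fintype.card (Qd4 n → Bool) ≤ 2 * (univ.filter fun C : Qd4 n → Bool => qua C x = false).card := by
  classical
  by_cases hx : ∃ i, x i = true
  · obtain ⟨i, hi⟩ := hx
    have h1 : (univ.filter fun C : Qd4 n → Bool => ¬ qua C x = false).card ≤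
        (univ.filter fun C : Qd4 n → Bool => qua C x = false).card := by
      refine Finset.card_le_card_of_injOn (fun C => fun t => xor (C t) (decide (t = (i, i, i, i)))) ?_ ?_
      · intro C hC
        have hC1 := (Finset.mem_filter.1 (Finset.mem_coe.1 hC)).2
        refine Finset.mem_coe.2 (Finset.mem_filter.2 ⟨Finset.mem_univ _, ?_⟩)
        rw [qua_false] at hC1 ⊢
        rw [quv_xor]
        have e1 : quv (fun t : Qd4 n => decide (t = (i, i, i, i))) x = 1 := by
          unfold quv
          rw [Finset.sum_eq_single (i, i, i, i)]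
          · simp [mon4, hi, zb]
          · intro t _ ht
            simp [ht, zb]
          · intro h
            exact absurd (Finset.mem_univ _) h
        rw [e1]
        rcases zmod2 (quv C x) with h | h
        · exact absurd h hC1
        · rw [h]; decide
      · intro C _ C' _ h
        funext t
        have h2 := congrFun h t
        simp only at h2
        cases h3 : C t <;> cases h4 : C' t <;> cases h5 : decide (t = (i, i, i, i)) <;> simp_all
    have h2 := Finset.card_filter_add_card_filter_not (s := (univ : Finset (Qd4 n → Bool)))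
      (fun C => qua C x = false)
    rw [Finset.card_univ] at h2
    omega
  · push Not at hx
    have h1 : (univ.filter fun C : Qd4 n → Bool => qua C x = false) = univ := by
      refine Finset.filter_true_of_mem fun C _ => ?_
      rw [qua_false]
      unfold quv
      refine Finset.sum_eq_zero fun t _ => ?_
      have : x t.1 = false := by
        have := hx t.1
        simpa using this
      simp [mon4, this, zb]
    rw [h1, Finset.card_univ]
    omega

/-- the data of a grid -/
abbrev Dat (n k : ℕ) : Type :=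
  Finset (Fin n) × ((Fin k → Fin n) × (Fin k → Fin n)) × ((Pk k → Fin n → Bool) × (Pk k → Fin n → Bool))

/-- the form vanishes on the grid -/
def Van {n k : ℕ} (D : Dat n k) (C : Qd4 n → Bool) : Prop :=
  Grid D.1 D.2.1.1 D.2.1.2 D.2.2.1 D.2.2.2 ∧ ∀ P P', qua C (mix D.1 (D.2.2.1 P) (D.2.2.2 P')) = false

lemma card_Dat (n k : ℕ) : Fintype.card (Dat n k) ≤
    2 ^ (n + 2 * (n * k) + 2 * (n * Fintype.card (Pk k))) := by
  classical
  have h1 : n ^ k ≤ 2 ^ (n * k) := by
    rw [pow_mul]
    exact Nat.pow_le_pow_left Nat.lt_two_pow_self.le _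
  have e1 : Fintype.card (Dat n k) = 2 ^ n * (n ^ k * n ^ k *
      (2 ^ (n * Fintype.card (Pk k)) * 2 ^ (n * Fintype.card (Pk k)))) := by
    simp only [Fintype.card_prod, Fintype.card_finset, Fintype.card_fun, Fintype.card_fin,
      Fintype.card_bool, pow_mul]
  rw [e1]
  calc _ ≤ 2 ^ n * (2 ^ (n * k) * 2 ^ (n * k) *
      (2 ^ (n * Fintype.card (Pk k)) * 2 ^ (n * Fintype.card (Pk k)))) :=
        Nat.mul_le_mul_left _ (Nat.mul_le_mul_right _ (Nat.mul_le_mul h1 h1))
    _ = _ := by
      rw [← pow_add, ← pow_add, ← pow_add, ← pow_add]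
      congr 1
      ring

/-- a rectangle contains a grid -/
lemma van_of_rect {n k L : ℕ} (hL : (n + 1) ^ k < L) {C : Qd4 n → Bool}
    (h : ¬ RectFree {x | qua C x = false} L) : ∃ D : Dat n k, Van D C := by
  classical
  unfold RectFree at h
  push Not at h
  obtain ⟨A, u, v, hu, hv, hm⟩ := h
  obtain ⟨κ, h1, h2, h3⟩ := exists_shattered hL A u hu
  obtain ⟨κ', h1', h2', h3'⟩ := exists_shattered hL Aᶜ v (fun i j hij => by
    obtain ⟨x, hx, hx2⟩ := hv i j hij
    exact ⟨x, Finset.mem_compl.2 hx, hx2⟩)
  choose p hp using fun P : Pk k => h3 (ind P)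
  choose p' hp' using fun P : Pk k => h3' (ind P)
  refine ⟨(A, (κ, κ'), (fun P => u (p P), fun P => v (p' P))), ⟨h1, h1', h2, fun a => Finset.mem_compl.1 (h2' a),
    fun P a => hp P a, fun P a => hp' P a⟩, fun P P' => ?_⟩
  have := hm (p P) (p' P')
  exact this

/-- **Quartic forms with many zeros and no large rectangles of zeros exist.** -/
theorem exists_rect (n : ℕ) : ∃ C : Qd4 n → Bool,
    RectFree {x | qua C x = false} ((n + 1) ^ (2 * Nat.sqrt n + 8) + 1) ∧
    2 ^ n ≤ 4 * (univ.filter fun x : Fin n → Bool => qua C x = false).card := by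
  classical
  obtain ⟨k, hk⟩ : ∃ k, k = 2 * Nat.sqrt n + 8 := ⟨_, rfl⟩
  obtain ⟨m, hm⟩ : ∃ m, m = Fintype.card (Pk k) := ⟨_, rfl⟩
  rw [← hk]
  have hs1 : Nat.sqrt n * Nat.sqrt n ≤ n := Nat.sqrt_le n
  have hs2 : n ≤ Nat.sqrt n * Nat.sqrt n + Nat.sqrt n + Nat.sqrt n := Nat.sqrt_le_add n
  have hm2 : 2 * n + 2 * k + 1 ≤ m := by
    rw [hm, card_Pk, hk]
    generalize Nat.sqrt n = s at hs1 hs2
    have e1 : (2 * s + 8) * (2 * s + 8 - 1) / 2 = 2 * (s * s) + 15 * s + 28 := by
      have : (2 * s + 8) * (2 * s + 8 - 1) = 2 * (2 * (s * s) + 15 * s + 28) := by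
        have h8 : 2 * s + 8 - 1 = 2 * s + 7 := by omega
        rw [h8]; ring
      rw [this]
      omega
    rw [e1]
    omega
  have hexp : n + 2 * (n * k) + 2 * (n * m) + 2 ≤ m * m := by
    have h1 : (2 * n + 2 * k + 1) * m ≤ m * m := Nat.mul_le_mul_right _ hm2
    have h2 : n * k ≤ k * m := by
      rw [mul_comm n k]
      exact Nat.mul_le_mul_left _ (by omega)
    have e1 : (2 * n + 2 * k + 1) * m = 2 * (n * m) + 2 * (k * m) + m := by ring
    omega
  obtain ⟨Q, hQ⟩ : ∃ Q, Q = Fintype.card (Qd4 n → Bool) := ⟨_, rfl⟩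
  obtain ⟨bad, hbad⟩ : ∃ bad : Finset (Qd4 n → Bool), bad = univ.filter fun C => ∃ D : Dat n k, Van D C :=
    ⟨_, rfl⟩
  have hQpos : 0 < Q := by rw [hQ]; exact Fintype.card_pos
  have hbadc : 4 * bad.card ≤ Q := by
    have h1 : bad ⊆ (univ : Finset (Dat n k)).biUnion fun D => univ.filter fun C => Van D C := by
      intro C hC
      rw [hbad] at hC
      obtain ⟨D, hD⟩ := (Finset.mem_filter.1 hC).2
      exact Finset.mem_biUnion.2 ⟨D, Finset.mem_univ _, Finset.mem_filter.2 ⟨Finset.mem_univ _, hD⟩⟩
    have h2 : ∀ D : Dat n k, (univ.filter fun C => Van D C).card * 2 ^ (m * m) ≤ Q := by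
      intro D
      by_cases hG : Grid D.1 D.2.1.1 D.2.1.2 D.2.2.1 D.2.2.2
      · rw [hm, hQ]
        refine le_trans (Nat.mul_le_mul_right _ (Finset.card_le_card ?_)) (card_vanish hG)
        intro C hC
        exact Finset.mem_filter.2 ⟨Finset.mem_univ _, (Finset.mem_filter.1 hC).2.2⟩
      · have : (univ.filter fun C => Van D C) = ∅ := by
          refine Finset.filter_false_of_mem fun C _ h => hG h.1
        rw [this, Finset.card_empty, zero_mul]
        exact Nat.zero_le _
    have h3 : bad.card * 2 ^ (m * m) ≤ 2 ^ (n + 2 * (n * k) + 2 * (n * m)) * Q := by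
      calc bad.card * 2 ^ (m * m) ≤ (∑ D : Dat n k, (univ.filter fun C => Van D C).card) * 2 ^ (m * m) :=
            Nat.mul_le_mul_right _ ((Finset.card_le_card h1).trans Finset.card_biUnion_le)
        _ = ∑ D : Dat n k, (univ.filter fun C => Van D C).card * 2 ^ (m * m) := by rw [Finset.sum_mul]
        _ ≤ ∑ _D : Dat n k, Q := Finset.sum_le_sum fun D _ => h2 D
        _ = Fintype.card (Dat n k) * Q := by rw [Finset.sum_const, Finset.card_univ, smul_eq_mul]
        _ ≤ _ := Nat.mul_le_mul_right _ (by rw [hm]; exact card_Dat n k)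
    have h4 : 2 ^ (n + 2 * (n * k) + 2 * (n * m)) * 4 ≤ 2 ^ (m * m) := by
      calc 2 ^ (n + 2 * (n * k) + 2 * (n * m)) * 4 = 2 ^ (n + 2 * (n * k) + 2 * (n * m) + 2) := by
            rw [pow_add _ _ 2]; norm_num
        _ ≤ _ := Nat.pow_le_pow_right (by norm_num) hexp
    have h5 : 4 * bad.card * 2 ^ (n + 2 * (n * k) + 2 * (n * m)) ≤
        Q * 2 ^ (n + 2 * (n * k) + 2 * (n * m)) := by
      calc 4 * bad.card * 2 ^ (n + 2 * (n * k) + 2 * (n * m)) =
            bad.card * (2 ^ (n + 2 * (n * k) + 2 * (n * m)) * 4) := by ring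
        _ ≤ bad.card * 2 ^ (m * m) := Nat.mul_le_mul_left _ h4
        _ ≤ _ := by rw [mul_comm Q]; exact h3
    exact Nat.le_of_mul_le_mul_right h5 (by positivity)
  -- average number of zeros
  have hsum : Q * 2 ^ n ≤ 2 * ∑ C : Qd4 n → Bool, (univ.filter fun x : Fin n → Bool => qua C x = false).card := by
    have e1 : ∑ C : Qd4 n → Bool, (univ.filter fun x : Fin n → Bool => qua C x = false).card =
        ∑ x : Fin n → Bool, (univ.filter fun C : Qd4 n → Bool => qua C x = false).card := by
      simp only [Finset.card_filter]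
      exact Finset.sum_comm
    rw [e1, Finset.mul_sum]
    calc Q * 2 ^ n = ∑ _x : Fin n → Bool, Q := by
          rw [Finset.sum_const, Finset.card_univ, Fintype.card_fun, Fintype.card_bool, Fintype.card_fin,
            smul_eq_mul, mul_comm]
      _ ≤ _ := Finset.sum_le_sum fun x _ => by rw [hQ]; exact half_zero x
  by_contra hcon
  push Not at hcon
  have hz : ∀ C : Qd4 n → Bool, C ∉ bad →
      4 * (univ.filter fun x : Fin n → Bool => qua C x = false).card < 2 ^ n := by
    intro C hC
    refine hcon C ?_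
    by_contra hR
    apply hC
    rw [hbad]
    exact Finset.mem_filter.2 ⟨Finset.mem_univ _, van_of_rect (Nat.lt_succ_self _) hR⟩
  have hle : ∀ C : Qd4 n → Bool, (univ.filter fun x : Fin n → Bool => qua C x = false).card ≤ 2 ^ n := by
    intro C
    refine (Finset.card_le_univ _).trans (le_of_eq ?_)
    rw [Fintype.card_fun, Fintype.card_bool, Fintype.card_fin]
  have hs3 : 4 * ∑ C : Qd4 n → Bool, (univ.filter fun x : Fin n → Bool => qua C x = false).card <
      2 * (Q * 2 ^ n) := by
    rw [← Finset.sum_add_sum_compl bad, mul_add]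
    have hcompl : bad.card + badᶜ.card = Q := by
      rw [hQ]
      exact Finset.card_add_card_compl bad
    have h1 : 4 * ∑ C ∈ bad, (univ.filter fun x : Fin n → Bool => qua C x = false).card ≤ Q * 2 ^ n := by
      calc 4 * ∑ C ∈ bad, (univ.filter fun x : Fin n → Bool => qua C x = false).card ≤
            4 * ∑ _C ∈ bad, 2 ^ n := Nat.mul_le_mul_left _ (Finset.sum_le_sum fun C _ => hle C)
        _ = 4 * bad.card * 2 ^ n := by rw [Finset.sum_const, smul_eq_mul, mul_assoc]
        _ ≤ _ := Nat.mul_le_mul_right _ hbadc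
    have h2 : 4 * ∑ C ∈ badᶜ, (univ.filter fun x : Fin n → Bool => qua C x = false).card < Q * 2 ^ n := by
      have hne : (badᶜ).Nonempty := by
        rw [← Finset.card_pos]
        omega
      rw [Finset.mul_sum]
      calc ∑ C ∈ badᶜ, 4 * (univ.filter fun x : Fin n → Bool => qua C x = false).card <
            ∑ _C ∈ badᶜ, 2 ^ n :=
            Finset.sum_lt_sum_of_nonempty hne fun C hC => hz C (Finset.mem_compl.1 hC)
        _ = badᶜ.card * 2 ^ n := by rw [Finset.sum_const, smul_eq_mul]
        _ ≤ _ := Nat.mul_le_mul_right _ (by omega)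
    omega
  omega

end Pool.Agent.KH
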