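import Pool.Agent.KH.PT
import Pool.Agent.KD.Defs

/-! A nondeterministic program without stack for the complement of the language: it guesses a point and
evaluates the cubic form there. -/

namespace Pool.Agent.KH

open Pool.Agent.KNL Pool.Agent.KE Finset

/-- the nodes -/
inductive UNode (B T : ℕ) : Type
  /-- the source -/
  | src
  /-- the accepting node -/
  | acc
  /-- at point `b`, after `t` tests, with the sum `s` of the complete monomials and the product `p` of the
  factors of the current one -/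
  | st (b : Fin B) (t : Fin (T + 1)) (s p : Bool)

/-- the nodes are the elements of a finite type -/
def UNode.equiv (B T : ℕ) : UNode B T ≃ Bool ⊕ (Fin B × Fin (T + 1) × Bool × Bool) where
  toFun
    | .src => .inl false
    | .acc => .inl true
    | .st b t s p => .inr (b, t, s, p)
  invFun
    | .inl false => .src
    | .inl true => .acc
    | .inr (b, t, s, p) => .st b t s p
  left_inv w := by cases w <;> rfl
  right_inv w := by
    rcases w with b | ⟨b, t, s, p⟩
    · cases b <;> rfl
    · rfl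

noncomputable instance (B T : ℕ) : Fintype (UNode B T) := Fintype.ofEquiv _ (UNode.equiv B T).symm

theorem card_UNode (B T : ℕ) : Fintype.card (UNode B T) = 2 + B * ((T + 1) * 4) := by
  rw [Fintype.card_congr (UNode.equiv B T)]
  simp

/-- the variable that is tested -/
def pos (n b t : ℕ) : ℕ :=
  if t % 4 = 0 then t / 4
  else if t % 4 = 1 then n ^ 3 + b * n + t / 4 / n / n
  else if t % 4 = 2 then n ^ 3 + b * n + t / 4 / n % n
  else n ^ 3 + b * n + t / 4 % n

/-- the new state after a test with the result `c` -/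
def step (t : ℕ) (c : Bool) (w : Bool × Bool) : Bool × Bool :=
  if t % 4 = 3 then (xor w.1 (w.2 && c), true) else (w.1, w.2 && c)

/-- the program -/
def up (N n B : ℕ) : SBP (UNode B (4 * n ^ 3)) Empty (Fin N) where
  src := .src
  acc := .acc
  free u v := (∃ b, u = .src ∧ v = .st b 0 false true) ∨
    ∃ b p, u = .st b (Fin.last _) true p ∧ v = .acc
  test u i c v := ∃ (b : Fin B) (t : ℕ) (ht : t < 4 * n ^ 3) (w : Bool × Bool),
    u = .st b ⟨t, by omega⟩ w.1 w.2 ∧ (i : ℕ) = pos n b t ∧
      v = .st b ⟨t + 1, by omega⟩ (step t c w).1 (step t c w).2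
  push _ _ _ := False
  pop _ _ _ := False

/-- the state after `k` more tests -/
def runs (n : ℕ) (y : ℕ → Bool) (b : ℕ) : ℕ → ℕ → Bool × Bool → Bool × Bool
  | 0, _, w => w
  | k + 1, t, w => runs n y b k (t + 1) (step t (y (pos n b t)) w)

theorem runs_succ (n : ℕ) (y : ℕ → Bool) (b k t : ℕ) (w : Bool × Bool) :
    runs n y b (k + 1) t w = step (t + k) (y (pos n b (t + k))) (runs n y b k t w) := by
  induction k generalizing t w with
  | zero => rfl
  | succ k ih =>
    rw [runs, ih]
    rw [show t + 1 + k = t + (k + 1) by ring]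
    rfl

/-- the monomial number `m` -/
def mono (n : ℕ) (C x : ℕ → Bool) (m : ℕ) : ZMod 2 :=
  zb (C m) * zb (x (m / n / n)) * zb (x (m / n % n)) * zb (x (m % n))

theorem sum_range_mul' (f : ℕ → ZMod 2) (a n : ℕ) :
    ∑ m ∈ range (a * n), f m = ∑ i ∈ range a, ∑ j ∈ range n, f (i * n + j) := by
  induction a with
  | zero => simp
  | succ a ih => rw [add_mul, one_mul, Finset.sum_range_add, ih, Finset.sum_range_succ]

theorem cubic_eq (n : ℕ) (C x : ℕ → Bool) :
    cubic n C x = ∑ m ∈ range (n ^ 3), mono n C x m := by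
  rw [show n ^ 3 = n * n * n by ring, sum_range_mul', sum_range_mul' _ n n]
  unfold cubic
  refine Finset.sum_congr rfl fun i hi => Finset.sum_congr rfl fun j hj =>
    Finset.sum_congr rfl fun l hl => ?_
  have hj' := mem_range.1 hj
  have hl' := mem_range.1 hl
  have hn : 0 < n := by omega
  have e1 : ((i * n + j) * n + l) / n = i * n + j := by
    rw [mul_comm, Nat.mul_add_div hn, Nat.div_eq_of_lt hl', add_zero]
  have e2 : (i * n + j) / n = i := by
    rw [mul_comm, Nat.mul_add_div hn, Nat.div_eq_of_lt hj', add_zero]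
  have e3 : ((i * n + j) * n + l) % n = l := by
    rw [mul_comm, Nat.mul_add_mod, Nat.mod_eq_of_lt hl']
  have e4 : (i * n + j) % n = j := by
    rw [mul_comm, Nat.mul_add_mod, Nat.mod_eq_of_lt hj']
  unfold mono
  rw [e1, e2, e3, e4]

theorem zb_step (m : ℕ) (c0 c1 c2 c3 : Bool) (s : Bool) :
    step (4 * m + 3) c3 (step (4 * m + 2) c2 (step (4 * m + 1) c1 (step (4 * m) c0 (s, true)))) =
      (xor s (c0 && c1 && c2 && c3), true) := by
  have e0 : (4 * m) % 4 = 0 := by omega
  have e1 : (4 * m + 1) % 4 = 1 := by omega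
  have e2 : (4 * m + 2) % 4 = 2 := by omega
  have e3 : (4 * m + 3) % 4 = 3 := by omega
  simp [step, e0, e1, e2, e3]

theorem runs_four (n : ℕ) (y : ℕ → Bool) (b m : ℕ) :
    (runs n y b (4 * m) 0 (false, true)).2 = true ∧
      zb (runs n y b (4 * m) 0 (false, true)).1 =
        ∑ m' ∈ range m, mono n y (fun i => y (n ^ 3 + b * n + i)) m' := by
  induction m with
  | zero => exact ⟨rfl, by simp [runs, zb]⟩
  | succ m ih =>
    obtain ⟨h1, h2⟩ := ih
    set r := runs n y b (4 * m) 0 (false, true) with hr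
    have hr' : r = (r.1, true) := by rw [← h1]
    have e : runs n y b (4 * (m + 1)) 0 (false, true) = (xor r.1 (y (pos n b (4 * m)) &&
        y (pos n b (4 * m + 1)) && y (pos n b (4 * m + 2)) && y (pos n b (4 * m + 3))), true) := by
      rw [show 4 * (m + 1) = 4 * m + 3 + 1 by ring, runs_succ, runs_succ, runs_succ, runs_succ, ← hr,
        zero_add, zero_add, zero_add, zero_add, hr', zb_step]
    rw [e]
    refine ⟨rfl, ?_⟩
    rw [Finset.sum_range_succ, zb_xor, zb_and, zb_and, zb_and, ← h2]
    unfold mono pos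
    have e0 : (4 * m) % 4 = 0 := by omega
    have e1 : (4 * m + 1) % 4 = 1 := by omega
    have e2 : (4 * m + 2) % 4 = 2 := by omega
    have e3 : (4 * m + 3) % 4 = 3 := by omega
    have d0 : (4 * m) / 4 = m := by omega
    have d1 : (4 * m + 1) / 4 = m := by omega
    have d2 : (4 * m + 2) / 4 = m := by omega
    have d3 : (4 * m + 3) / 4 = m := by omega
    simp [e0, e1, e2, e3, d0, d1, d2, d3]

theorem zb_eq_one (b : Bool) : zb b = 1 ↔ b = true := by cases b <;> decide

theorem zb_ne_zero (b : Bool) : zb b ≠ 0 ↔ b = true := by cases b <;> decide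

theorem getD_of {N : ℕ} {y : Fin N → Bool} {i : Fin N} {m : ℕ} (h : (i : ℕ) = m) :
    (List.ofFn y).getD m false = y i := by
  subst h
  rw [List.getD_eq_getElem _ _ (by simp)]
  simp

theorem walk_st {N n B : ℕ} (y : Fin N → Bool) (b : Fin B) :
    ∀ (k t : ℕ) (h : t + k = 4 * n ^ 3) (w : Bool × Bool) (l : List (Fin N)),
      (up N n B).Walk y (.st b ⟨t, by omega⟩ w.1 w.2) [] .acc [] l →
      l.length = k ∧ (runs n (fun i => (List.ofFn y).getD i false) b k t w).1 = true := by
  intro k
  induction k with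
  | zero =>
    intro t h w l hl
    cases hl with
    | free h1 h2 =>
      rcases h1 with ⟨b', h1, _⟩ | ⟨b', p, h1, rfl⟩
      · cases h1
      · injection h1 with _ _ h3 _
        refine ⟨?_, h3⟩
        cases h2 with
        | nil => rfl
        | free h4 _ =>
          rcases h4 with ⟨_, h4, _⟩ | ⟨_, _, h4, _⟩
          · cases h4
          · cases h4
        | test h4 _ =>
          obtain ⟨_, _, _, _, h4, _⟩ := h4
          cases h4
        | push h4 _ => exact h4.elim
    | test h1 h2 =>
      obtain ⟨b', t', ht', w', h3, _⟩ := h1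
      injection h3 with _ h4 _ _
      have := congrArg Fin.val h4
      simp at this
      omega
    | push h4 _ => exact h4.elim
  | succ k ih =>
    intro t h w l hl
    cases hl with
    | free h1 h2 =>
      rcases h1 with ⟨b', h1, _⟩ | ⟨b', p, h1, rfl⟩
      · cases h1
      · injection h1 with _ h4 _ _
        have := congrArg Fin.val h4
        simp at this
        omega
    | test h1 h2 =>
      obtain ⟨b', t', ht', w', h3, h5, rfl⟩ := h1
      injection h3 with h6 h4 h7 h8
      have h9 := congrArg Fin.val h4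
      simp only at h9
      subst h6 h9
      have h10 : w' = w := Prod.ext h7.symm h8.symm
      subst h10
      obtain ⟨h11, h12⟩ := ih (t + 1) (by omega) _ _ h2
      refine ⟨by simp [h11], ?_⟩
      rw [runs]
      simp only [getD_of h5]
      exact h12
    | push h4 _ => exact h4.elim

theorem st_walk {N n B : ℕ} (y : Fin N → Bool) (b : Fin B)
    (hpos : ∀ t < 4 * n ^ 3, pos n b t < N) :
    ∀ (k t : ℕ) (h : t + k = 4 * n ^ 3) (w : Bool × Bool),
      (runs n (fun i => (List.ofFn y).getD i false) b k t w).1 = true →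
      ∃ l, (up N n B).Walk y (.st b ⟨t, by omega⟩ w.1 w.2) [] .acc [] l := by
  intro k
  induction k with
  | zero =>
    intro t h w hw
    refine ⟨[], SBP.Walk.free (Or.inr ⟨b, w.2, ?_, rfl⟩) (SBP.Walk.nil _ _)⟩
    have hw' : w.1 = true := hw
    rw [hw']
    congr 1
    ext
    simp
    omega
  | succ k ih =>
    intro t h w hw
    have hp := hpos t (by omega)
    have h13 : (List.ofFn y).getD (pos n b t) false = y ⟨pos n b t, hp⟩ := by
      rw [List.getD_eq_getElem _ _ (by simpa using hp)]
      simp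
    obtain ⟨l, hl⟩ := ih (t + 1) (by omega) (step t (y ⟨pos n b t, hp⟩) w) (by
      rw [runs] at hw
      simp only [h13] at hw
      exact hw)
    exact ⟨_ :: l, SBP.Walk.test ⟨b, t, by omega, w, rfl, rfl, rfl⟩ hl⟩

theorem pos_lt {n N b t : ℕ} (hb : b < pts n N) (ht : t < 4 * n ^ 3) : pos n b t < N := by
  have h1 := pts_fits (n := n) (N := N) (by omega)
  have hn0 : 0 < n := pts_pos (N := N) (by omega)
  have h3 : b * n + n ≤ pts n N * n := by
    calc b * n + n = (b + 1) * n := by ring
      _ ≤ pts n N * n := Nat.mul_le_mul_right _ hb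
  have ht4 : t / 4 < n ^ 3 := by omega
  have hi : t / 4 / n / n < n := by
    rw [Nat.div_div_eq_div_mul]
    refine Nat.div_lt_of_lt_mul ?_
    rwa [show n * n * n = n ^ 3 by ring]
  have hj : t / 4 / n % n < n := Nat.mod_lt _ hn0
  have hl : t / 4 % n < n := Nat.mod_lt _ hn0
  unfold pos
  split_ifs <;> omega

/-- **Upper bound.** The words outside the language are accepted by a nondeterministic program without
stack that guesses at the source one of the points and is deterministic afterwards; every accepting walk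
has exactly `4 * n ^ 3` tests. -/
theorem up_spec (s : ℕ → ℕ) (N : ℕ) (y : Fin N → Bool) :
    ((∃ l, (up N (s N) (pts (s N) N)).AccWalk y l) ↔ ¬ L s (List.ofFn y)) ∧
    ∀ l, (up N (s N) (pts (s N) N)).AccWalk y l → l.length = 4 * s N ^ 3 := by
  obtain ⟨n, hn⟩ : ∃ n, n = s N := ⟨_, rfl⟩
  have key : ∀ b, (runs n (fun i => (List.ofFn y).getD i false) b (4 * n ^ 3) 0 (false, true)).1 =
      true ↔ cubic n (fun t => (List.ofFn y).getD t false)
        (fun i => (List.ofFn y).getD (n ^ 3 + b * n + i) false) ≠ 0 := by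
    intro b
    rw [cubic_eq, ← (runs_four n (fun i => (List.ofFn y).getD i false) b (n ^ 3)).2, zb_ne_zero]
  have hL : ¬ L s (List.ofFn y) ↔ ∃ b < pts n N, cubic n (fun t => (List.ofFn y).getD t false)
        (fun i => (List.ofFn y).getD (n ^ 3 + b * n + i) false) ≠ 0 := by
    unfold L
    rw [List.length_ofFn, ← hn]
    push Not
    rfl
  have first : ∀ l, (up N n (pts n N)).AccWalk y l → ∃ b : Fin (pts n N),
      (up N n (pts n N)).Walk y (.st b 0 false true) [] .acc [] l := by
    intro l hl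
    unfold SBP.AccWalk at hl
    cases hl with
    | free h1 h2 =>
      rcases h1 with ⟨b, _, rfl⟩ | ⟨b', p, h1, _⟩
      · exact ⟨b, h2⟩
      · cases h1
    | test h1 h2 =>
      obtain ⟨_, _, _, _, h3, _⟩ := h1
      cases h3
    | push h4 _ => exact h4.elim
  rw [← hn]
  refine ⟨⟨?_, ?_⟩, ?_⟩
  · rintro ⟨l, hl⟩
    obtain ⟨b, hb⟩ := first l hl
    have h1 := walk_st y b (4 * n ^ 3) 0 (by omega) (false, true) l hb
    exact hL.2 ⟨b, b.2, (key b).1 h1.2⟩
  · intro h
    obtain ⟨b, hb, hc⟩ := hL.1 h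
    obtain ⟨l, hl⟩ := st_walk y (⟨b, hb⟩ : Fin (pts n N)) (fun t ht => pos_lt hb ht) (4 * n ^ 3) 0 (by omega)
      (false, true) ((key b).2 hc)
    exact ⟨l, SBP.Walk.free (Or.inl ⟨⟨b, hb⟩, rfl, rfl⟩) hl⟩
  · intro l hl
    obtain ⟨b, hb⟩ := first l hl
    exact (walk_st y b (4 * n ^ 3) 0 (by omega) (false, true) l hb).1

/-- the number of nodes -/
theorem up_card (n N : ℕ) : Fintype.card (UNode (pts n N) (4 * n ^ 3)) ≤ 4 * (N + 1) ^ 2 := by
  rw [card_UNode]
  rcases Nat.eq_zero_or_pos (pts n N) with h0 | h0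
  · rw [h0]
    nlinarith [Nat.zero_le N]
  have h1 := pts_fits h0
  have hn := pts_pos h0
  obtain ⟨B, hB⟩ : ∃ B, B = pts n N := ⟨_, rfl⟩
  rw [← hB] at h0 h1 ⊢
  obtain ⟨q, hq⟩ : ∃ q, q = n ^ 3 := ⟨_, rfl⟩
  rw [← hq] at h1 ⊢
  have h2 : B ≤ B * n := Nat.le_mul_of_pos_right _ hn
  have h3 : B ≤ N := by omega
  have h4 : 4 * (q * (B * n)) ≤ N * N := by
    have h5 : 4 * (q * (B * n)) ≤ (q + B * n) * (q + B * n) := by
      zify
      nlinarith [sq_nonneg ((q : ℤ) - B * n)]
    exact h5.trans (Nat.mul_le_mul h1 h1)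
  have h6 : q * B ≤ q * (B * n) := Nat.mul_le_mul_left _ h2
  nlinarith

/-- the program in which the source has only the edge to `v0` -/
def fixGuess {V Γ I : Type} (P : SBP V Γ I) (v0 : V) : SBP V Γ I :=
  { P with free := fun u v => P.free u v ∧ (u = P.src → v = v0) }

/-- The program guesses once: the source has `m` unlabelled edges and no others, and with any one of
them the program is deterministic. -/
def GuessOnce {V Γ I : Type} (P : SBP V Γ I) (m : ℕ) : Prop :=
  ∃ f : Fin m → V, (∀ v, P.free P.src v ↔ ∃ b, v = f b) ∧ (∀ i b v, ¬ P.test P.src i b v) ∧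
    (∀ a v, ¬ P.push P.src a v) ∧ (∀ a v, ¬ P.pop P.src a v) ∧
    ∀ b, Pool.Agent.KD.Det (fixGuess P (f b))

theorem up_guess (N n B : ℕ) : GuessOnce (up N n B) B := by
  refine ⟨fun b => .st b 0 false true, fun v => ⟨?_, ?_⟩, ?_, fun _ _ h => h.elim, fun _ _ h => h.elim,
    fun b => ?_⟩
  · rintro (⟨b, _, rfl⟩ | ⟨b', p, h1, _⟩)
    · exact ⟨b, rfl⟩
    · cases h1
  · rintro ⟨b, rfl⟩
    exact Or.inl ⟨b, rfl, rfl⟩
  · rintro i b v ⟨_, _, _, _, h3, _⟩
    cases h3
  · constructor
    · rintro u v v' ⟨h1, h2⟩ ⟨h3, h4⟩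
      rcases h1 with ⟨b1, rfl, _⟩ | ⟨b1, p1, rfl, rfl⟩
      · rw [h2 rfl, h4 rfl]
      · rcases h3 with ⟨b2, h5, _⟩ | ⟨b2, p2, _, rfl⟩
        · cases h5
        · rfl
    · rintro u v i c v' ⟨h1, h2⟩ ⟨b', t', ht', w', h3, _⟩
      rcases h1 with ⟨b1, rfl, _⟩ | ⟨b1, p1, rfl, rfl⟩
      · cases h3
      · injection h3 with _ h4 _ _
        have := congrArg Fin.val h4
        simp at this
        omega
    · exact fun _ h => h.elim
    · exact fun _ h => h.elim
    · rintro u i c v i' c' v' ⟨b1, t1, ht1, w1, rfl, hi1, rfl⟩ ⟨b2, t2, ht2, w2, h3, hi2, rfl⟩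
      injection h3 with h6 h4 h7 h8
      have h9 := congrArg Fin.val h4
      simp only at h9
      subst h6 h9
      have h10 : w1 = w2 := Prod.ext h7 h8
      subst h10
      refine ⟨Fin.ext (hi1.trans hi2.symm), fun h => by rw [h]⟩
    · exact fun _ h => h.elim
    · exact fun _ h => h.elim
    · exact fun h _ => h.elim
    · exact fun h _ => h.elim
    · exact fun h _ => h.elim
    · rintro v ⟨h1, _⟩
      rcases h1 with ⟨b1, h, _⟩ | ⟨b1, p1, h, _⟩
      · cases h
      · cases h
    · rintro i c v ⟨b1, t1, ht1, w1, h, _⟩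
      cases h
    · exact fun h => h.elim
    · exact fun h => h.elim

end Pool.Agent.KH
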